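import Pool.Agent.H705R2.ABC.Defs
import Pool.Agent.H785R2.ABC.Bridge

/-!
# abc-triples with a small radical: the bound for all cells (task CEL)
-/

namespace Pool.Agent.H705R2.ABC

open Finset Pool.Agent.H785R2.ABC

namespace Cel

open Pool.Agent.H785R2.ABC.Bridge

/-- one side of the bound `EST` -/
lemma side_le (hF : Basics) (K : ℕ) {s : ℕ × ℕ × ℕ} (h : IsABCTriple s.1 s.2.1 s.2.2)
    (r j : Fin 3) (F : Finset (Fin (K + 1))) :
    side K s r j F ≤ 2 * (s.2.2 : ℝ) ^ (cost (expV K s) j univ + expV K s j (Fin.last K) +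
      max 0 (3 / 2 * cost (expV K s) j univ - cost (expW K s) r F)) := by
  have hc2 : (2 : ℝ) ≤ s.2.2 := by exact_mod_cast two_le_c h
  have hc : (0 : ℝ) < s.2.2 := by linarith
  have hc1 : (1 : ℝ) ≤ s.2.2 := by linarith
  have h1 : (rd K (num s j) {Fin.last K} : ℝ) = (s.2.2 : ℝ) ^ expV K s j (Fin.last K) := by
    rw [rd_eq hF K h]
    simp [cost]
  unfold side
  rw [h1, rd_eq hF K h j univ, part_eq hF K h r F, ← Real.rpow_mul hc.le, ← Real.rpow_sub hc,
    Real.rpow_add hc, Real.rpow_add hc]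
  have e1 : (s.2.2 : ℝ) ^ (cost (expV K s) j univ * (3 / 2) - cost (expW K s) r F) ≤
      (s.2.2 : ℝ) ^ (max 0 (3 / 2 * cost (expV K s) j univ - cost (expW K s) r F)) := by
    apply Real.rpow_le_rpow_of_exponent_le hc1
    rw [mul_comm]
    exact le_max_right _ _
  have e2 : (1 : ℝ) ≤
      (s.2.2 : ℝ) ^ (max 0 (3 / 2 * cost (expV K s) j univ - cost (expW K s) r F)) :=
    Real.one_le_rpow hc1 (le_max_left _ _)
  have e3 : 0 ≤ (s.2.2 : ℝ) ^ cost (expV K s) j univ * (s.2.2 : ℝ) ^ expV K s j (Fin.last K) := by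
    positivity
  calc (s.2.2 : ℝ) ^ cost (expV K s) j univ * (s.2.2 : ℝ) ^ expV K s j (Fin.last K) *
        (1 + (s.2.2 : ℝ) ^ (cost (expV K s) j univ * (3 / 2) - cost (expW K s) r F))
      ≤ (s.2.2 : ℝ) ^ cost (expV K s) j univ * (s.2.2 : ℝ) ^ expV K s j (Fin.last K) *
        (2 * (s.2.2 : ℝ) ^ (max 0 (3 / 2 * cost (expV K s) j univ - cost (expW K s) r F))) := by
        apply mul_le_mul_of_nonneg_left _ e3
        linarith
    _ = _ := by ring

lemma side_nonneg (K : ℕ) (s : ℕ × ℕ × ℕ) (r j : Fin 3) (F : Finset (Fin (K + 1))) :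
    0 ≤ side K s r j F := by
  unfold side
  positivity

end Cel

open Cel Pool.Agent.H785R2.ABC.Bridge in
theorem cells_of (hF : Basics) (hP : StmtPoly) (hTr : StmtTr) (hE : StmtEst) (hD : StmtDc)
    (hN : StmtNum) : ∀ lam : ℝ, 0 < lam → lam ≤ 9 / 10 → StmtCells lam (4 * lam / 7) := by
  intro lam hlam0 hlam1 ε hε
  obtain ⟨K₀, C, hC, hnum⟩ := hN lam hlam0 hlam1
  set K : ℕ := max K₀ ⌈2 / ε⌉₊ with hK
  have hKε : 1 / ((K : ℝ) + 1) ≤ ε / 2 := by
    have h1 : 2 / ε ≤ (K : ℝ) := (Nat.le_ceil _).trans (by exact_mod_cast le_max_right _ _)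
    rw [div_le_iff₀ hε] at h1
    rw [div_le_div_iff₀ (by positivity) (by norm_num)]
    nlinarith
  obtain ⟨D₁, hD₁, H₁⟩ := hTr K (ε / 2) (by positivity)
  obtain ⟨D₂, hD₂, H₂⟩ := hE K (ε / 2) (by positivity)
  obtain ⟨D₃, hD₃, H₃⟩ := hD K (ε / 2) (by positivity)
  refine ⟨K, 2 * (D₁ + D₂ + D₃) * Real.exp (C * Real.log 2), by positivity, ?_⟩
  intro T hT hrad s hs
  have h := hT.abc s hs
  have hc2 : (2 : ℝ) ≤ s.2.2 := by exact_mod_cast two_le_c h
  have hc : (0 : ℝ) < s.2.2 := by linarith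
  have hc1 : (1 : ℝ) ≤ s.2.2 := by linarith
  have hlog : 0 < Real.log s.2.2 := Real.log_pos (by linarith)
  have hpoly := hP K lam s h (hT.le s hs) (hrad s hs)
  have hδ : 0 ≤ Real.log 2 / Real.log s.2.2 :=
    div_nonneg (Real.log_nonneg (by norm_num)) hlog.le
  have hEx : 0 < Real.exp (C * Real.log 2) := Real.exp_pos _
  set B : ℝ := Real.exp (C * Real.log 2) * (s.2.2 : ℝ) ^ (4 * lam / 7 + ε / 2) with hB
  have hB0 : 0 < B := mul_pos hEx (Real.rpow_pos_of_pos hc _)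
  have hpw : ∀ x : ℝ, x ≤ 4 * lam / 7 + 1 / ((K : ℝ) + 1) + C * (Real.log 2 / Real.log s.2.2) →
      (s.2.2 : ℝ) ^ x ≤ B := by
    intro x hx
    calc (s.2.2 : ℝ) ^ x ≤
        (s.2.2 : ℝ) ^ ((4 * lam / 7 + ε / 2) + C * (Real.log 2 / Real.log s.2.2)) :=
          Real.rpow_le_rpow_of_exponent_le hc1 (by linarith)
      _ = B := by
          rw [Real.rpow_add hc, mul_comm, hB]
          congr 1
          rw [Real.rpow_def_of_pos hc]
          congr 1
          field_simp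
  have hpw' : ∀ x : ℝ, x ≤ 4 * lam / 7 + C * (Real.log 2 / Real.log s.2.2) →
      (s.2.2 : ℝ) ^ x ≤ B := by
    intro x hx
    apply hpw
    have : 0 ≤ 1 / ((K : ℝ) + 1) := by positivity
    linarith
  have hcε : 0 < (s.2.2 : ℝ) ^ (ε / 2) := Real.rpow_pos_of_pos hc _
  have hfin : ∀ D : ℝ, 0 < D → D ≤ D₁ + D₂ + D₃ → ∀ y : ℝ, y ≤ 2 * B →
      (T.card : ℝ) ≤ D * (s.2.2 : ℝ) ^ (ε / 2) * y →
      (T.card : ℝ) ≤ 2 * (D₁ + D₂ + D₃) * Real.exp (C * Real.log 2) *
        (s.2.2 : ℝ) ^ (4 * lam / 7 + ε) := by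
    intro D hD0 hDle y hy hcard
    calc (T.card : ℝ) ≤ D * (s.2.2 : ℝ) ^ (ε / 2) * y := hcard
      _ ≤ D * (s.2.2 : ℝ) ^ (ε / 2) * (2 * B) :=
          mul_le_mul_of_nonneg_left hy (by positivity)
      _ ≤ (D₁ + D₂ + D₃) * (s.2.2 : ℝ) ^ (ε / 2) * (2 * B) := by
          apply mul_le_mul_of_nonneg_right _ (by positivity)
          exact mul_le_mul_of_nonneg_right hDle hcε.le
      _ = 2 * (D₁ + D₂ + D₃) * Real.exp (C * Real.log 2) *
        (s.2.2 : ℝ) ^ (4 * lam / 7 + ε) := by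
          have e : (s.2.2 : ℝ) ^ (4 * lam / 7 + ε) =
              (s.2.2 : ℝ) ^ (ε / 2) * (s.2.2 : ℝ) ^ (4 * lam / 7 + ε / 2) := by
            rw [← Real.rpow_add hc]
            congr 1
            ring
          rw [e, hB]
          ring
  rcases hnum K (le_max_left _ _) _ _ _ hδ hpoly with
    ⟨p, q, hpq, hb⟩ | ⟨p, q, r, h1, h2, h3, F, hb⟩ | ⟨p, q, r, h1, h2, h3, i, hi1, hi2, hb1, hb2⟩
  · refine hfin D₁ hD₁ (by linarith) _ ?_ (H₁ T hT s hs p q hpq)
    rw [rd_eq hF K h, rd_eq hF K h, ← Real.rpow_add hc]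
    have := hpw' _ hb
    linarith
  · have hbound := H₂ T hT s hs p q r h1 h2 h3 F
    rw [mul_assoc (D₂ * (s.2.2 : ℝ) ^ (ε / 2))] at hbound
    refine hfin D₂ hD₂ (by linarith) _ ?_ hbound
    set ap : ℝ := cost (expV K s) p univ + expV K s p (Fin.last K) +
      max 0 (3 / 2 * cost (expV K s) p univ - cost (expW K s) r F) with hap
    set aq : ℝ := cost (expV K s) q univ + expV K s q (Fin.last K) +
      max 0 (3 / 2 * cost (expV K s) q univ - cost (expW K s) r F) with haq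
    have e1 : (side K s r p F * side K s r q F) ^ ((1 : ℝ) / 2) ≤
        2 * (s.2.2 : ℝ) ^ ((1 / 2) * (ap + aq)) := by
      calc (side K s r p F * side K s r q F) ^ ((1 : ℝ) / 2) ≤
          ((2 * (s.2.2 : ℝ) ^ ap) * (2 * (s.2.2 : ℝ) ^ aq)) ^ ((1 : ℝ) / 2) := by
            apply Real.rpow_le_rpow (mul_nonneg (side_nonneg _ _ _ _ _) (side_nonneg _ _ _ _ _))
              _ (by norm_num)
            exact mul_le_mul (side_le hF K h r p F) (side_le hF K h r q F)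
              (side_nonneg _ _ _ _ _) (by positivity)
        _ = (2 ^ 2 * (s.2.2 : ℝ) ^ (ap + aq)) ^ ((1 : ℝ) / 2) := by
            rw [Real.rpow_add hc ap aq]
            congr 1
            ring
        _ = 2 * (s.2.2 : ℝ) ^ ((1 / 2) * (ap + aq)) := by
            have e4 : ((2 : ℝ) ^ 2) ^ ((1 : ℝ) / 2) = 2 := by
              rw [← Real.sqrt_eq_rpow, Real.sqrt_sq (by norm_num)]
            rw [Real.mul_rpow (by positivity) (by positivity), ← Real.rpow_mul hc.le, e4,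
              mul_comm (ap + aq)]
    calc (rd K (num s r) F : ℝ) * (side K s r p F * side K s r q F) ^ ((1 : ℝ) / 2) ≤
        (rd K (num s r) F : ℝ) * (2 * (s.2.2 : ℝ) ^ ((1 / 2) * (ap + aq))) :=
          mul_le_mul_of_nonneg_left e1 (by positivity)
      _ = 2 * (s.2.2 : ℝ) ^ (cost (expV K s) r F + (1 / 2) * (ap + aq)) := by
          rw [rd_eq hF K h, Real.rpow_add hc]
          ring
      _ ≤ 2 * B := by
          have := hpw _ hb
          linarith
  · refine hfin D₃ hD₃ (by linarith) _ ?_ (H₃ T hT s hs p q r h1 h2 h3 i hi1 hi2)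
    rw [rd_eq hF K h, rd_eq hF K h, rd_eq hF K h, ← Real.rpow_add hc, ← Real.rpow_mul hc.le,
      ← Real.rpow_add hc]
    have f1 := hpw' _ hb1
    have f2 := hpw' _ hb2
    have e : (cost (expV K s) p {i}ᶜ + cost (expV K s) q univ) * (1 / 2) + cost (expV K s) r univ =
        (1 / 2) * (cost (expV K s) p {i}ᶜ + cost (expV K s) q univ) + cost (expV K s) r univ := by
      ring
    rw [e]
    linarith

end Pool.Agent.H705R2.ABC
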