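import Mathlib
import Pool.Agent.H785R2.ABC.Defs

/-!
# abc-triples with a small radical: statements of the modules (helper705)

Main theorem: for `0 < lam ≤ 9/10` and `ε > 0` the number of abc-triples with `c ≤ X` and
`rad (abc) ≤ c ^ lam` is `O (X ^ (4 lam / 7 + ε))`.  The definitions of `rad`, `IsABCTriple`,
`rd`, `part`, `Cell`, `Poly`, `cost`, `num` are those of helper785 (`H785R2.ABC.Defs`).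
-/

namespace Pool.Agent.H705R2.ABC

open Finset Pool.Agent.H785R2.ABC

/-- divisor bound (number of divisors) -/
def StmtTau : Prop :=
  ∀ ε : ℝ, 0 < ε → ∃ D : ℝ, 0 < D ∧ ∀ n : ℕ, 1 ≤ n → (n.divisors.card : ℝ) ≤ D * (n : ℝ) ^ ε

/-- number of factorisations of `t` into `h` ordered factors -/
def StmtFac : Prop :=
  ∀ h : ℕ, ∀ ε : ℝ, 0 < ε → ∃ D : ℝ, 0 < D ∧ ∀ t : ℕ, 1 ≤ t → ∀ P : Finset (Fin h → ℕ),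
    (∀ x ∈ P, ∏ j, x j = t) → (P.card : ℝ) ≤ D * (t : ℝ) ^ ε

/-- TWO: the two-variable multiplicative energy modulo `f` -/
def StmtTwo : Prop :=
  ∀ M : ℕ, ∀ ε : ℝ, 0 < ε → ∃ D : ℝ, 0 < D ∧ ∀ k l : ℕ, 1 ≤ k → k ≤ M → 1 ≤ l → l ≤ M →
    ∀ X f N T : ℕ, 1 ≤ X → 1 ≤ f → f ≤ X → 1 ≤ N → N ≤ X → 1 ≤ T → T ≤ X →
    ∀ Q : Finset ((ℕ × ℕ) × (ℕ × ℕ)),
    (∀ t ∈ Q, 1 ≤ t.1.1 ∧ t.1.1 ≤ N ∧ 1 ≤ t.1.2 ∧ t.1.2 ≤ N ∧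
      1 ≤ t.2.1 ∧ t.2.1 ≤ T ∧ 1 ≤ t.2.2 ∧ t.2.2 ≤ T ∧
      Nat.Coprime t.1.1 f ∧ Nat.Coprime t.1.2 f ∧ Nat.Coprime t.2.1 f ∧ Nat.Coprime t.2.2 f ∧
      (t.1.1 : ZMod f) ^ k * (t.2.1 : ZMod f) ^ l = (t.1.2 : ZMod f) ^ k * (t.2.2 : ZMod f) ^ l) →
    (Q.card : ℝ) ≤ D * (X : ℝ) ^ ε * ((N : ℝ) * T * (1 + (N : ℝ) * T / f))

/-- PWR: the same with `t` replaced by a product of `h` variables up to `B` -/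
def StmtPwr : Prop :=
  ∀ M h : ℕ, ∀ ε : ℝ, 0 < ε → ∃ D : ℝ, 0 < D ∧ ∀ k l : ℕ, 1 ≤ k → k ≤ M → 1 ≤ l → l ≤ M →
    ∀ X f N B : ℕ, 1 ≤ X → 1 ≤ f → f ≤ X → 1 ≤ N → N ≤ X → 1 ≤ B → B ^ h ≤ X →
    ∀ Q : Finset ((ℕ × ℕ) × ((Fin h → ℕ) × (Fin h → ℕ))),
    (∀ t ∈ Q, 1 ≤ t.1.1 ∧ t.1.1 ≤ N ∧ 1 ≤ t.1.2 ∧ t.1.2 ≤ N ∧
      Nat.Coprime t.1.1 f ∧ Nat.Coprime t.1.2 f ∧
      (∀ j, 1 ≤ t.2.1 j ∧ t.2.1 j ≤ B ∧ Nat.Coprime (t.2.1 j) f) ∧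
      (∀ j, 1 ≤ t.2.2 j ∧ t.2.2 j ≤ B ∧ Nat.Coprime (t.2.2 j) f) ∧
      (t.1.1 : ZMod f) ^ k * (∏ j, (t.2.1 j : ZMod f)) ^ l =
        (t.1.2 : ZMod f) ^ k * (∏ j, (t.2.2 j : ZMod f)) ^ l) →
    (Q.card : ℝ) ≤ D * (X : ℝ) ^ ε * ((N : ℝ) * (B : ℝ) ^ h * (1 + (N : ℝ) * (B : ℝ) ^ h / f))

/-- JJ: the multiplicative energy of a product set -/
def StmtJ : Prop :=
  ∀ K : ℕ, ∀ ε : ℝ, 0 < ε → ∃ D : ℝ, 0 < D ∧ ∀ X f : ℕ, 1 ≤ X → 1 ≤ f → f ≤ X →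
    ∀ N : Fin K → ℕ, (∀ i, 1 ≤ N i) → ∏ i, N i ≤ X → ∀ c : ZMod f, IsUnit c →
    ∀ Q : Finset ((Fin K → ℕ) × (Fin K → ℕ)),
    (∀ t ∈ Q, (∀ i, 1 ≤ t.1 i ∧ t.1 i ≤ N i ∧ Nat.Coprime (t.1 i) f) ∧
      (∀ i, 1 ≤ t.2 i ∧ t.2 i ≤ N i ∧ Nat.Coprime (t.2 i) f) ∧
      ∏ i, (t.1 i : ZMod f) ^ ((i : ℕ) + 1) = c * ∏ i, (t.2 i : ZMod f) ^ ((i : ℕ) + 1)) →
    (Q.card : ℝ) ≤ D * (X : ℝ) ^ ε *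
      ((∏ i, (N i : ℝ)) * (1 + (∏ i, (N i : ℝ)) ^ ((3 : ℝ) / 2) / f))

/-- the factor of side `j` in the bound `EST` (`f = part K (num s r) F`) -/
noncomputable def side (K : ℕ) (s : ℕ × ℕ × ℕ) (r j : Fin 3) (F : Finset (Fin (K + 1))) : ℝ :=
  (rd K (num s j) univ : ℝ) * rd K (num s j) {Fin.last K} *
    (1 + (rd K (num s j) univ : ℝ) ^ ((3 : ℝ) / 2) / part K (num s r) F)

/-- EST: fix the part `F` of side `r`, Cauchy-Schwarz over residue classes for the two others -/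
def StmtEst : Prop :=
  ∀ K : ℕ, ∀ ε : ℝ, 0 < ε → ∃ D : ℝ, 0 < D ∧ ∀ T : Finset (ℕ × ℕ × ℕ), Cell K T → ∀ s ∈ T,
    ∀ p q r : Fin 3, p ≠ q → q ≠ r → p ≠ r → ∀ F : Finset (Fin (K + 1)),
    (T.card : ℝ) ≤ D * (s.2.2 : ℝ) ^ ε * (rd K (num s r) F : ℝ) *
      (side K s r p F * side K s r q F) ^ ((1 : ℝ) / 2)

/-- DC: the difference bound -/
def StmtDc : Prop :=
  ∀ K : ℕ, ∀ ε : ℝ, 0 < ε → ∃ D : ℝ, 0 < D ∧ ∀ T : Finset (ℕ × ℕ × ℕ), Cell K T → ∀ s ∈ T,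
    ∀ p q r : Fin 3, p ≠ q → q ≠ r → p ≠ r → ∀ i : Fin (K + 1), 1 ≤ (i : ℕ) → (i : ℕ) < K →
    (T.card : ℝ) ≤ D * (s.2.2 : ℝ) ^ ε *
      ((rd K (num s p) {i}ᶜ : ℝ) * rd K (num s q) univ +
        ((rd K (num s p) {i}ᶜ : ℝ) * rd K (num s q) univ) ^ ((1 : ℝ) / 2) *
          rd K (num s r) univ)

/-- TR: the trivial bound -/
def StmtTr : Prop :=
  ∀ K : ℕ, ∀ ε : ℝ, 0 < ε → ∃ D : ℝ, 0 < D ∧ ∀ T : Finset (ℕ × ℕ × ℕ), Cell K T → ∀ s ∈ T,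
    ∀ p q : Fin 3, p ≠ q → (T.card : ℝ) ≤ D * (s.2.2 : ℝ) ^ ε *
      ((rd K (num s p) univ : ℝ) * rd K (num s q) univ)

/-- NUM: one of the three bounds is always good -/
def StmtNum : Prop :=
  ∀ lam : ℝ, 0 < lam → lam ≤ 9 / 10 → ∃ K₀ : ℕ, ∃ C : ℝ, 0 ≤ C ∧ ∀ K : ℕ, K₀ ≤ K →
    ∀ (δ : ℝ) (v w : Fin 3 → Fin (K + 1) → ℝ), 0 ≤ δ → Poly K lam δ v w →
    (∃ p q : Fin 3, p ≠ q ∧ cost v p univ + cost v q univ ≤ 4 * lam / 7 + C * δ) ∨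
    (∃ p q r : Fin 3, p ≠ q ∧ q ≠ r ∧ p ≠ r ∧ ∃ F : Finset (Fin (K + 1)),
      cost v r F + (1 / 2) * ((cost v p univ + v p (Fin.last K) +
          max 0 (3 / 2 * cost v p univ - cost w r F)) +
        (cost v q univ + v q (Fin.last K) +
          max 0 (3 / 2 * cost v q univ - cost w r F))) ≤ 4 * lam / 7 + 1 / (K + 1) + C * δ) ∨
    (∃ p q r : Fin 3, p ≠ q ∧ q ≠ r ∧ p ≠ r ∧ ∃ i : Fin (K + 1), 1 ≤ (i : ℕ) ∧ (i : ℕ) < K ∧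
      cost v p {i}ᶜ + cost v q univ ≤ 4 * lam / 7 + C * δ ∧
      (1 / 2) * (cost v p {i}ᶜ + cost v q univ) + cost v r univ ≤ 4 * lam / 7 + C * δ)

/-- bound for all cells -/
def StmtCells (lam θ : ℝ) : Prop :=
  ∀ ε : ℝ, 0 < ε → ∃ (K : ℕ) (D : ℝ), 0 < D ∧ ∀ T : Finset (ℕ × ℕ × ℕ), Cell K T →
    (∀ s ∈ T, (rad (s.1 * s.2.1 * s.2.2) : ℝ) ≤ (s.2.2 : ℝ) ^ lam) → ∀ s ∈ T,
    (T.card : ℝ) ≤ D * (s.2.2 : ℝ) ^ (θ + ε)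

/-- final count -/
def StmtCount (lam θ : ℝ) : Prop :=
  ∀ ε : ℝ, 0 < ε → ∃ C : ℝ, ∀ X : ℕ, 1 ≤ X →
    ({t : ℕ × ℕ × ℕ | IsABCTriple t.1 t.2.1 t.2.2 ∧ t.2.2 ≤ X ∧
      (rad (t.1 * t.2.1 * t.2.2) : ℝ) ≤ (t.2.2 : ℝ) ^ lam}.ncard : ℝ) ≤ C * (X : ℝ) ^ (θ + ε)

end Pool.Agent.H705R2.ABC
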