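import Mathlib
import Pool.Agent.H705R2.ABC.Defs
import Pool.Agent.H785R2.ABC.Ecell

/-!
# Module DC: the difference bound
-/

namespace Pool.Agent.H705R2.ABC

open Finset Pool.Agent.H785R2.ABC

namespace Dc

/-- Cauchy-Schwarz for the number of elements -/
theorem cs_count {α β : Type*} [DecidableEq α] [DecidableEq β] (T : Finset α) (G : α → β) :
    T.card ^ 2 ≤ (T.image G).card *
      (T.card + ((T ×ˢ T).filter fun z => z.1 ≠ z.2 ∧ G z.1 = G z.2).card) := by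
  have h1 : T.card = ∑ y ∈ T.image G, (T.filter (fun t => G t = y)).card :=
    Finset.card_eq_sum_card_image G T
  have h2 : T.card ^ 2 ≤ (T.image G).card *
      ∑ y ∈ T.image G, (T.filter (fun t => G t = y)).card ^ 2 := by
    conv_lhs => rw [h1]
    exact sq_sum_le_card_mul_sum_sq
  refine h2.trans (Nat.mul_le_mul_left _ ?_)
  have h3 : ∑ y ∈ T.image G, (T.filter (fun t => G t = y)).card ^ 2 =
      ((T ×ˢ T).filter fun z => G z.1 = G z.2).card := by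
    rw [Finset.card_eq_sum_card_fiberwise (f := fun z : α × α => G z.1) (t := T.image G)]
    · refine Finset.sum_congr rfl fun y hy => ?_
      rw [sq, ← Finset.card_product]
      congr 1
      ext z
      simp only [mem_product, mem_filter]
      constructor
      · rintro ⟨⟨h1, h2⟩, h3, h4⟩
        exact ⟨⟨⟨h1, h3⟩, by rw [h2, h4]⟩, h2⟩
      · rintro ⟨⟨⟨h1, h3⟩, h5⟩, h2⟩
        exact ⟨⟨h1, h2⟩, h3, by rw [← h5, h2]⟩
    · intro z hz
      have hz' := Finset.mem_coe.1 hz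
      rw [mem_filter, mem_product] at hz'
      exact Finset.mem_coe.2 (Finset.mem_image.2 ⟨z.1, hz'.1.1, rfl⟩)
  rw [h3]
  have h4 : ((T ×ˢ T).filter fun z => G z.1 = G z.2) ⊆ T.image (fun t => (t, t)) ∪
      ((T ×ˢ T).filter fun z => z.1 ≠ z.2 ∧ G z.1 = G z.2) := by
    intro z hz
    rw [mem_filter] at hz
    rw [mem_union]
    by_cases hzz : z.1 = z.2
    · left
      rw [mem_image]
      exact ⟨z.1, (mem_product.1 hz.1).1, Prod.ext rfl hzz⟩
    · right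
      rw [mem_filter]
      exact ⟨hz.1, hzz, hz.2⟩
  exact (card_le_card h4).trans ((card_union_le _ _).trans (Nat.add_le_add_right card_image_le _))

theorem pow_diff_lt {k : ℕ} (hk : 2 ≤ k) {x y d : ℤ} (hx : 0 ≤ x) (hxy : x < y) (hd : 0 < d) :
    (x + d) ^ k - x ^ k < (y + d) ^ k - y ^ k := by
  rw [← (Commute.all (x + d) x).geom_sum₂_mul k, ← (Commute.all (y + d) y).geom_sum₂_mul k,
    add_sub_cancel_left, add_sub_cancel_left]
  refine mul_lt_mul_of_pos_right ?_ hd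
  refine Finset.sum_lt_sum (fun i _ => ?_) ⟨k - 1, by simp; omega, ?_⟩
  · exact mul_le_mul (pow_le_pow_left₀ (by omega) (by omega) _) (pow_le_pow_left₀ hx hxy.le _)
      (by positivity) (pow_nonneg (by omega) _)
  · rw [Nat.sub_self, pow_zero, pow_zero, mul_one, mul_one]
    exact pow_lt_pow_left₀ (by omega) (by omega) (by omega)

/-- the difference of two `k`-th powers, the distance and the order determine the numbers -/
theorem pow_diff_inj {k : ℕ} (hk : 2 ≤ k) {x x' y y' : ℕ} (hne : x ≠ x')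
    (h : (x : ℤ) ^ k - (x' : ℤ) ^ k = (y : ℤ) ^ k - (y' : ℤ) ^ k)
    (hd : ((x : ℤ) - x').natAbs = ((y : ℤ) - y').natAbs)
    (ho : decide (x' < x) = decide (y' < y)) : x = y ∧ x' = y' := by
  have ho' : x' < x ↔ y' < y := by simpa using ho
  rcases lt_or_gt_of_ne hne with h1 | h1
  · -- x < x'
    have h2 : ¬ y' < y := fun h3 => absurd (ho'.2 h3) (by omega)
    obtain ⟨d, hd'⟩ : ∃ d : ℕ, x' = x + d := ⟨x' - x, by omega⟩
    have hy' : y' = y + d := by omega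
    have hd0 : 0 < d := by omega
    subst hd' hy'
    push_cast at h
    have h3 : ((x : ℤ) + d) ^ k - (x : ℤ) ^ k = ((y : ℤ) + d) ^ k - (y : ℤ) ^ k := by linarith
    have h4 : x = y := by
      rcases lt_trichotomy x y with h5 | h5 | h5
      · have := pow_diff_lt hk (x := x) (y := y) (d := d) (by omega) (by omega) (by omega)
        omega
      · exact h5
      · have := pow_diff_lt hk (x := y) (y := x) (d := d) (by omega) (by omega) (by omega)
        omega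
    exact ⟨h4, by rw [h4]⟩
  · have h2 : y' < y := ho'.1 h1
    obtain ⟨d, hd'⟩ : ∃ d : ℕ, x = x' + d := ⟨x - x', by omega⟩
    have hy' : y = y' + d := by omega
    have hd0 : 0 < d := by omega
    subst hd' hy'
    push_cast at h
    have h4 : x' = y' := by
      rcases lt_trichotomy x' y' with h5 | h5 | h5
      · have := pow_diff_lt hk (x := x') (y := y') (d := d) (by omega) (by omega) (by omega)
        omega
      · exact h5
      · have := pow_diff_lt hk (x := y') (y := x') (d := d) (by omega) (by omega) (by omega)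
        omega
    exact ⟨by rw [h4], h4⟩

/-- the third member is a fixed linear combination of the two others -/
theorem num_lin {p q r : Fin 3} (hpq : p ≠ q) (hqr : q ≠ r) (hpr : p ≠ r) :
    ∃ a b : ℤ, (a = 1 ∨ a = -1) ∧ ∀ t : ℕ × ℕ × ℕ, IsABCTriple t.1 t.2.1 t.2.2 →
      (num t r : ℤ) = a * num t p + b * num t q := by
  have key : ∀ t : ℕ × ℕ × ℕ, IsABCTriple t.1 t.2.1 t.2.2 →
      (num t 2 : ℤ) = num t 0 + num t 1 := by
    intro t ht
    have h := ht.2.2.2.1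
    simp only [num]
    simp
    omega
  fin_cases p <;> fin_cases q <;> fin_cases r <;>
    first
      | exact absurd rfl hpq
      | exact absurd rfl hqr
      | exact absurd rfl hpr
      | (refine ⟨1, 1, Or.inl rfl, fun t ht => ?_⟩; have := key t ht; simp at this ⊢; omega)
      | (refine ⟨1, -1, Or.inl rfl, fun t ht => ?_⟩; have := key t ht; simp at this ⊢; omega)
      | (refine ⟨-1, 1, Or.inr rfl, fun t ht => ?_⟩; have := key t ht; simp at this ⊢; omega)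

theorem combine {N g M B : ℝ} (hN : 0 ≤ N) (hB : 0 ≤ B) (hg : 0 ≤ g) (h : N ^ 2 ≤ g * (N + M))
    (hM : 2 * (g * M) ≤ B ^ 2) : N ≤ 2 * g + B := by
  by_cases h1 : N ≤ 2 * g
  · linarith
  · have h2 : N ^ 2 ≤ B ^ 2 := by nlinarith
    have h3 : N ≤ B := le_of_sq_le_sq₀' hN hB h2
    linarith
where
  le_of_sq_le_sq₀' {N B : ℝ} (hN : 0 ≤ N) (hB : 0 ≤ B) (h : N ^ 2 ≤ B ^ 2) : N ≤ B := by
    nlinarith

end Dc

open Dc in
/-- Module DC. -/
theorem stmtDc_of (hF : Basics) (hA4 : StmtA4) (hT : StmtTau) : StmtDc := by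
  intro K ε hε
  obtain ⟨D4, hD4, hA⟩ := hA4 (ε / 3) (by positivity)
  obtain ⟨Dt, hDt, hτ⟩ := hT (ε / 3) (by positivity)
  refine ⟨2 * (D4 * 2 ^ (K + 1)) ^ 2 * (1 + Dt) * ((2 : ℝ) ^ (K + 1)) ^ ε, by positivity, ?_⟩
  intro T hcell s hs p q r hpq hqr hpr i hi1 hiK
  classical
  obtain ⟨c, hc⟩ : ∃ c, c = s.2.2 := ⟨_, rfl⟩
  have hcpos : 1 ≤ c := by rw [hc]; exact (hcell.abc s hs).2.2.1
  obtain ⟨X, hX⟩ : ∃ X, X = 2 ^ (K + 1) * c := ⟨_, rfl⟩
  have hXpos : 1 ≤ X := by rw [hX]; exact Nat.mul_pos (by positivity) hcpos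
  have hnumX : ∀ t ∈ T, ∀ j, num t j ≤ X := fun t ht j => by
    rw [hX, hc]; exact EC.num_le_X hF hcell ht hs j
  have hnum1 : ∀ t ∈ T, ∀ j, 1 ≤ num t j := fun t ht j => EC.num_pos (hcell.abc t ht) j
  obtain ⟨Rp, hRp⟩ : ∃ R : ℝ, R = (rd K (num s p) {i}ᶜ : ℝ) := ⟨_, rfl⟩
  obtain ⟨Rq, hRq⟩ : ∃ R : ℝ, R = (rd K (num s q) univ : ℝ) := ⟨_, rfl⟩
  obtain ⟨Rr, hRr⟩ : ∃ R : ℝ, R = (rd K (num s r) univ : ℝ) := ⟨_, rfl⟩
  have hRp0 : 0 ≤ Rp := by rw [hRp]; positivity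
  have hRq0 : 0 ≤ Rq := by rw [hRq]; positivity
  have hRr0 : 0 ≤ Rr := by rw [hRr]; positivity
  rw [← hRp, ← hRq, ← hRr, ← hc]
  -- the power of X
  obtain ⟨y, hy⟩ : ∃ y : ℝ, y = (X : ℝ) ^ (ε / 3) := ⟨_, rfl⟩
  have hXr : (1 : ℝ) ≤ X := by exact_mod_cast hXpos
  have hy1 : 1 ≤ y := by rw [hy]; exact Real.one_le_rpow hXr (by positivity)
  have hy3 : y ^ 3 = ((2 : ℝ) ^ (K + 1)) ^ ε * (c : ℝ) ^ ε := by
    rw [hy, ← Real.rpow_natCast, ← Real.rpow_mul (by positivity), ← Real.mul_rpow (by positivity)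
      (by positivity), hX]
    push_cast
    congr 1
    ring
  -- the sets of numbers with small radical
  have hU : ∀ R : ℝ, 0 ≤ R → (((Icc 1 X).filter fun d => (rad d : ℝ) ≤ 2 ^ (K + 1) * R).card : ℝ) ≤
      (D4 * 2 ^ (K + 1)) * y * R := by
    intro R hR
    have h1 := hA X hXpos (2 ^ (K + 1) * R) (by positivity)
    rw [← hy] at h1
    linarith
  -- the map G
  let G : ℕ × ℕ × ℕ → ℕ × ℕ := fun t => (part K (num t p) {i}ᶜ, num t q)
  have himg : ((T.image G).card : ℝ) ≤ ((D4 * 2 ^ (K + 1)) * y * Rp) * ((D4 * 2 ^ (K + 1)) * y * Rq) := by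
    have h1 : T.image G ⊆ ((Icc 1 X).filter fun d => (rad d : ℝ) ≤ 2 ^ (K + 1) * Rp) ×ˢ
        ((Icc 1 X).filter fun d => (rad d : ℝ) ≤ 2 ^ (K + 1) * Rq) := by
      intro z hz
      obtain ⟨t, ht, rfl⟩ := mem_image.1 hz
      simp only [G, mem_product, mem_filter, mem_Icc]
      refine ⟨⟨⟨hF.part_pos _ _ _, ?_⟩, ?_⟩, ⟨hnum1 t ht q, hnumX t ht q⟩, ?_⟩
      · exact (Nat.le_of_dvd (hnum1 t ht p) (hF.part_dvd _ _ _ (hnum1 t ht p))).trans (hnumX t ht p)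
      · rw [hF.rad_part _ _ _ (hnum1 t ht p), hRp]
        exact_mod_cast hcell.rd_le t ht s hs p {i}ᶜ
      · rw [← hF.rd_univ K, hRq]
        exact_mod_cast hcell.rd_le t ht s hs q univ
    calc ((T.image G).card : ℝ) ≤ ((((Icc 1 X).filter fun d => (rad d : ℝ) ≤ 2 ^ (K + 1) * Rp) ×ˢ
        ((Icc 1 X).filter fun d => (rad d : ℝ) ≤ 2 ^ (K + 1) * Rq)).card : ℝ) := by
          exact_mod_cast card_le_card h1
      _ = (((Icc 1 X).filter fun d => (rad d : ℝ) ≤ 2 ^ (K + 1) * Rp).card : ℝ) *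
          (((Icc 1 X).filter fun d => (rad d : ℝ) ≤ 2 ^ (K + 1) * Rq).card : ℝ) := by
          rw [card_product]; push_cast; ring
      _ ≤ _ := mul_le_mul (hU Rp hRp0) (hU Rq hRq0) (by positivity) (by positivity)
  -- the pairs
  obtain ⟨a, b, hab, hlin⟩ := num_lin hpq hqr hpr
  let U : Finset ℕ := (Icc 1 X).filter fun d => (rad d : ℝ) ≤ 2 ^ (K + 1) * Rr
  let x : ℕ × ℕ × ℕ → ℕ := fun t => rd K (num t p) {i}
  let A : ℕ × ℕ × ℕ → ℕ := fun t => part K (num t p) {i}ᶜ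
  have hnp : ∀ t ∈ T, num t p = A t * x t ^ ((i : ℕ) + 1) := by
    intro t ht
    have h1 := hF.part_mul K (num t p) {i} (hnum1 t ht p)
    rw [hF.part_single K (num t p) i hiK] at h1
    rw [← h1, mul_comm]
  let P := (T ×ˢ T).filter fun z => z.1 ≠ z.2 ∧ G z.1 = G z.2
  have hP : ∀ z ∈ P, z.1 ∈ T ∧ z.2 ∈ T ∧ z.1 ≠ z.2 ∧ A z.1 = A z.2 ∧
      num z.1 q = num z.2 q := by
    intro z hz
    simp only [P, mem_filter, mem_product, G, Prod.mk.injEq] at hz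
    exact ⟨hz.1.1, hz.1.2, hz.2.1, hz.2.2.1, hz.2.2.2⟩
  have hdiff : ∀ z ∈ P, (num z.1 r : ℤ) - num z.2 r =
      a * (A z.1 * ((x z.1 : ℤ) ^ ((i : ℕ) + 1) - (x z.2 : ℤ) ^ ((i : ℕ) + 1))) := by
    intro z hz
    obtain ⟨h1, h2, h3, h4, h5⟩ := hP z hz
    rw [hlin z.1 (hcell.abc _ h1), hlin z.2 (hcell.abc _ h2), h5, hnp z.1 h1, hnp z.2 h2, ← h4]
    push_cast
    ring
  have hxne : ∀ z ∈ P, x z.1 ≠ x z.2 := by
    intro z hz hx
    obtain ⟨h1, h2, h3, h4, h5⟩ := hP z hz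
    refine h3 (EC.num_inj (hcell.abc _ h1) (hcell.abc _ h2) hpq ?_ h5)
    rw [hnp z.1 h1, hnp z.2 h2, h4, hx]
  have hrne : ∀ z ∈ P, num z.1 r ≠ num z.2 r := by
    intro z hz hx
    obtain ⟨h1, h2, h3, h4, h5⟩ := hP z hz
    exact h3 (EC.num_inj (hcell.abc _ h1) (hcell.abc _ h2) hqr h5 hx)
  let Φ : (ℕ × ℕ × ℕ) × (ℕ × ℕ × ℕ) → (ℕ × ℕ) × (ℕ × ℕ × Bool) := fun z =>
    ((num z.1 r, num z.2 r), (A z.1, ((x z.1 : ℤ) - x z.2).natAbs, decide (x z.2 < x z.1)))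
  let dv : ℕ × ℕ → Finset ℕ := fun w => ((w.1 : ℤ) - w.2).natAbs.divisors
  let Z : Finset ((ℕ × ℕ) × (ℕ × ℕ × Bool)) :=
    (U ×ˢ U).biUnion fun w => ({w} : Finset (ℕ × ℕ)) ×ˢ (dv w ×ˢ (dv w ×ˢ (univ : Finset Bool)))
  have hmaps : ∀ z ∈ P, Φ z ∈ Z := by
    intro z hz
    obtain ⟨h1, h2, h3, h4, h5⟩ := hP z hz
    have hd := hdiff z hz
    have hmemU : ∀ t ∈ T, num t r ∈ U := by
      intro t ht
      simp only [U, mem_filter, mem_Icc]
      refine ⟨⟨hnum1 t ht r, hnumX t ht r⟩, ?_⟩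
      rw [← hF.rd_univ K, hRr]
      exact_mod_cast hcell.rd_le t ht s hs r univ
    simp only [Z, mem_biUnion, mem_product, mem_singleton]
    refine ⟨(num z.1 r, num z.2 r), ⟨hmemU _ h1, hmemU _ h2⟩, rfl, ?_, ?_, mem_univ _⟩
    · simp only [Φ, dv, Nat.mem_divisors]
      refine ⟨?_, ?_⟩
      · rw [← Int.natCast_dvd, hd]
        exact ⟨a * ((x z.1 : ℤ) ^ ((i : ℕ) + 1) - (x z.2 : ℤ) ^ ((i : ℕ) + 1)), by ring⟩
      · have := hrne z hz
        omega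
    · simp only [Φ, dv, Nat.mem_divisors]
      refine ⟨?_, ?_⟩
      · rw [Int.natAbs_dvd_natAbs, hd]
        exact Dvd.dvd.mul_left (Dvd.dvd.mul_left (sub_dvd_pow_sub_pow _ _ _) _) _
      · have := hrne z hz
        omega
  have hinj : Set.InjOn Φ (P : Set ((ℕ × ℕ × ℕ) × (ℕ × ℕ × ℕ))) := by
    intro z hz w hw hzw
    have hz' := Finset.mem_coe.1 hz
    have hw' := Finset.mem_coe.1 hw
    obtain ⟨h1, h2, h3, h4, h5⟩ := hP z hz'
    obtain ⟨g1, g2, g3, g4, g5⟩ := hP w hw'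
    simp only [Φ, Prod.mk.injEq] at hzw
    obtain ⟨⟨e1, e2⟩, e3, e4, e5⟩ := hzw
    have hdz := hdiff z hz'
    have hdw := hdiff w hw'
    have hA0 : (A z.1 : ℤ) ≠ 0 := by
      have : 1 ≤ A z.1 := hF.part_pos _ _ _
      omega
    have ha0 : a ≠ 0 := by rcases hab with h | h <;> rw [h] <;> norm_num
    rw [e1, e2, hdw, ← e3] at hdz
    have e6 := mul_left_cancel₀ hA0 (mul_left_cancel₀ ha0 hdz)
    obtain ⟨e7, e8⟩ := pow_diff_inj (k := (i : ℕ) + 1) (by omega) (hxne z hz') e6.symm e4 e5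
    refine Prod.ext ?_ ?_
    · refine EC.num_inj (hcell.abc _ h1) (hcell.abc _ g1) hpr ?_ e1
      rw [hnp z.1 h1, hnp w.1 g1, e3, e7]
    · refine EC.num_inj (hcell.abc _ h2) (hcell.abc _ g2) hpr ?_ e2
      rw [hnp z.2 h2, hnp w.2 g2, ← h4, ← g4, e3, e8]
  have hdv : ∀ w ∈ U ×ˢ U, ((dv w).card : ℝ) ≤ Dt * y := by
    intro w hw
    simp only [U, mem_product, mem_filter, mem_Icc] at hw
    by_cases h0 : ((w.1 : ℤ) - w.2).natAbs = 0
    · simp only [dv, h0, Nat.divisors_zero, card_empty, Nat.cast_zero]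
      positivity
    · refine (hτ _ (Nat.one_le_iff_ne_zero.2 h0)).trans ?_
      rw [hy]
      refine mul_le_mul_of_nonneg_left (Real.rpow_le_rpow (by positivity) ?_ (by positivity)) hDt.le
      have : ((w.1 : ℤ) - w.2).natAbs ≤ X := by omega
      exact_mod_cast this
  have hPcard : (P.card : ℝ) ≤ ((D4 * 2 ^ (K + 1)) * y * Rr) ^ 2 * (2 * (Dt * y) ^ 2) := by
    have h1 : P.card ≤ Z.card := card_le_card_of_injOn Φ (fun z hz => hmaps z hz) hinj
    have h2 : (Z.card : ℝ) ≤ ∑ w ∈ U ×ˢ U, (2 * (Dt * y) ^ 2) := by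
      have h3 : Z.card ≤ ∑ w ∈ U ×ˢ U, (({w} : Finset (ℕ × ℕ)) ×ˢ
          (dv w ×ˢ (dv w ×ˢ (univ : Finset Bool)))).card := card_biUnion_le
      calc (Z.card : ℝ) ≤ ((∑ w ∈ U ×ˢ U, (({w} : Finset (ℕ × ℕ)) ×ˢ
          (dv w ×ˢ (dv w ×ˢ (univ : Finset Bool)))).card : ℕ) : ℝ) := by exact_mod_cast h3
        _ ≤ _ := by
          push_cast
          refine sum_le_sum fun w hw => ?_
          have h4 := hdv w hw
          rw [card_product, card_product, card_product, card_singleton, card_univ,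
            Fintype.card_bool]
          push_cast
          have h5 : ((dv w).card : ℝ) * (dv w).card ≤ (Dt * y) * (Dt * y) :=
            mul_le_mul h4 h4 (Nat.cast_nonneg _) (by positivity)
          nlinarith
    have h6 : ((U ×ˢ U).card : ℝ) ≤ ((D4 * 2 ^ (K + 1)) * y * Rr) ^ 2 := by
      rw [card_product]
      push_cast
      rw [sq]
      exact mul_le_mul (hU Rr hRr0) (hU Rr hRr0) (Nat.cast_nonneg _) (by positivity)
    calc (P.card : ℝ) ≤ Z.card := by exact_mod_cast h1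
      _ ≤ ∑ w ∈ U ×ˢ U, (2 * (Dt * y) ^ 2) := h2
      _ = ((U ×ˢ U).card : ℝ) * (2 * (Dt * y) ^ 2) := by rw [sum_const, nsmul_eq_mul]
      _ ≤ _ := mul_le_mul_of_nonneg_right h6 (by positivity)
  -- Cauchy-Schwarz
  have hcs : (T.card : ℝ) ^ 2 ≤ ((T.image G).card : ℝ) * (T.card + P.card) := by
    exact_mod_cast cs_count T G
  obtain ⟨E, hE⟩ : ∃ E : ℝ, E = D4 * 2 ^ (K + 1) := ⟨_, rfl⟩
  have hE0 : 0 < E := by rw [hE]; positivity
  rw [← hE] at himg hPcard ⊢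
  have hy0 : 0 ≤ y := by linarith
  obtain ⟨ρ, hρ⟩ : ∃ ρ : ℝ, ρ = (Rp * Rq) ^ ((1 : ℝ) / 2) := ⟨_, rfl⟩
  have hρ0 : 0 ≤ ρ := by rw [hρ]; positivity
  have hρ2 : ρ ^ 2 = Rp * Rq := by
    rw [hρ, ← Real.rpow_natCast, ← Real.rpow_mul (by positivity)]
    norm_num
  rw [← hρ]
  have hfin : (T.card : ℝ) ≤ 2 * ((E * y * Rp) * (E * y * Rq)) +
      2 * E ^ 2 * Dt * y ^ 3 * ρ * Rr := by
    refine combine (M := ((E * y * Rr) ^ 2 * (2 * (Dt * y) ^ 2))) (Nat.cast_nonneg _) (by positivity)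
      (by positivity) ?_ ?_
    · refine hcs.trans ?_
      exact mul_le_mul himg (by linarith) (add_nonneg (Nat.cast_nonneg _) (Nat.cast_nonneg _))
        (by positivity)
    · have : (2 * E ^ 2 * Dt * y ^ 3 * ρ * Rr) ^ 2 = 4 * E ^ 4 * Dt ^ 2 * y ^ 6 * ρ ^ 2 * Rr ^ 2 := by
        ring
      rw [this, hρ2]
      apply le_of_eq
      ring
  have hy23 : y ^ 2 ≤ y ^ 3 := pow_le_pow_right₀ hy1 (by norm_num)
  calc (T.card : ℝ) ≤ 2 * ((E * y * Rp) * (E * y * Rq)) + 2 * E ^ 2 * Dt * y ^ 3 * ρ * Rr := hfin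
    _ = 2 * E ^ 2 * (Rp * Rq) * y ^ 2 + 2 * E ^ 2 * Dt * y ^ 3 * (ρ * Rr) := by ring
    _ ≤ 2 * E ^ 2 * (Rp * Rq) * y ^ 3 + 2 * E ^ 2 * Dt * y ^ 3 * (ρ * Rr) := by
        have : 2 * E ^ 2 * (Rp * Rq) * y ^ 2 ≤ 2 * E ^ 2 * (Rp * Rq) * y ^ 3 :=
          mul_le_mul_of_nonneg_left hy23 (by positivity)
        linarith
    _ ≤ 2 * E ^ 2 * (1 + Dt) * y ^ 3 * (Rp * Rq + ρ * Rr) := by
        have h1 : 0 ≤ E ^ 2 * Dt * y ^ 3 * (Rp * Rq) := by positivity
        have h2 : 0 ≤ E ^ 2 * y ^ 3 * (ρ * Rr) := by positivity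
        nlinarith
    _ = _ := by rw [hy3]; ring

end Pool.Agent.H705R2.ABC
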