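import Pool.Agent.H705R2.ABC.Defs
import Pool.Agent.H785R2.ABC.Ecell

/-!
# Module EST: Cauchy-Schwarz over residue classes (helper629)
-/

set_option autoImplicit false

namespace Pool.Agent.H705R2.ABC

open Finset Pool.Agent.H785R2.ABC Pool.Agent.H785R2.ABC.EC

namespace Est

theorem card_pairs (P Q : Finset ℕ) (κP κQ : ℕ → ℤ) (C : Finset ℤ) (hC : ∀ n ∈ P, κP n ∈ C) :
    ((P ×ˢ Q).filter fun t => κP t.1 = κQ t.2).card =
      ∑ c ∈ C, (P.filter fun n => κP n = c).card * (Q.filter fun n => κQ n = c).card := by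
  rw [card_eq_sum_card_fiberwise (f := fun t => κP t.1) (t := C)]
  · apply sum_congr rfl
    intro c _
    rw [← card_product]
    congr 1
    ext ⟨a, b⟩
    simp only [mem_filter, mem_product]
    constructor
    · rintro ⟨⟨⟨h1, h2⟩, h3⟩, h4⟩
      exact ⟨⟨h1, h4⟩, h2, by rw [← h3]; exact h4⟩
    · rintro ⟨⟨h1, h2⟩, h3, h4⟩
      exact ⟨⟨⟨h1, h3⟩, by rw [h2, h4]⟩, h2⟩
  · intro t ht
    have h1 : t ∈ (P ×ˢ Q).filter fun t => κP t.1 = κQ t.2 := ht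
    rw [mem_filter, mem_product] at h1
    exact hC _ h1.1.1

theorem cs (P Q : Finset ℕ) (κP κQ : ℕ → ℤ) :
    (((P ×ˢ Q).filter fun t => κP t.1 = κQ t.2).card : ℝ) ^ 2 ≤
      (((P ×ˢ P).filter fun t => κP t.1 = κP t.2).card : ℝ) *
      (((Q ×ˢ Q).filter fun t => κQ t.1 = κQ t.2).card : ℝ) := by
  classical
  set C : Finset ℤ := P.image κP ∪ Q.image κQ with hC
  have hP : ∀ n ∈ P, κP n ∈ C := fun n hn => mem_union_left _ (mem_image_of_mem _ hn)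
  have hQ : ∀ n ∈ Q, κQ n ∈ C := fun n hn => mem_union_right _ (mem_image_of_mem _ hn)
  rw [card_pairs P Q κP κQ C hP, card_pairs P P κP κP C hP, card_pairs Q Q κQ κQ C hQ]
  push_cast
  have := sum_mul_sq_le_sq_mul_sq C (fun c => ((P.filter fun n => κP n = c).card : ℝ))
    (fun c => ((Q.filter fun n => κQ n = c).card : ℝ))
  simpa [sq] using this

/-- the body of `StmtJ` -/
def JBody (K : ℕ) (D ε : ℝ) : Prop :=
  ∀ X f : ℕ, 1 ≤ X → 1 ≤ f → f ≤ X →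
    ∀ N : Fin K → ℕ, (∀ i, 1 ≤ N i) → ∏ i, N i ≤ X → ∀ c : ZMod f, IsUnit c →
    ∀ Q : Finset ((Fin K → ℕ) × (Fin K → ℕ)),
    (∀ t ∈ Q, (∀ i, 1 ≤ t.1 i ∧ t.1 i ≤ N i ∧ Nat.Coprime (t.1 i) f) ∧
      (∀ i, 1 ≤ t.2 i ∧ t.2 i ≤ N i ∧ Nat.Coprime (t.2 i) f) ∧
      ∏ i, (t.1 i : ZMod f) ^ ((i : ℕ) + 1) = c * ∏ i, (t.2 i : ZMod f) ^ ((i : ℕ) + 1)) →
    (Q.card : ℝ) ≤ D * (X : ℝ) ^ ε *
      ((∏ i, (N i : ℝ)) * (1 + (∏ i, (N i : ℝ)) ^ ((3 : ℝ) / 2) / f))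

/-- factorisation of `n` -/
theorem fact (hF : Basics) (K n : ℕ) (hn : 1 ≤ n) :
    n = (∏ i : Fin K, rd K n {i.castSucc} ^ ((i : ℕ) + 1)) * part K n {Fin.last K} := by
  conv_lhs => rw [← hF.part_univ K n hn, hF.part_prod K n univ, Fin.prod_univ_castSucc]
  congr 1
  apply prod_congr rfl
  intro i _
  rw [hF.part_single K n i.castSucc (by simp)]
  simp

theorem rd_split (hF : Basics) (K n : ℕ) :
    (∏ i : Fin K, rd K n {i.castSucc}) * rd K n {Fin.last K} = rd K n univ := by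
  rw [hF.rd_prod K n univ, Fin.prod_univ_castSucc]

theorem rd_dvd_self (hF : Basics) (K n : ℕ) (hn : 1 ≤ n) (S : Finset (Fin (K + 1))) :
    rd K n S ∣ n := by
  refine (hF.rd_dvd K n S univ (subset_univ _)).trans ?_
  rw [hF.rd_univ]
  exact Nat.prod_primeFactors_dvd n

theorem energy (hF : Basics) {K : ℕ} {T : Finset (ℕ × ℕ × ℕ)} (hT : Cell K T) {s : ℕ × ℕ × ℕ}
    (hs : s ∈ T) {j r : Fin 3} (hjr : j ≠ r) (F : Finset (Fin (K + 1))) {f : ℕ} {D4 DJ e : ℝ}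
    (hD4 : 0 ≤ D4) (hDJ : 0 ≤ DJ)
    (h4 : ∀ X : ℕ, 1 ≤ X → ∀ R : ℝ, 0 ≤ R →
      (((Icc 1 X).filter fun d => (rad d : ℝ) ≤ R).card : ℝ) ≤ D4 * (X : ℝ) ^ e * R)
    (hJ : JBody K DJ e) (hf : ∃ t ∈ T, part K (num t r) F = f)
    (Q : Finset (ℕ × ℕ))
    (hQ : ∀ x ∈ Q, (x.1 : ℤ) % f = (x.2 : ℤ) % f ∧
      (∃ t ∈ T, part K (num t r) F = f ∧ num t j = x.1) ∧
      (∃ t ∈ T, part K (num t r) F = f ∧ num t j = x.2)) :
    (Q.card : ℝ) ≤ (D4 ^ 2 * DJ * ((2 : ℝ) ^ (K + 1)) ^ (3 * K + 3) *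
      ((((2 : ℝ) ^ (K + 1)) ^ e) ^ 2 * (((2 : ℝ) ^ (K + 1)) ^ (K + 1)) ^ e)) *
      (s.2.2 : ℝ) ^ (3 * e) * side K s r j F := by
  classical
  obtain ⟨t0, ht0, hft0⟩ := hf
  have hk : (1 : ℝ) ≤ (2 : ℝ) ^ (K + 1) := one_le_pow₀ (by norm_num)
  have hkN : 1 ≤ 2 ^ (K + 1) := Nat.one_le_two_pow
  have hf1 : 1 ≤ f := hft0 ▸ hF.part_pos K _ F
  have hc1 : 1 ≤ s.2.2 := (hT.abc s hs).2.2.1
  have hX1 : 1 ≤ 2 ^ (K + 1) * s.2.2 := Nat.mul_pos hkN hc1
  have hfX : f ≤ 2 ^ (K + 1) * s.2.2 := by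
    have h1 := hF.part_dvd K (num t0 r) F (num_pos (hT.abc t0 ht0) r)
    rw [hft0] at h1
    exact (Nat.le_of_dvd (num_pos (hT.abc t0 ht0) r) h1).trans (num_le_X hF hT ht0 hs r)
  set kap : ℕ := 2 ^ (K + 1) with hkap
  set X2 : ℕ := kap ^ (K + 1) * s.2.2 with hX2
  have hX12 : kap * s.2.2 ≤ X2 := by
    rw [hX2]
    apply Nat.mul_le_mul_right
    calc kap = kap ^ 1 := (pow_one _).symm
      _ ≤ kap ^ (K + 1) := Nat.pow_le_pow_right hkN (by omega)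
  set N : Fin K → ℕ := fun i => kap * rd K (num s j) {i.castSucc} with hN
  have hN1 : ∀ i, 1 ≤ N i := fun i => Nat.mul_pos hkN (hF.rd_pos _ _ _)
  set R' : ℕ := ∏ i : Fin K, rd K (num s j) {i.castSucc} with hR'
  have hsj1 : 1 ≤ num s j := num_pos (hT.abc s hs) j
  have hprodN : ∏ i, N i = kap ^ K * R' := by
    rw [hN, prod_mul_distrib, prod_const, card_univ, Fintype.card_fin]
  have hRU : R' * rd K (num s j) {Fin.last K} = rd K (num s j) univ := rd_split hF K _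
  have hR1 : 1 ≤ R' := Nat.pos_of_ne_zero (by
    intro h
    rw [h, zero_mul] at hRU
    have := hF.rd_pos K (num s j) univ
    omega)
  have hl1 : 1 ≤ rd K (num s j) {Fin.last K} := hF.rd_pos _ _ _
  have hU1 : 1 ≤ rd K (num s j) univ := hF.rd_pos _ _ _
  have hRU' : R' ≤ rd K (num s j) univ := by rw [← hRU]; exact Nat.le_mul_of_pos_right _ hl1
  have hprodX : ∏ i, N i ≤ X2 := by
    rw [hprodN, hX2]
    apply Nat.mul_le_mul (Nat.pow_le_pow_right hkN (by omega))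
    calc R' ≤ rd K (num s j) univ := hRU'
      _ ≤ num s j := Nat.le_of_dvd hsj1 (rd_dvd_self hF K _ hsj1 univ)
      _ ≤ s.2.2 := num_le (hT.abc s hs) j
  set l : ℝ := (rd K (num s j) {Fin.last K} : ℝ) with hl
  set U : ℝ := (rd K (num s j) univ : ℝ) with hU
  set pr : ℝ := (part K (num s r) F : ℝ) with hpr
  have hpr1 : 1 ≤ pr := by rw [hpr]; exact_mod_cast hF.part_pos K _ F
  have hprf : pr ≤ 2 ^ (K + 1) * f := by
    rw [hpr, ← hft0]
    exact_mod_cast hT.part_le s hs t0 ht0 r F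
  have hfR : (1 : ℝ) ≤ f := by exact_mod_cast hf1
  -- the set of possible last parts
  set Y : Finset ℕ := (Icc 1 (kap * s.2.2)).filter fun d => (rad d : ℝ) ≤ 2 ^ (K + 1) * l with hY
  have hYcard : (Y.card : ℝ) ≤ D4 * ((kap * s.2.2 : ℕ) : ℝ) ^ e * (2 ^ (K + 1) * l) :=
    h4 _ hX1 _ (by positivity)
  -- facts on members
  have hmem : ∀ n : ℕ, (∃ t ∈ T, part K (num t r) F = f ∧ num t j = n) →
      1 ≤ n ∧ Nat.Coprime n f ∧ part K n {Fin.last K} ∈ Y ∧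
      (∀ i : Fin K, 1 ≤ rd K n {i.castSucc} ∧ rd K n {i.castSucc} ≤ N i ∧
        Nat.Coprime (rd K n {i.castSucc}) f) ∧ Nat.Coprime (part K n {Fin.last K}) f := by
    rintro n ⟨t, ht, htf, rfl⟩
    have hn := num_pos (hT.abc t ht) j
    have hco : Nat.Coprime (num t j) f := by
      have g1 := hF.part_dvd K (num t r) F (num_pos (hT.abc t ht) r)
      rw [htf] at g1
      exact Nat.Coprime.coprime_dvd_right g1 (num_coprime (hT.abc t ht) hjr)
    refine ⟨hn, hco, ?_, ?_, ?_⟩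
    · rw [hY, mem_filter, mem_Icc]
      refine ⟨⟨hF.part_pos K _ _, (Nat.le_of_dvd hn (hF.part_dvd K _ _ hn)).trans
        (num_le_X hF hT ht hs j)⟩, ?_⟩
      rw [hF.rad_part K _ _ hn, hl]
      exact_mod_cast hT.rd_le t ht s hs j {Fin.last K}
    · intro i
      refine ⟨hF.rd_pos _ _ _, hT.rd_le t ht s hs j _, ?_⟩
      exact Nat.Coprime.coprime_dvd_left (rd_dvd_self hF K _ hn _) hco
    · exact Nat.Coprime.coprime_dvd_left (hF.part_dvd K _ _ hn) hco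
  set W : ℝ := DJ * (X2 : ℝ) ^ e *
      ((∏ i, (N i : ℝ)) * (1 + (∏ i, (N i : ℝ)) ^ ((3 : ℝ) / 2) / f)) with hW
  have hW0 : 0 ≤ W := by rw [hW]; positivity
  have hfib : ∀ z ∈ Y ×ˢ Y, ((Q.filter fun x => (part K x.1 {Fin.last K}, part K x.2 {Fin.last K}) = z).card : ℝ)
      ≤ W := by
    intro z _
    set Qz := Q.filter fun x => (part K x.1 {Fin.last K}, part K x.2 {Fin.last K}) = z with hQz
    rcases Qz.eq_empty_or_nonempty with h0 | ⟨x0, hx0⟩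
    · rw [h0]; simpa using hW0
    have hQzm : ∀ x ∈ Qz, x ∈ Q ∧ part K x.1 {Fin.last K} = z.1 ∧ part K x.2 {Fin.last K} = z.2 := by
      intro x hx
      rw [hQz, mem_filter] at hx
      exact ⟨hx.1, congrArg Prod.fst hx.2, congrArg Prod.snd hx.2⟩
    obtain ⟨hx0Q, hx01, hx02⟩ := hQzm x0 hx0
    have hz1 : Nat.Coprime z.1 f := by
      rw [← hx01]; exact (hmem _ (hQ x0 hx0Q).2.1).2.2.2.2
    have hz2 : Nat.Coprime z.2 f := by
      rw [← hx02]; exact (hmem _ (hQ x0 hx0Q).2.2).2.2.2.2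
    set G : ℕ × ℕ → (Fin K → ℕ) × (Fin K → ℕ) :=
      fun x => (fun i => rd K x.1 {i.castSucc}, fun i => rd K x.2 {i.castSucc}) with hG
    have hinj : Set.InjOn G Qz := by
      intro x hx x' hx' hxx
      obtain ⟨hxQ, hx1, hx2⟩ := hQzm x hx
      obtain ⟨hxQ', hx1', hx2'⟩ := hQzm x' hx'
      have e1 := congrArg Prod.fst hxx
      have e2 := congrArg Prod.snd hxx
      simp only [hG] at e1 e2
      apply Prod.ext
      · rw [fact hF K x.1 (hmem _ (hQ x hxQ).2.1).1, fact hF K x'.1 (hmem _ (hQ x' hxQ').2.1).1,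
          hx1, hx1']
        congr 1
        apply prod_congr rfl
        intro i _
        rw [congrFun e1 i]
      · rw [fact hF K x.2 (hmem _ (hQ x hxQ).2.2).1, fact hF K x'.2 (hmem _ (hQ x' hxQ').2.2).1,
          hx2, hx2']
        congr 1
        apply prod_congr rfl
        intro i _
        rw [congrFun e2 i]
    rw [← card_image_of_injOn hinj]
    set u := ZMod.unitOfCoprime z.1 hz1 with hu
    set u' := ZMod.unitOfCoprime z.2 hz2 with hu'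
    apply hJ X2 f (hX1.trans hX12) hf1 (hfX.trans hX12) N hN1 hprodX
      ((u' : ZMod f) * ((u⁻¹ : (ZMod f)ˣ) : ZMod f)) (u'.isUnit.mul (u⁻¹).isUnit)
    intro y hy
    obtain ⟨x, hx, rfl⟩ := mem_image.1 hy
    obtain ⟨hxQ, hx1, hx2⟩ := hQzm x hx
    obtain ⟨hcong, hm1, hm2⟩ := hQ x hxQ
    obtain ⟨hp1, -, -, hr1, -⟩ := hmem _ hm1
    obtain ⟨hp2, -, -, hr2, -⟩ := hmem _ hm2
    refine ⟨hr1, hr2, ?_⟩
    have h5 : ((x.1 : ℤ) : ZMod f) = ((x.2 : ℤ) : ZMod f) :=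
      (ZMod.intCast_eq_intCast_iff' _ _ f).2 hcong
    have h6 : (x.1 : ZMod f) = (x.2 : ZMod f) := by exact_mod_cast h5
    rw [fact hF K x.1 hp1, fact hF K x.2 hp2, hx1, hx2] at h6
    push_cast at h6
    have hu1 : (u : ZMod f) = (z.1 : ZMod f) := ZMod.coe_unitOfCoprime _ _
    have hu2 : (u' : ZMod f) = (z.2 : ZMod f) := ZMod.coe_unitOfCoprime _ _
    rw [← hu1, ← hu2] at h6
    show ∏ i : Fin K, ((rd K x.1 {i.castSucc} : ℕ) : ZMod f) ^ ((i : ℕ) + 1) =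
      (u' : ZMod f) * ((u⁻¹ : (ZMod f)ˣ) : ZMod f) * ∏ i : Fin K, ((rd K x.2 {i.castSucc} : ℕ) : ZMod f) ^ ((i : ℕ) + 1)
    have h7 : (u : ZMod f) * ((u⁻¹ : (ZMod f)ˣ) : ZMod f) = 1 := Units.mul_inv u
    calc ∏ i : Fin K, ((rd K x.1 {i.castSucc} : ℕ) : ZMod f) ^ ((i : ℕ) + 1)
        = (∏ i : Fin K, ((rd K x.1 {i.castSucc} : ℕ) : ZMod f) ^ ((i : ℕ) + 1)) * (u : ZMod f) *
            ((u⁻¹ : (ZMod f)ˣ) : ZMod f) := by rw [mul_assoc, h7, mul_one]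
      _ = _ := by rw [h6]; ring
  have hsum : Q.card = ∑ z ∈ Y ×ˢ Y,
      (Q.filter fun x => (part K x.1 {Fin.last K}, part K x.2 {Fin.last K}) = z).card := by
    apply card_eq_sum_card_fiberwise
    intro x hx
    have hx' : x ∈ Q := hx
    have h5 := (hmem _ (hQ x hx').2.1).2.2.1
    have h6 := (hmem _ (hQ x hx').2.2).2.2.1
    show (part K x.1 {Fin.last K}, part K x.2 {Fin.last K}) ∈ ((Y ×ˢ Y : Finset (ℕ × ℕ)) : Set (ℕ × ℕ))
    rw [mem_coe, mem_product]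
    exact ⟨h5, h6⟩
  have hcard : (Q.card : ℝ) ≤ (Y.card : ℝ) ^ 2 * W := by
    rw [hsum]
    push_cast
    calc _ ≤ ∑ _z ∈ Y ×ˢ Y, W := sum_le_sum hfib
      _ = (Y.card : ℝ) ^ 2 * W := by
        rw [sum_const, card_product, nsmul_eq_mul]; push_cast; ring
  -- final numeric estimate
  have hkR : ((kap : ℕ) : ℝ) = (2 : ℝ) ^ (K + 1) := by rw [hkap]; push_cast; rfl
  have hprodNR : (∏ i, (N i : ℝ)) = ((2 : ℝ) ^ (K + 1)) ^ K * R' := by
    have h9 : ((∏ i, N i : ℕ) : ℝ) = ((kap ^ K * R' : ℕ) : ℝ) := by rw [hprodN]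
    rw [Nat.cast_prod, Nat.cast_mul, Nat.cast_pow, hkR] at h9
    exact h9
  set k : ℝ := (2 : ℝ) ^ (K + 1) with hkdef
  have hk0 : 0 < k := by positivity
  have hcR : (0 : ℝ) < s.2.2 := by exact_mod_cast hc1
  have hRr1 : (1 : ℝ) ≤ (R' : ℝ) := by exact_mod_cast hR1
  have hRUr : (R' : ℝ) ≤ U := by rw [hU]; exact_mod_cast hRU'
  have hRUl : (R' : ℝ) * l = U := by rw [hl, hU]; exact_mod_cast hRU
  have hl0 : 0 < l := by rw [hl]; exact_mod_cast hl1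
  have hU0 : 0 < U := by rw [hU]; exact_mod_cast hU1
  have hbr : 1 + (k ^ K * (R' : ℝ)) ^ ((3 : ℝ) / 2) / f ≤ k ^ (2 * K + 1) * (1 + U ^ ((3 : ℝ) / 2) / pr) := by
    have e1 : (k ^ K * (R' : ℝ)) ^ ((3 : ℝ) / 2) ≤ k ^ (2 * K) * U ^ ((3 : ℝ) / 2) := by
      rw [Real.mul_rpow (by positivity) (by positivity)]
      apply mul_le_mul
      · have h8 : (1 : ℝ) ≤ k ^ K := one_le_pow₀ hk
        calc (k ^ K) ^ ((3 : ℝ) / 2) ≤ (k ^ K) ^ (2 : ℝ) :=
              Real.rpow_le_rpow_of_exponent_le h8 (by norm_num)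
          _ = k ^ (2 * K) := by
            rw [Real.rpow_two, ← pow_mul, mul_comm]
      · exact Real.rpow_le_rpow (by positivity) hRUr (by norm_num)
      · positivity
      · positivity
    have e2 : 1 / (f : ℝ) ≤ k / pr := by
      rw [div_le_div_iff₀ (by linarith) (by linarith)]
      linarith
    have e3 : (k ^ K * (R' : ℝ)) ^ ((3 : ℝ) / 2) / f ≤ k ^ (2 * K + 1) * (U ^ ((3 : ℝ) / 2) / pr) := by
      calc (k ^ K * (R' : ℝ)) ^ ((3 : ℝ) / 2) / f = (k ^ K * (R' : ℝ)) ^ ((3 : ℝ) / 2) * (1 / f) := by ring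
        _ ≤ (k ^ (2 * K) * U ^ ((3 : ℝ) / 2)) * (k / pr) :=
            mul_le_mul e1 e2 (by positivity) (by positivity)
        _ = _ := by ring
    have e4 : (1 : ℝ) ≤ k ^ (2 * K + 1) := one_le_pow₀ hk
    rw [mul_add, mul_one]
    linarith
  have hXe1 : ((kap * s.2.2 : ℕ) : ℝ) ^ e = k ^ e * (s.2.2 : ℝ) ^ e := by
    rw [Nat.cast_mul, hkR, Real.mul_rpow hk0.le hcR.le]
  have hXe2 : (X2 : ℝ) ^ e = (k ^ (K + 1)) ^ e * (s.2.2 : ℝ) ^ e := by
    rw [hX2, Nat.cast_mul, Nat.cast_pow, hkR, Real.mul_rpow (by positivity) hcR.le]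
  have hce : (s.2.2 : ℝ) ^ (3 * e) = ((s.2.2 : ℝ) ^ e) ^ 3 := by
    rw [← Real.rpow_natCast, ← Real.rpow_mul hcR.le]
    congr 1
    push_cast; ring
  have hY2 : (Y.card : ℝ) ^ 2 ≤ (D4 * (k ^ e * (s.2.2 : ℝ) ^ e) * (k * l)) ^ 2 := by
    apply pow_le_pow_left₀ (Nat.cast_nonneg _)
    rw [← hXe1]; exact hYcard
  have hWle : W ≤ DJ * ((k ^ (K + 1)) ^ e * (s.2.2 : ℝ) ^ e) *
      ((k ^ K * R') * (k ^ (2 * K + 1) * (1 + U ^ ((3 : ℝ) / 2) / pr))) := by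
    rw [hW, hprodNR, hXe2]
    apply mul_le_mul_of_nonneg_left _ (by positivity)
    exact mul_le_mul_of_nonneg_left hbr (by positivity)
  calc (Q.card : ℝ) ≤ (Y.card : ℝ) ^ 2 * W := hcard
    _ ≤ (D4 * (k ^ e * (s.2.2 : ℝ) ^ e) * (k * l)) ^ 2 * (DJ * ((k ^ (K + 1)) ^ e * (s.2.2 : ℝ) ^ e) *
      ((k ^ K * R') * (k ^ (2 * K + 1) * (1 + U ^ ((3 : ℝ) / 2) / pr)))) :=
        mul_le_mul hY2 hWle hW0 (by positivity)
    _ = (D4 ^ 2 * DJ * k ^ (3 * K + 3) * ((k ^ e) ^ 2 * (k ^ (K + 1)) ^ e)) *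
      ((s.2.2 : ℝ) ^ e) ^ 3 * ((R' * l) * l * (1 + U ^ ((3 : ℝ) / 2) / pr)) := by ring
    _ = _ := by
      rw [hRUl, ← hce]
      rfl

end Est

/-- Module EST -/
theorem stmtEst_of (hF : Basics) (hA4 : StmtA4) (hJ : StmtJ) : StmtEst := by
  classical
  intro K ε hε
  obtain ⟨D4, hD4, h4⟩ := hA4 (ε / 4) (by linarith)
  obtain ⟨DJ, hDJ, hJ'⟩ := hJ K (ε / 4) (by linarith)
  set e := ε / 4 with he
  have hJB : Est.JBody K DJ e := hJ'
  set k : ℝ := (2 : ℝ) ^ (K + 1) with hk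
  have hk1 : 1 ≤ k := one_le_pow₀ (by norm_num)
  set M : ℝ := D4 ^ 2 * DJ * k ^ (3 * K + 3) * ((k ^ e) ^ 2 * (k ^ (K + 1)) ^ e) with hM
  have hM0 : 0 < M := by rw [hM]; positivity
  refine ⟨D4 * k ^ e * k * M, by positivity, ?_⟩
  intro T hT s hs p q r hpq hqr hpr F
  have hs0 : (0 : ℝ) < s.2.2 := by exact_mod_cast (hT.abc s hs).2.2.1
  have hX1 : 1 ≤ 2 ^ (K + 1) * s.2.2 :=
    (num_pos (hT.abc s hs) r).trans (num_le_X hF hT hs hs r)
  have hside : ∀ j, 0 ≤ side K s r j F := by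
    intro j; unfold side; positivity
  set V : ℝ := (side K s r p F * side K s r q F) ^ ((1 : ℝ) / 2) with hV
  have hV0 : 0 ≤ V := Real.rpow_nonneg (mul_nonneg (hside _) (hside _)) _
  set I := T.image fun t => part K (num t r) F with hI
  have hIcard : (I.card : ℝ) ≤
      D4 * ((2 ^ (K + 1) * s.2.2 : ℕ) : ℝ) ^ e * (k * (rd K (num s r) F : ℝ)) := by
    have h1 : I ⊆ (Icc 1 (2 ^ (K + 1) * s.2.2)).filter
        fun d => (rad d : ℝ) ≤ k * (rd K (num s r) F : ℝ) := by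
      intro m hm
      obtain ⟨t, ht, rfl⟩ := mem_image.1 hm
      have hn := num_pos (hT.abc t ht) r
      rw [mem_filter, mem_Icc]
      refine ⟨⟨hF.part_pos K _ F, (Nat.le_of_dvd hn (hF.part_dvd K (num t r) F hn)).trans
        (num_le_X hF hT ht hs r)⟩, ?_⟩
      rw [hF.rad_part K _ F hn, hk]
      exact_mod_cast hT.rd_le t ht s hs r F
    exact (by exact_mod_cast card_le_card h1 : (I.card : ℝ) ≤ _).trans
      (h4 _ hX1 _ (by positivity))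
  have hfib : ∀ f ∈ I, ((T.filter fun t => part K (num t r) F = f).card : ℝ) ≤
      M * (s.2.2 : ℝ) ^ (3 * e) * V := by
    intro f hf
    obtain ⟨t0, ht0, htf0⟩ := mem_image.1 hf
    set T' := T.filter fun t => part K (num t r) F = f with hT'
    have hTmem : ∀ t ∈ T', t ∈ T ∧ part K (num t r) F = f := by
      intro t ht
      rw [hT', mem_filter] at ht
      exact ht
    set P := T'.image fun t => num t p with hP
    set Q := T'.image fun t => num t q with hQd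
    set κP : ℕ → ℤ := fun n => (sg r * (n : ℤ)) % (f : ℤ) with hκP
    set κQ : ℕ → ℤ := fun m => (m : ℤ) % (f : ℤ) with hκQ
    have hcard : T'.card ≤ ((P ×ˢ Q).filter fun t => κP t.1 = κQ t.2).card := by
      have h1 : (T'.image fun t => (num t p, num t q)).card = T'.card := by
        apply card_image_of_injOn
        intro t ht t' ht' htt
        simp only [Prod.mk.injEq] at htt
        exact num_inj (hT.abc t (hTmem t ht).1) (hT.abc t' (hTmem t' ht').1) hpq htt.1 htt.2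
      rw [← h1]
      apply card_le_card
      intro x hx
      obtain ⟨t, ht, rfl⟩ := mem_image.1 hx
      obtain ⟨htT, htf⟩ := hTmem t ht
      have h2 := num_dvd (hT.abc t htT) hpq hqr hpr
        (f := f) (htf ▸ hF.part_dvd K (num t r) F (num_pos (hT.abc t htT) r))
      rw [mem_filter, mem_product]
      exact ⟨⟨mem_image_of_mem _ ht, mem_image_of_mem _ ht⟩, h2⟩
    have hEP : ((((P ×ˢ P).filter fun t => κP t.1 = κP t.2).card : ℕ) : ℝ) ≤
        M * (s.2.2 : ℝ) ^ (3 * e) * side K s r p F := by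
      apply Est.energy hF hT hs hpr F hD4.le hDJ.le h4 hJB ⟨t0, ht0, htf0⟩
      intro x hx
      rw [mem_filter, mem_product] at hx
      obtain ⟨⟨hx1, hx2⟩, hx4⟩ := hx
      obtain ⟨t, ht, htx⟩ := mem_image.1 hx1
      obtain ⟨t', ht', htx'⟩ := mem_image.1 hx2
      obtain ⟨htT, htf⟩ := hTmem t ht
      obtain ⟨htT', htf'⟩ := hTmem t' ht'
      refine ⟨?_, ⟨t, htT, htf, htx⟩, ⟨t', htT', htf', htx'⟩⟩
      have h1 : sg r * (x.1 : ℤ) ≡ sg r * (x.2 : ℤ) [ZMOD (f : ℤ)] := hx4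
      have h2 : sg r * sg r = 1 := by unfold sg; split_ifs <;> norm_num
      have h3 := h1.mul_left (sg r)
      rw [← mul_assoc, ← mul_assoc, h2, one_mul, one_mul] at h3
      exact h3
    have hEQ : ((((Q ×ˢ Q).filter fun t => κQ t.1 = κQ t.2).card : ℕ) : ℝ) ≤
        M * (s.2.2 : ℝ) ^ (3 * e) * side K s r q F := by
      apply Est.energy hF hT hs hqr F hD4.le hDJ.le h4 hJB ⟨t0, ht0, htf0⟩
      intro x hx
      rw [mem_filter, mem_product] at hx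
      obtain ⟨⟨hx1, hx2⟩, hx4⟩ := hx
      obtain ⟨t, ht, htx⟩ := mem_image.1 hx1
      obtain ⟨t', ht', htx'⟩ := mem_image.1 hx2
      obtain ⟨htT, htf⟩ := hTmem t ht
      obtain ⟨htT', htf'⟩ := hTmem t' ht'
      exact ⟨hx4, ⟨t, htT, htf, htx⟩, ⟨t', htT', htf', htx'⟩⟩
    have hcs := Est.cs P Q κP κQ
    set A : ℝ := M * (s.2.2 : ℝ) ^ (3 * e) with hA
    have hA0 : 0 ≤ A := by rw [hA]; positivity
    have hT'sq : (T'.card : ℝ) ^ 2 ≤ (A * V) ^ 2 := by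
      have h1 : (T'.card : ℝ) ^ 2 ≤ (((P ×ˢ Q).filter fun t => κP t.1 = κQ t.2).card : ℝ) ^ 2 := by
        apply pow_le_pow_left₀ (Nat.cast_nonneg _)
        exact_mod_cast hcard
      have h2 : (A * side K s r p F) * (A * side K s r q F) = (A * V) ^ 2 := by
        have h3 : V ^ 2 = side K s r p F * side K s r q F := by
          rw [hV, ← Real.rpow_natCast, ← Real.rpow_mul (mul_nonneg (hside _) (hside _))]
          norm_num
        rw [mul_pow, h3]; ring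
      calc _ ≤ _ := h1
        _ ≤ _ := hcs
        _ ≤ (A * side K s r p F) * (A * side K s r q F) :=
            mul_le_mul hEP hEQ (Nat.cast_nonneg _) (mul_nonneg hA0 (hside _))
        _ = _ := h2
    exact le_of_sq_le_sq hT'sq (mul_nonneg hA0 hV0)
  have hsum : T.card = ∑ f ∈ I, (T.filter fun t => part K (num t r) F = f).card :=
    card_eq_sum_card_image _ T
  have hXe : ((2 ^ (K + 1) * s.2.2 : ℕ) : ℝ) ^ e = k ^ e * (s.2.2 : ℝ) ^ e := by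
    push_cast
    rw [Real.mul_rpow (by positivity) hs0.le]
  have hce : (s.2.2 : ℝ) ^ e * (s.2.2 : ℝ) ^ (3 * e) = (s.2.2 : ℝ) ^ ε := by
    rw [← Real.rpow_add hs0]
    congr 1
    rw [he]; ring
  calc (T.card : ℝ) = ∑ f ∈ I, ((T.filter fun t => part K (num t r) F = f).card : ℝ) := by
        rw [hsum]; push_cast; rfl
    _ ≤ ∑ _f ∈ I, M * (s.2.2 : ℝ) ^ (3 * e) * V := sum_le_sum hfib
    _ = (I.card : ℝ) * (M * (s.2.2 : ℝ) ^ (3 * e) * V) := by rw [sum_const, nsmul_eq_mul]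
    _ ≤ (D4 * ((2 ^ (K + 1) * s.2.2 : ℕ) : ℝ) ^ e * (k * (rd K (num s r) F : ℝ))) *
        (M * (s.2.2 : ℝ) ^ (3 * e) * V) :=
        mul_le_mul_of_nonneg_right hIcard (by positivity)
    _ = D4 * k ^ e * k * M * ((s.2.2 : ℝ) ^ e * (s.2.2 : ℝ) ^ (3 * e)) *
        (rd K (num s r) F : ℝ) * V := by rw [hXe]; ring
    _ = _ := by rw [hce]

end Pool.Agent.H705R2.ABC
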