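import Pool.Agent.H705R2.ABC.Defs
import Pool.Agent.H510R2.Div

/-!
# Module FAC: divisor bound and number of ordered factorisations (helper268)
-/

namespace Pool.Agent.H705R2.ABC

open Finset Pool.Agent.H785R2.ABC

theorem stmtTau : StmtTau := fun ε hε => Pool.Agent.H510R2.divisor_bound ε hε

theorem stmtFac : StmtFac := by
  classical
  intro h ε hε
  have hh : (0 : ℝ) < (h : ℝ) + 1 := by positivity
  obtain ⟨C, hC, hb⟩ := stmtTau (ε / (h + 1)) (by positivity)
  refine ⟨C ^ h, by positivity, ?_⟩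
  intro t ht P hP
  have hsub : P ⊆ Fintype.piFinset (fun _ : Fin h => t.divisors) := by
    intro x hx
    rw [Fintype.mem_piFinset]
    intro j
    rw [Nat.mem_divisors]
    refine ⟨?_, by omega⟩
    rw [← hP x hx]
    exact Finset.dvd_prod_of_mem x (Finset.mem_univ j)
  have h1 : P.card ≤ t.divisors.card ^ h := by
    have := Finset.card_le_card hsub
    rw [Fintype.card_piFinset] at this
    simpa using this
  have ht0 : (0 : ℝ) ≤ t := by positivity
  have ht1 : (1 : ℝ) ≤ t := by exact_mod_cast ht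
  calc (P.card : ℝ) ≤ (t.divisors.card : ℝ) ^ h := by exact_mod_cast h1
    _ ≤ (C * (t : ℝ) ^ (ε / (h + 1))) ^ h :=
        pow_le_pow_left₀ (by positivity) (hb t ht) h
    _ = C ^ h * (t : ℝ) ^ (ε / (h + 1) * h) := by
        rw [mul_pow, ← Real.rpow_natCast ((t : ℝ) ^ (ε / ((h : ℝ) + 1))) h, ← Real.rpow_mul ht0]
    _ ≤ C ^ h * (t : ℝ) ^ ε := by
        apply mul_le_mul_of_nonneg_left _ (by positivity)
        apply Real.rpow_le_rpow_of_exponent_le ht1
        rw [div_mul_eq_mul_div, div_le_iff₀ hh]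
        nlinarith

end Pool.Agent.H705R2.ABC
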