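import Pool.Agent.H705R2.ABC.Defs
import Pool.Agent.H785R2.ABC.Final

/-!
# Final count from the bound for cells (copy of the proof of helper785's `stmtFinal_of`)
-/

namespace Pool.Agent.H705R2.ABC

open Finset Pool.Agent.H785R2.ABC Pool.Agent.H785R2.ABC.Fin1

namespace Fin705

/-- one cell -/
lemma cell_card (hF : Basics) (lam θ : ℝ) (hθ : 0 ≤ θ) (h : StmtCells lam θ) (ε : ℝ)
    (hε : 0 < ε) :
    ∃ (K : ℕ) (D : ℝ), 0 < D ∧ ∀ X : ℕ, 1 ≤ X → ∀ T : Finset (ℕ × ℕ × ℕ),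
      (∀ s ∈ T, IsABCTriple s.1 s.2.1 s.2.2 ∧ s.2.2 ≤ X ∧
        (rad (s.1 * s.2.1 * s.2.2) : ℝ) ≤ (s.2.2 : ℝ) ^ lam ∧ s.1 ≤ s.2.1) →
      (∀ s ∈ T, ∀ s' ∈ T, sg K s = sg K s') → (T.card : ℝ) ≤ D * (X : ℝ) ^ (θ + ε) := by
  obtain ⟨K, D, hD, hc⟩ := h ε hε
  refine ⟨K, D, hD, ?_⟩
  intro X hX T hT hsg
  rcases T.eq_empty_or_nonempty with h0 | ⟨s, hs⟩
  · subst h0
    simp only [card_empty, Nat.cast_zero]
    positivity
  · have hcell := cell_of hF K T (fun s hs => (hT s hs).1) (fun s hs => (hT s hs).2.2.2) hsg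
    refine (hc T hcell (fun s hs => (hT s hs).2.2.1) s hs).trans ?_
    refine mul_le_mul_of_nonneg_left ?_ hD.le
    exact Real.rpow_le_rpow (Nat.cast_nonneg _) (by exact_mod_cast (hT s hs).2.1) (by linarith)

end Fin705

theorem count_of (hF : Basics) (lam θ : ℝ) (hθ : 0 ≤ θ) (h : StmtCells lam θ) :
    StmtCount lam θ := by
  classical
  intro ε hε
  obtain ⟨K, D, hD, hcell⟩ := Fin705.cell_card hF lam θ hθ h (ε / 2) (by positivity)
  set m : ℕ := 2 * ((K + 1) * 3) with hm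
  have hmpos : (0 : ℝ) < m := by
    rw [hm]; positivity
  set η : ℝ := ε / 2 / m with hη
  have hηpos : 0 < η := by rw [hη]; positivity
  refine ⟨2 * ((1 + 2 / η) ^ m * D), ?_⟩
  intro X hX
  have hX' : (1 : ℝ) ≤ X := by exact_mod_cast hX
  have hXp : (0 : ℝ) < X := by linarith
  set L := Nat.log 2 X with hL
  -- the finset
  set box : Finset (ℕ × ℕ × ℕ) := range (X + 1) ×ˢ (range (X + 1) ×ˢ range (X + 1)) with hbox
  set A : Finset (ℕ × ℕ × ℕ) := box.filter (fun t => IsABCTriple t.1 t.2.1 t.2.2 ∧ t.2.2 ≤ X ∧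
      (rad (t.1 * t.2.1 * t.2.2) : ℝ) ≤ (t.2.2 : ℝ) ^ lam) with hA
  have hset : {t : ℕ × ℕ × ℕ | IsABCTriple t.1 t.2.1 t.2.2 ∧ t.2.2 ≤ X ∧
      (rad (t.1 * t.2.1 * t.2.2) : ℝ) ≤ (t.2.2 : ℝ) ^ lam} = (A : Set (ℕ × ℕ × ℕ)) := by
    ext t
    simp only [Set.mem_ofPred_eq, hA, coe_filter, hbox, mem_product, mem_range]
    constructor
    · rintro ⟨h1, h2, h3⟩
      refine ⟨?_, h1, h2, h3⟩
      have h1' := h1
      obtain ⟨ha, hb, hc, hab, _⟩ := h1'
      omega
    · rintro ⟨_, h⟩; exact h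
  rw [hset, Set.ncard_coe_finset]
  set A1 := A.filter (fun t => t.1 ≤ t.2.1) with hA1
  have hAm : ∀ t ∈ A, IsABCTriple t.1 t.2.1 t.2.2 ∧ t.2.2 ≤ X ∧
      (rad (t.1 * t.2.1 * t.2.2) : ℝ) ≤ (t.2.2 : ℝ) ^ lam := fun t ht => (mem_filter.1 ht).2
  -- symmetry
  have hsymm : A.card ≤ 2 * A1.card := by
    have h1 : (A.filter (fun t => ¬ t.1 ≤ t.2.1)).card ≤ A1.card := by
      apply card_le_card_of_injOn (fun t => (t.2.1, t.1, t.2.2))
      · intro t ht
        rw [mem_coe, mem_filter] at ht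
        obtain ⟨htA, hlt⟩ := ht
        rw [mem_coe, hA1, mem_filter]
        refine ⟨?_, by simp only; omega⟩
        rw [hA, mem_filter] at htA ⊢
        obtain ⟨hb, ⟨h1, h2, h3, h4, h5, h6, h7⟩, h8, h9⟩ := htA
        rw [hbox, mem_product, mem_product] at hb
        refine ⟨?_, ⟨h2, h1, h3, by simp only; omega, h5.symm, h7, h6⟩, h8, ?_⟩
        · rw [hbox, mem_product, mem_product]
          exact ⟨hb.2.1, hb.1, hb.2.2⟩
        · simp only
          rw [mul_comm t.2.1 t.1]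
          exact h9
      · intro t _ t' _ h
        simp only [Prod.mk.injEq] at h
        exact Prod.ext h.2.1 (Prod.ext h.1 h.2.2)
    have h2 := card_filter_add_card_filter_not (s := A) (fun t => t.1 ≤ t.2.1)
    rw [← hA1] at h2
    omega
  -- signatures
  have hsgle : ∀ t ∈ A1, ∀ j i, (sg K t j i).1 ≤ L ∧ (sg K t j i).2 ≤ L := by
    intro t ht j i
    obtain ⟨h1, h2, _⟩ := hAm t (mem_filter.1 ht).1
    have hn := num_pos h1 j
    have hnX : num t j ≤ X := (num_le h1 j).trans h2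
    constructor
    · change Nat.log 2 (rd K (num t j) {i}) ≤ Nat.log 2 X
      apply Nat.log_mono_right
      have e1 : rd K (num t j) {i} ∣ rad (num t j) := by
        rw [← hF.rd_univ K (num t j)]
        exact hF.rd_dvd K _ _ _ (subset_univ _)
      have e2 : rad (num t j) ∣ num t j := Nat.prod_primeFactors_dvd _
      exact (Nat.le_of_dvd hn (e1.trans e2)).trans hnX
    · change Nat.log 2 (part K (num t j) {i}) ≤ Nat.log 2 X
      apply Nat.log_mono_right
      exact (Nat.le_of_dvd hn (hF.part_dvd K _ _ hn)).trans hnX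
  set sgF : (ℕ × ℕ × ℕ) → (Fin 3 → Fin (K + 1) → Fin (L + 1) × Fin (L + 1)) := fun t j i =>
    (Fin.ofNat (L + 1) (sg K t j i).1, Fin.ofNat (L + 1) (sg K t j i).2) with hsgF
  have hinj : ∀ t ∈ A1, ∀ t' ∈ A1, sgF t = sgF t' → sg K t = sg K t' := by
    intro t ht t' ht' h
    funext j i
    have h1 := congrFun (congrFun h j) i
    simp only [hsgF, Prod.mk.injEq] at h1
    have a1 := hsgle t ht j i
    have a2 := hsgle t' ht' j i
    have b1 := congrArg Fin.val h1.1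
    have b2 := congrArg Fin.val h1.2
    simp only [Fin.ofNat] at b1 b2
    rw [Nat.mod_eq_of_lt (by omega), Nat.mod_eq_of_lt (by omega)] at b1 b2
    exact Prod.ext b1 b2
  have hA1card : (A1.card : ℝ) ≤ ((L + 1 : ℕ) : ℝ) ^ m * (D * (X : ℝ) ^ (θ + ε / 2)) := by
    have h1 := card_eq_sum_card_fiberwise (f := sgF) (s := A1) (t := univ) (fun _ _ => mem_coe.2 (mem_univ _))
    rw [h1]
    push_cast
    calc ∑ σ : (Fin 3 → Fin (K + 1) → Fin (L + 1) × Fin (L + 1)),
          ((A1.filter (fun t => sgF t = σ)).card : ℝ)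
        ≤ ∑ σ : (Fin 3 → Fin (K + 1) → Fin (L + 1) × Fin (L + 1)), D * (X : ℝ) ^ (θ + ε / 2) := by
          apply sum_le_sum
          intro σ _
          apply hcell X hX
          · intro s hs
            rw [mem_filter] at hs
            have h2 := hAm s (mem_filter.1 hs.1).1
            exact ⟨h2.1, h2.2.1, h2.2.2, (mem_filter.1 hs.1).2⟩
          · intro s hs s' hs'
            rw [mem_filter] at hs hs'
            exact hinj s hs.1 s' hs'.1 (hs.2.trans hs'.2.symm)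
      _ = _ := by
          rw [sum_const, nsmul_eq_mul, card_univ]
          congr 1
          simp only [Fintype.card_fun, Fintype.card_prod, Fintype.card_fin]
          have e3 : ((L + 1) * (L + 1)) = (L + 1) ^ 2 := by ring
          rw [e3, ← pow_mul, ← pow_mul, Nat.cast_pow]
          rw [← hm]
          push_cast
          rfl
  have hLb := log_le X hX η hηpos
  have hLm : ((L + 1 : ℕ) : ℝ) ^ m ≤ (1 + 2 / η) ^ m * (X : ℝ) ^ (ε / 2) := by
    calc ((L + 1 : ℕ) : ℝ) ^ m ≤ ((1 + 2 / η) * (X : ℝ) ^ η) ^ m :=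
          pow_le_pow_left₀ (Nat.cast_nonneg _) hLb m
      _ = (1 + 2 / η) ^ m * (X : ℝ) ^ (ε / 2) := by
          rw [mul_pow]
          congr 1
          rw [← Real.rpow_natCast, ← Real.rpow_mul hXp.le]
          congr 1
          rw [hη]; field_simp
  calc (A.card : ℝ) ≤ 2 * A1.card := by exact_mod_cast hsymm
    _ ≤ 2 * (((L + 1 : ℕ) : ℝ) ^ m * (D * (X : ℝ) ^ (θ + ε / 2))) := by linarith
    _ ≤ 2 * (((1 + 2 / η) ^ m * (X : ℝ) ^ (ε / 2)) * (D * (X : ℝ) ^ (θ + ε / 2))) := by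
        apply mul_le_mul_of_nonneg_left _ (by norm_num)
        exact mul_le_mul_of_nonneg_right hLm (by positivity)
    _ = 2 * ((1 + 2 / η) ^ m * D) * (X : ℝ) ^ (θ + ε) := by
        have : (X : ℝ) ^ (θ + ε) = (X : ℝ) ^ (ε / 2) * (X : ℝ) ^ (θ + ε / 2) := by
          rw [← Real.rpow_add hXp]; congr 1; ring
        rw [this]; ring

end Pool.Agent.H705R2.ABC
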