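import Mathlib
import Pool.Agent.H705R2.ABC.Defs

/-!
# Module JJ, part 1: characters and Hoelder
-/

namespace Pool.Agent.H705R2.ABC

open Finset Pool.Agent.H785R2.ABC

namespace JJ

/-- weighted Hoelder inequality with bounds -/
theorem hoelder {G ι : Type*} [Fintype G] (s : Finset ι) (θ B : ι → ℝ) (a : ι → G → ℝ)
    (hθ : ∀ i ∈ s, 0 ≤ θ i) (hsum : ∑ i ∈ s, θ i = 1) (hB : ∀ i ∈ s, 0 < B i)
    (ha : ∀ i ∈ s, ∀ χ, 0 ≤ a i χ) (n : ℝ)
    (hab : ∀ i ∈ s, ∑ χ, a i χ ≤ n * B i) :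
    ∑ χ, ∏ i ∈ s, (a i χ) ^ (θ i) ≤ n * ∏ i ∈ s, (B i) ^ (θ i) := by
  have hBp : 0 < ∏ i ∈ s, (B i) ^ (θ i) := Finset.prod_pos fun i hi => Real.rpow_pos_of_pos (hB i hi) _
  have h1 : ∀ χ, ∏ i ∈ s, (a i χ) ^ (θ i) ≤
      (∏ i ∈ s, (B i) ^ (θ i)) * ∑ i ∈ s, θ i * (a i χ / B i) := by
    intro χ
    have h2 : ∏ i ∈ s, (a i χ) ^ (θ i) = (∏ i ∈ s, (B i) ^ (θ i)) * ∏ i ∈ s, (a i χ / B i) ^ (θ i) := by
      rw [← Finset.prod_mul_distrib]
      refine Finset.prod_congr rfl fun i hi => ?_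
      rw [← Real.mul_rpow (hB i hi).le (div_nonneg (ha i hi χ) (hB i hi).le)]
      congr 1
      field_simp [(hB i hi).ne']
    rw [h2]
    exact mul_le_mul_of_nonneg_left (Real.geom_mean_le_arith_mean_weighted s θ
      (fun i => a i χ / B i) hθ hsum fun i hi => div_nonneg (ha i hi χ) (hB i hi).le) hBp.le
  calc ∑ χ, ∏ i ∈ s, (a i χ) ^ (θ i)
      ≤ ∑ χ, (∏ i ∈ s, (B i) ^ (θ i)) * ∑ i ∈ s, θ i * (a i χ / B i) :=
        Finset.sum_le_sum fun χ _ => h1 χ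
    _ = (∏ i ∈ s, (B i) ^ (θ i)) * ∑ i ∈ s, θ i * ((∑ χ, a i χ) / B i) := by
        rw [← Finset.mul_sum, Finset.sum_comm]
        congr 1
        refine Finset.sum_congr rfl fun i _ => ?_
        rw [Finset.sum_div, Finset.mul_sum]
    _ ≤ (∏ i ∈ s, (B i) ^ (θ i)) * ∑ i ∈ s, θ i * n := by
        refine mul_le_mul_of_nonneg_left (Finset.sum_le_sum fun i hi => ?_) hBp.le
        refine mul_le_mul_of_nonneg_left ?_ (hθ i hi)
        rw [div_le_iff₀ (hB i hi)]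
        exact hab i hi
    _ = n * ∏ i ∈ s, (B i) ^ (θ i) := by
        rw [← Finset.sum_mul, hsum]
        ring

variable {f : ℕ} [NeZero f]

/-- character sum over a finite family -/
noncomputable def F {α : Type*} (Ω : Finset α) (g : α → ZMod f) (χ : DirichletCharacter ℂ f) : ℂ :=
  ∑ ω ∈ Ω, χ (g ω)

theorem char_inv (χ : DirichletCharacter ℂ f) {a : ZMod f} (ha : IsUnit a) :
    χ a⁻¹ = (starRingEnd ℂ) (χ a) := by
  obtain ⟨u, rfl⟩ := ha
  have h1 : χ (u : ZMod f)⁻¹ * χ (u : ZMod f) = 1 := by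
    rw [← map_mul, ZMod.inv_coe_unit, Units.inv_mul, map_one]
  have h2 : ‖χ (u : ZMod f)‖ = 1 := DirichletCharacter.unit_norm_eq_one χ u
  have h3 : (starRingEnd ℂ) (χ (u : ZMod f)) * χ (u : ZMod f) = 1 := by
    rw [mul_comm, Complex.mul_conj, Complex.normSq_eq_norm_sq, h2]
    simp
  have h4 : χ (u : ZMod f) ≠ 0 := fun h => by rw [h, norm_zero] at h2; norm_num at h2
  exact mul_right_cancel₀ h4 (h1.trans h3.symm)

theorem orth {α : Type*} [DecidableEq α] (Ω : Finset α) (g : α → ZMod f) (hg : ∀ ω ∈ Ω, IsUnit (g ω))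
    (c : ZMod f) (hc : IsUnit c) :
    ∑ χ : DirichletCharacter ℂ f, χ c⁻¹ * (((‖F Ω g χ‖ ^ 2 : ℝ)) : ℂ) =
      ((f.totient : ℝ) : ℂ) * ((((Ω ×ˢ Ω).filter fun p => g p.1 = c * g p.2).card : ℝ) : ℂ) := by
  have h1 : ∀ χ : DirichletCharacter ℂ f, χ c⁻¹ * (((‖F Ω g χ‖ ^ 2 : ℝ)) : ℂ) =
      ∑ p ∈ Ω ×ˢ Ω, χ (c * g p.2)⁻¹ * χ (g p.1) := by
    intro χ
    have e1 : (((‖F Ω g χ‖ ^ 2 : ℝ)) : ℂ) = F Ω g χ * (starRingEnd ℂ) (F Ω g χ) := by
      rw [Complex.mul_conj, Complex.normSq_eq_norm_sq]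
    rw [e1]
    unfold F
    rw [map_sum, Finset.sum_product, Finset.sum_mul_sum, Finset.mul_sum]
    refine Finset.sum_congr rfl fun ω hω => ?_
    rw [Finset.mul_sum]
    refine Finset.sum_congr rfl fun ω' hω' => ?_
    rw [char_inv χ hc, char_inv χ (hc.mul (hg ω' hω')), map_mul, map_mul]
    ring
  have h2 : ∀ p ∈ Ω ×ˢ Ω, ∑ χ : DirichletCharacter ℂ f, χ (c * g p.2)⁻¹ * χ (g p.1) =
      if g p.1 = c * g p.2 then (f.totient : ℂ) else 0 := by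
    intro p hp
    rw [mem_product] at hp
    rw [DirichletCharacter.sum_char_inv_mul_char_eq ℂ (hc.mul (hg _ hp.2))]
    by_cases h : c * g p.2 = g p.1
    · rw [if_pos h, if_pos h.symm]
    · rw [if_neg h, if_neg (fun h' => h h'.symm)]
  rw [Finset.sum_congr rfl fun χ _ => h1 χ, Finset.sum_comm, Finset.sum_congr rfl h2,
    ← Finset.sum_filter, Finset.sum_const, nsmul_eq_mul]
  push_cast
  ring

theorem orth_eq {α : Type*} [DecidableEq α] (Ω : Finset α) (g : α → ZMod f)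
    (hg : ∀ ω ∈ Ω, IsUnit (g ω)) :
    ∑ χ : DirichletCharacter ℂ f, ‖F Ω g χ‖ ^ 2 =
      (f.totient : ℝ) * ((((Ω ×ˢ Ω).filter fun p => g p.1 = g p.2).card : ℝ)) := by
  have h := orth Ω g hg 1 isUnit_one
  have e : (1 : ZMod f)⁻¹ = 1 := by
    have := ZMod.inv_coe_unit (1 : (ZMod f)ˣ)
    simpa using this
  simp only [e, map_one, one_mul] at h
  exact_mod_cast h

theorem orth_le {α : Type*} [DecidableEq α] (Ω : Finset α) (g : α → ZMod f)
    (hg : ∀ ω ∈ Ω, IsUnit (g ω)) (c : ZMod f) (hc : IsUnit c) :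
    (f.totient : ℝ) * ((((Ω ×ˢ Ω).filter fun p => g p.1 = c * g p.2).card : ℝ)) ≤
      ∑ χ : DirichletCharacter ℂ f, ‖F Ω g χ‖ ^ 2 := by
  have h := orth Ω g hg c hc
  have h1 : (f.totient : ℝ) * ((((Ω ×ˢ Ω).filter fun p => g p.1 = c * g p.2).card : ℝ)) =
      ‖∑ χ : DirichletCharacter ℂ f, χ c⁻¹ * (((‖F Ω g χ‖ ^ 2 : ℝ)) : ℂ)‖ := by
    rw [h, ← Complex.ofReal_mul, Complex.norm_real, Real.norm_eq_abs, abs_of_nonneg (by positivity)]
  rw [h1]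
  refine (norm_sum_le _ _).trans (Finset.sum_le_sum fun χ _ => ?_)
  rw [norm_mul, Complex.norm_real, Real.norm_eq_abs, abs_of_nonneg (by positivity)]
  have : ‖χ c⁻¹‖ ≤ 1 := DirichletCharacter.norm_le_one χ _
  nlinarith [sq_nonneg ‖F Ω g χ‖]

/-- integers up to `N` coprime to `f` -/
def A (f N : ℕ) : Finset ℕ := (Icc 1 N).filter fun x => Nat.Coprime x f

theorem mem_A {f N x : ℕ} : x ∈ A f N ↔ 1 ≤ x ∧ x ≤ N ∧ Nat.Coprime x f := by
  unfold A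
  rw [mem_filter, mem_Icc, and_assoc]

theorem unit_of {x : ℕ} (h : Nat.Coprime x f) : IsUnit (x : ZMod f) :=
  (ZMod.isUnit_iff_coprime x f).2 h

/-- the sum `S_i` -/
noncomputable def S (N k : ℕ) (χ : DirichletCharacter ℂ f) : ℂ := ∑ x ∈ A f N, χ (x : ZMod f) ^ k

theorem S_norm_le (N k : ℕ) (χ : DirichletCharacter ℂ f) : ‖S N k χ‖ ≤ N := by
  unfold S
  refine (norm_sum_le _ _).trans ?_
  have h1 : ∑ x ∈ A f N, ‖χ (x : ZMod f) ^ k‖ ≤ ∑ x ∈ A f N, (1 : ℝ) := by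
    refine Finset.sum_le_sum fun x _ => ?_
    rw [norm_pow]
    exact pow_le_one₀ (norm_nonneg _) (DirichletCharacter.norm_le_one χ _)
  refine h1.trans ?_
  rw [Finset.sum_const, nsmul_eq_mul, mul_one]
  have : (A f N).card ≤ N := by
    unfold A
    exact (Finset.card_filter_le _ _).trans (by simp)
  exact_mod_cast this

theorem prod_eq {K : ℕ} (N : Fin K → ℕ) (χ : DirichletCharacter ℂ f) :
    F (Fintype.piFinset fun i => A f (N i)) (fun x => ∏ i, ((x i : ℕ) : ZMod f) ^ ((i : ℕ) + 1)) χ =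
      ∏ i, S (N i) ((i : ℕ) + 1) χ := by
  unfold F S
  rw [Finset.prod_univ_sum]
  refine Finset.sum_congr rfl fun x _ => ?_
  rw [map_prod]
  refine Finset.prod_congr rfl fun i _ => ?_
  rw [map_pow]

theorem pwr_eq (N B k l h : ℕ) (χ : DirichletCharacter ℂ f) :
    F ((A f N) ×ˢ (Fintype.piFinset fun _ : Fin h => A f B))
      (fun x => ((x.1 : ℕ) : ZMod f) ^ k * (∏ j, ((x.2 j : ℕ) : ZMod f)) ^ l) χ =
      S N k χ * S B l χ ^ h := by
  unfold F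
  rw [Finset.sum_product]
  have h1 : S B l χ ^ h = ∑ u ∈ Fintype.piFinset (fun _ : Fin h => A f B), ∏ j, χ ((u j : ℕ) : ZMod f) ^ l := by
    rw [← Finset.prod_univ_sum (t := fun _ : Fin h => A f B)
      (f := fun _ u => χ ((u : ℕ) : ZMod f) ^ l)]
    rw [Finset.prod_const, Finset.card_univ, Fintype.card_fin]
    rfl
  rw [h1]
  unfold S
  rw [Finset.sum_mul_sum]
  refine Finset.sum_congr rfl fun x _ => Finset.sum_congr rfl fun u _ => ?_
  rw [map_mul, map_pow, map_pow, map_prod, Finset.prod_pow]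

end JJ

end Pool.Agent.H705R2.ABC
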