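import Mathlib
import Pool.Agent.H705R2.ABC.Defs
import Pool.Agent.H705R2.ABC.JJ1

/-!
# Module JJ, part 2: the multiplicative energy of a product set
-/

namespace Pool.Agent.H705R2.ABC

open Finset Pool.Agent.H785R2.ABC

namespace JJ

theorem moment (hP : StmtPwr) (K H : ℕ) (ε : ℝ) (hε : 0 < ε) :
    ∃ D : ℝ, 1 ≤ D ∧ ∀ k l h : ℕ, 1 ≤ k → k ≤ K → 1 ≤ l → l ≤ K → h ≤ H →
    ∀ X f N B : ℕ, ∀ [NeZero f], 1 ≤ X → 1 ≤ f → f ≤ X → 1 ≤ N → N ≤ X → 1 ≤ B → B ^ h ≤ X →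
    ∑ χ : DirichletCharacter ℂ f, ‖S N k χ‖ ^ 2 * (‖S B l χ‖ ^ 2) ^ h ≤
      (f.totient : ℝ) * (D * (X : ℝ) ^ ε * ((N : ℝ) * (B : ℝ) ^ h * (1 + (N : ℝ) * (B : ℝ) ^ h / f))) := by
  classical
  choose D hD0 hD using fun h : ℕ => hP K h ε hε
  refine ⟨1 + ∑ h ∈ range (H + 1), D h, ?_, ?_⟩
  · have : 0 ≤ ∑ h ∈ range (H + 1), D h := Finset.sum_nonneg fun h _ => (hD0 h).le
    linarith
  intro k l h hk hkK hl hlK hhH X f N B _ hX hf hfX hN hNX hB hBX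
  have hDle : D h ≤ 1 + ∑ h ∈ range (H + 1), D h := by
    have := Finset.single_le_sum (f := D) (s := range (H + 1)) (fun h _ => (hD0 h).le)
      (mem_range.2 (by omega : h < H + 1))
    linarith
  set Ω : Finset (ℕ × (Fin h → ℕ)) := (A f N) ×ˢ (Fintype.piFinset fun _ : Fin h => A f B) with hΩ
  set g : ℕ × (Fin h → ℕ) → ZMod f := fun x => ((x.1 : ℕ) : ZMod f) ^ k *
    (∏ j, ((x.2 j : ℕ) : ZMod f)) ^ l with hg
  have hunit : ∀ ω ∈ Ω, IsUnit (g ω) := by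
    intro ω hω
    rw [hΩ, mem_product, Fintype.mem_piFinset] at hω
    refine IsUnit.mul ((unit_of (mem_A.1 hω.1).2.2).pow _) (IsUnit.pow _ ?_)
    rw [IsUnit.prod_iff]
    intro j _
    exact unit_of (mem_A.1 (hω.2 j)).2.2
  have h1 : ∀ χ : DirichletCharacter ℂ f, ‖S N k χ‖ ^ 2 * (‖S B l χ‖ ^ 2) ^ h = ‖F Ω g χ‖ ^ 2 := by
    intro χ
    rw [hΩ, hg, pwr_eq, norm_mul, norm_pow, mul_pow, ← pow_mul, ← pow_mul, mul_comm 2 h]
  rw [Finset.sum_congr rfl fun χ _ => h1 χ, orth_eq Ω g hunit]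
  refine mul_le_mul_of_nonneg_left ?_ (Nat.cast_nonneg _)
  set P := (Ω ×ˢ Ω).filter fun p => g p.1 = g p.2 with hPd
  set φ : (ℕ × (Fin h → ℕ)) × (ℕ × (Fin h → ℕ)) → (ℕ × ℕ) × ((Fin h → ℕ) × (Fin h → ℕ)) :=
    fun p => ((p.1.1, p.2.1), (p.1.2, p.2.2)) with hφ
  have hinj : Function.Injective φ := by
    rintro ⟨⟨a, b⟩, ⟨c, d⟩⟩ ⟨⟨a', b'⟩, ⟨c', d'⟩⟩ hh
    simp only [hφ, Prod.mk.injEq] at hh ⊢
    tauto
  rw [← Finset.card_image_of_injective P hinj]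
  refine (hD h k l hk hkK hl hlK X f N B hX hf hfX hN hNX hB hBX (P.image φ) ?_).trans ?_
  · intro t ht
    obtain ⟨p, hp, rfl⟩ := mem_image.1 ht
    rw [hPd, mem_filter, mem_product, hΩ, mem_product, mem_product, Fintype.mem_piFinset,
      Fintype.mem_piFinset] at hp
    obtain ⟨⟨⟨a1, a2⟩, ⟨a3, a4⟩⟩, a5⟩ := hp
    simp only [mem_A] at a1 a2 a3 a4
    exact ⟨a1.1, a1.2.1, a3.1, a3.2.1, a1.2.2, a3.2.2, a2, a4, a5⟩
  · have : 0 ≤ (X : ℝ) ^ ε * ((N : ℝ) * (B : ℝ) ^ h * (1 + (N : ℝ) * (B : ℝ) ^ h / f)) := by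
      positivity
    nlinarith

theorem exists_pow (N Z : ℕ) (hN : 2 ≤ N) (hZ : 2 ≤ Z) :
    ∃ h : ℕ, 1 ≤ h ∧ Z ≤ N ^ h ∧ N ^ (h - 1) ≤ Z := by
  classical
  have hex : ∃ h : ℕ, Z ≤ N ^ h := by
    obtain ⟨h, hh⟩ := pow_unbounded_of_one_lt Z (show 1 < N by omega)
    exact ⟨h, hh.le⟩
  refine ⟨Nat.find hex, ?_, Nat.find_spec hex, ?_⟩
  · by_contra hcon
    have h0 : Nat.find hex = 0 := by omega
    have := Nat.find_spec hex
    rw [h0, pow_zero] at this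
    omega
  · by_contra hcon
    push Not at hcon
    have h1 : 1 ≤ Nat.find hex := by
      by_contra hcon'
      have h0 : Nat.find hex = 0 := by omega
      have := Nat.find_spec hex
      rw [h0, pow_zero] at this
      omega
    exact Nat.find_min hex (by omega : Nat.find hex - 1 < Nat.find hex) hcon.le

/-- the main inequality for the big classes -/
theorem big (K H : ℕ) (ε D : ℝ) (hD : 1 ≤ D) (hε : 0 < ε)
    (hmom : ∀ k l h : ℕ, 1 ≤ k → k ≤ K → 1 ≤ l → l ≤ K → h ≤ H →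
      ∀ X f N B : ℕ, ∀ [NeZero f], 1 ≤ X → 1 ≤ f → f ≤ X → 1 ≤ N → N ≤ X → 1 ≤ B → B ^ h ≤ X →
      ∑ χ : DirichletCharacter ℂ f, ‖S N k χ‖ ^ 2 * (‖S B l χ‖ ^ 2) ^ h ≤
        (f.totient : ℝ) * (D * (X : ℝ) ^ ε *
          ((N : ℝ) * (B : ℝ) ^ h * (1 + (N : ℝ) * (B : ℝ) ^ h / f))))
    (X f : ℕ) [NeZero f] (hX : 1 ≤ X) (hf : 1 ≤ f) (hfX : f ≤ X) (N : Fin K → ℕ)
    (hN : ∀ i, 1 ≤ N i) (hNX : ∏ i, N i ≤ X) (I : Finset (Fin K)) (hI : I.Nonempty)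
    (h2 : ∀ i ∈ I, 2 ≤ N i) (hH : ∀ i ∈ I, ∀ h : ℕ, N i ^ h ≤ X → h + 1 ≤ H) :
    ∑ χ : DirichletCharacter ℂ f, ∏ i ∈ I, ‖S (N i) ((i : ℕ) + 1) χ‖ ^ 2 ≤
      (f.totient : ℝ) * (D * (X : ℝ) ^ ε *
        ((∏ i ∈ I, (N i : ℝ)) * (1 + (∏ i, (N i : ℝ)) ^ ((3 : ℝ) / 2) / f))) := by
  classical
  obtain ⟨i1, hi1, hmax⟩ := Finset.exists_max_image I N hI
  set I' := I.erase i1 with hI'
  set Z : ℕ := ∏ i ∈ I', N i with hZ
  have hZ1 : 1 ≤ Z := Finset.one_le_prod' fun i _ => hN i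
  have hNZ : N i1 * Z = ∏ i ∈ I, N i := by rw [hZ, hI', Finset.mul_prod_erase I N hi1]
  have hIX : ∏ i ∈ I, N i ≤ ∏ i, N i :=
    Finset.prod_le_prod_of_subset_of_one_le' (subset_univ _) fun i _ _ => hN i
  have hle : ∀ i ∈ I', N i ≤ Z := fun i hi =>
    Finset.single_le_prod' (f := N) (fun j _ => hN j) hi
  have hex : ∀ i : Fin K, ∃ h : ℕ, i ∈ I' → 1 ≤ h ∧ Z ≤ N i ^ h ∧ N i ^ (h - 1) ≤ Z := by
    intro i
    by_cases hi : i ∈ I'
    · obtain ⟨h, hh⟩ := exists_pow (N i) Z (h2 i (mem_of_mem_erase hi))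
        ((h2 i (mem_of_mem_erase hi)).trans (hle i hi))
      exact ⟨h, fun _ => hh⟩
    · exact ⟨0, fun h => absurd h hi⟩
  choose h0 hh0 using hex
  set h : Fin K → ℕ := fun i => if i = i1 then 0 else h0 i with hh
  set θ : Fin K → ℝ := fun i => if i = i1 then 1 - ∑ j ∈ I', 1 / (h0 j : ℝ) else 1 / (h0 i : ℝ)
    with hθ
  have hI'ne : ∀ i ∈ I', i ≠ i1 := fun i hi => ne_of_mem_erase hi
  have hI'I : ∀ i ∈ I', i ∈ I := fun i hi => mem_of_mem_erase hi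
  -- sum of the weights
  have hsum1 : ∑ j ∈ I', 1 / (h0 j : ℝ) ≤ 1 := by
    rcases I'.eq_empty_or_nonempty with he | ⟨j0, hj0⟩
    · rw [he]; simp
    have hZ2 : 2 ≤ Z := (h2 j0 (hI'I j0 hj0)).trans (hle j0 hj0)
    have hlogZ : 0 < Real.log Z := Real.log_pos (by exact_mod_cast hZ2)
    have h3 : ∀ j ∈ I', 1 / (h0 j : ℝ) ≤ Real.log (N j) / Real.log Z := by
      intro j hj
      obtain ⟨a1, a2, a3⟩ := hh0 j hj
      have a1' : (0 : ℝ) < h0 j := by exact_mod_cast a1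
      rw [div_le_div_iff₀ a1' hlogZ, one_mul]
      have a4 : Real.log Z ≤ Real.log ((N j : ℝ) ^ h0 j) :=
        Real.log_le_log (by exact_mod_cast (by omega : 0 < Z)) (by exact_mod_cast a2)
      rw [Real.log_pow] at a4
      linarith
    calc ∑ j ∈ I', 1 / (h0 j : ℝ) ≤ ∑ j ∈ I', Real.log (N j) / Real.log Z := Finset.sum_le_sum h3
      _ = Real.log (∏ j ∈ I', (N j : ℝ)) / Real.log Z := by
          rw [← Finset.sum_div, Real.log_prod]
          intro j hj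
          have := h2 j (hI'I j hj)
          exact_mod_cast (by omega : N j ≠ 0)
      _ = 1 := by
          have : ((Z : ℕ) : ℝ) = ∏ j ∈ I', (N j : ℝ) := by rw [hZ]; push_cast; rfl
          rw [← this]
          exact div_self hlogZ.ne'
  have hθsum : ∑ i ∈ I, θ i = 1 := by
    rw [← Finset.add_sum_erase I θ hi1]
    have e1 : θ i1 = 1 - ∑ j ∈ I', 1 / (h0 j : ℝ) := by simp [hθ]
    have e2 : ∑ x ∈ I.erase i1, θ x = ∑ j ∈ I', 1 / (h0 j : ℝ) := by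
      refine Finset.sum_congr rfl fun i hi => ?_
      simp only [hθ]
      rw [if_neg (hI'ne i hi)]
    rw [e1, e2]
    ring
  have hθ0 : ∀ i ∈ I, 0 ≤ θ i := by
    intro i _
    simp only [hθ]
    split_ifs
    · linarith
    · positivity
  -- sizes
  have hNi1 : 2 ≤ N i1 := h2 i1 hi1
  have hpow : ∀ i ∈ I, N i ^ h i ≤ Z * N i := by
    intro i hi
    by_cases hi' : i = i1
    · simp only [hh, hi', if_true, pow_zero]
      exact Nat.mul_pos hZ1 (by omega)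
    · obtain ⟨a1, a2, a3⟩ := hh0 i (mem_erase.2 ⟨hi', hi⟩)
      simp only [hh, if_neg hi']
      obtain ⟨m, hm⟩ : ∃ m, h0 i = m + 1 := ⟨h0 i - 1, by omega⟩
      rw [hm] at a3 ⊢
      simp only [Nat.add_sub_cancel] at a3
      rw [pow_succ]
      exact Nat.mul_le_mul_right _ a3
  have hpowX : ∀ i ∈ I, N i ^ h i ≤ X := by
    intro i hi
    calc N i ^ h i ≤ Z * N i := hpow i hi
      _ ≤ Z * N i1 := Nat.mul_le_mul_left _ (hmax i hi)
      _ = ∏ i ∈ I, N i := by rw [mul_comm]; exact hNZ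
      _ ≤ X := hIX.trans hNX
  have hhH : ∀ i ∈ I, h i ≤ H := by
    intro i hi
    have := hH i hi (h i) (hpowX i hi)
    omega
  have hY1 : (1 : ℝ) ≤ ∏ i, (N i : ℝ) := by
    have : 1 ≤ ∏ i, N i := Finset.one_le_prod' fun i _ => hN i
    exact_mod_cast this
  set Y : ℝ := ∏ i, (N i : ℝ) with hY
  have hYc : ((∏ i, N i : ℕ) : ℝ) = Y := by rw [hY]; push_cast; rfl
  have hsize : ∀ i ∈ I, (N i1 : ℝ) * (N i : ℝ) ^ h i ≤ Y ^ ((3 : ℝ) / 2) := by
    intro i hi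
    have e1 : (N i1 : ℝ) * (N i : ℝ) ^ h i ≤ Y * N i := by
      have : N i1 * N i ^ h i ≤ (∏ i, N i) * N i := by
        calc N i1 * N i ^ h i ≤ N i1 * (Z * N i) := Nat.mul_le_mul_left _ (hpow i hi)
          _ = (N i1 * Z) * N i := by ring
          _ ≤ _ := Nat.mul_le_mul_right _ (by rw [hNZ]; exact hIX)
      rw [← hYc]
      exact_mod_cast this
    by_cases hi' : i = i1
    · -- h = 0
      have e3 : (N i1 : ℝ) * (N i : ℝ) ^ h i ≤ Y := by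
        simp only [hh, hi', if_true, pow_zero, mul_one]
        rw [← hYc]
        exact_mod_cast Finset.single_le_prod' (f := N) (fun j _ => hN j) (mem_univ i1)
      refine e3.trans ?_
      calc Y = Y ^ (1 : ℝ) := (Real.rpow_one Y).symm
        _ ≤ Y ^ ((3 : ℝ) / 2) := Real.rpow_le_rpow_of_exponent_le hY1 (by norm_num)
    · have e2 : (N i : ℝ) ≤ Y ^ ((1 : ℝ) / 2) := by
        have : N i * N i ≤ ∏ i, N i := by
          calc N i * N i ≤ N i1 * Z :=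
                Nat.mul_le_mul (hmax i hi) (hle i (mem_erase.2 ⟨hi', hi⟩))
            _ ≤ _ := by rw [hNZ]; exact hIX
        have h4 : (N i : ℝ) ^ 2 ≤ Y := by
          rw [← hYc, sq]
          exact_mod_cast this
        rw [← Real.sqrt_eq_rpow]
        exact Real.le_sqrt_of_sq_le h4
      calc (N i1 : ℝ) * (N i : ℝ) ^ h i ≤ Y * N i := e1
        _ ≤ Y * Y ^ ((1 : ℝ) / 2) := mul_le_mul_of_nonneg_left e2 (by linarith)
        _ = Y ^ ((3 : ℝ) / 2) := by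
            nth_rewrite 1 [← Real.rpow_one Y]
            rw [← Real.rpow_add (by linarith)]
            norm_num
  -- the bounds
  set C0 : ℝ := D * (X : ℝ) ^ ε * (1 + Y ^ ((3 : ℝ) / 2) / f) with hC0
  have hXp : (0 : ℝ) < X := by exact_mod_cast hX
  have hfp : (0 : ℝ) < f := by exact_mod_cast hf
  have hC0p : 0 < C0 := by
    rw [hC0]
    have : 0 < D := by linarith
    have : 0 ≤ Y ^ ((3 : ℝ) / 2) / f := by positivity
    positivity
  have hmain := hoelder I θ (fun i => C0 * ((N i1 : ℝ) * (N i : ℝ) ^ h i))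
    (fun i (χ : DirichletCharacter ℂ f) => ‖S (N i1) ((i1 : ℕ) + 1) χ‖ ^ 2 *
      (‖S (N i) ((i : ℕ) + 1) χ‖ ^ 2) ^ h i) hθ0 hθsum
    (fun i hi => by
      have := h2 i hi
      have e1 : (0 : ℝ) < N i := by exact_mod_cast (by omega : 0 < N i)
      have e2 : (0 : ℝ) < N i1 := by exact_mod_cast (by omega : 0 < N i1)
      positivity) (fun i hi χ => by positivity) (f.totient : ℝ) (fun i hi => by
      refine (hmom ((i1 : ℕ) + 1) ((i : ℕ) + 1) (h i) (by omega) (by have := i1.2; omega)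
        (by omega) (by have := i.2; omega) (hhH i hi) X f (N i1) (N i) hX hf hfX (hN i1)
        ((Finset.single_le_prod' (f := N) (fun j _ => hN j) (mem_univ i1)).trans hNX) (hN i)
        (hpowX i hi)).trans ?_
      refine mul_le_mul_of_nonneg_left ?_ (Nat.cast_nonneg _)
      have e3 : (N i1 : ℝ) * (N i : ℝ) ^ h i / f ≤ Y ^ ((3 : ℝ) / 2) / f :=
        div_le_div_of_nonneg_right (hsize i hi) hfp.le
      have e4 : 0 ≤ D * (X : ℝ) ^ ε * ((N i1 : ℝ) * (N i : ℝ) ^ h i) := by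
        have : 0 < D := by linarith
        positivity
      calc D * (X : ℝ) ^ ε * ((N i1 : ℝ) * (N i : ℝ) ^ h i * (1 + (N i1 : ℝ) * (N i : ℝ) ^ h i / f))
          = D * (X : ℝ) ^ ε * ((N i1 : ℝ) * (N i : ℝ) ^ h i) *
            (1 + (N i1 : ℝ) * (N i : ℝ) ^ h i / f) := by ring
        _ ≤ D * (X : ℝ) ^ ε * ((N i1 : ℝ) * (N i : ℝ) ^ h i) * (1 + Y ^ ((3 : ℝ) / 2) / f) :=
            mul_le_mul_of_nonneg_left (by linarith) e4
        _ = C0 * ((N i1 : ℝ) * (N i : ℝ) ^ h i) := by rw [hC0]; ring)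
  -- identify both sides
  have hexp : ∀ i ∈ I', (h i : ℝ) * θ i = 1 := by
    intro i hi
    simp only [hh, hθ]
    rw [if_neg (hI'ne i hi), if_neg (hI'ne i hi)]
    have : (0 : ℝ) < h0 i := by exact_mod_cast (hh0 i hi).1
    field_simp
  have hgen : ∀ (a : ℝ) (b : Fin K → ℝ), 0 < a → (∀ i, 0 ≤ b i) →
      ∏ i ∈ I, (a * (b i) ^ h i) ^ θ i = a * ∏ i ∈ I', b i := by
    intro a b ha hb
    have e1 : ∀ i ∈ I, (a * (b i) ^ h i) ^ θ i = a ^ θ i * ((b i) ^ h i) ^ θ i := fun i _ =>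
      Real.mul_rpow ha.le (pow_nonneg (hb i) _)
    rw [Finset.prod_congr rfl e1, Finset.prod_mul_distrib]
    congr 1
    · rw [← Real.rpow_sum_of_pos ha, hθsum, Real.rpow_one]
    · rw [← Finset.mul_prod_erase I _ hi1]
      have e2 : (b i1 ^ h i1) ^ θ i1 = 1 := by simp [hh]
      rw [e2, one_mul]
      refine Finset.prod_congr rfl fun i hi => ?_
      rw [← Real.rpow_natCast, ← Real.rpow_mul (hb i), hexp i hi, Real.rpow_one]
  have hgen0 : ∀ (a : ℝ) (b : Fin K → ℝ), 0 ≤ a → (∀ i, 0 ≤ b i) →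
      a * ∏ i ∈ I', b i ≤ ∏ i ∈ I, (a * (b i) ^ h i) ^ θ i := by
    intro a b ha hb
    rcases ha.eq_or_lt with ha0 | ha0
    · rw [← ha0, zero_mul]
      exact Finset.prod_nonneg fun i _ => Real.rpow_nonneg (by rw [zero_mul]) _
    · exact (hgen a b ha0 hb).ge
  have hL : ∀ χ : DirichletCharacter ℂ f, ∏ i ∈ I, ‖S (N i) ((i : ℕ) + 1) χ‖ ^ 2 ≤
      ∏ i ∈ I, (‖S (N i1) ((i1 : ℕ) + 1) χ‖ ^ 2 * (‖S (N i) ((i : ℕ) + 1) χ‖ ^ 2) ^ h i) ^ θ i := by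
    intro χ
    have := hgen0 (‖S (N i1) ((i1 : ℕ) + 1) χ‖ ^ 2)
      (fun i => ‖S (N i) ((i : ℕ) + 1) χ‖ ^ 2) (by positivity) (fun i => by positivity)
    refine le_trans (le_of_eq ?_) this
    rw [← Finset.mul_prod_erase I _ hi1]
  refine (Finset.sum_le_sum fun χ _ => hL χ).trans (hmain.trans ?_)
  refine mul_le_mul_of_nonneg_left ?_ (Nat.cast_nonneg _)
  have e5 : ∏ i ∈ I, (C0 * ((N i1 : ℝ) * (N i : ℝ) ^ h i)) ^ θ i =
      C0 * (N i1 : ℝ) * ∏ i ∈ I', (N i : ℝ) := by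
    have e6 := hgen (C0 * (N i1 : ℝ)) (fun i => (N i : ℝ))
      (mul_pos hC0p (by exact_mod_cast (by omega : 0 < N i1))) (fun i => Nat.cast_nonneg _)
    rw [← e6]
    refine Finset.prod_congr rfl fun i _ => ?_
    rw [← mul_assoc C0]
  rw [e5, mul_assoc, hI', Finset.mul_prod_erase I (fun i => (N i : ℝ)) hi1, hC0]
  apply le_of_eq
  ring

end JJ

open JJ in
theorem stmtJ_of (hP : StmtPwr) : StmtJ := by
  classical
  intro K ε hε
  obtain ⟨η, hη⟩ : ∃ η : ℝ, η = ε / (4 * ((K : ℝ) + 1)) := ⟨_, rfl⟩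
  have hηp : 0 < η := by rw [hη]; positivity
  obtain ⟨H, hH⟩ := exists_nat_gt (1 / η + 1)
  obtain ⟨D, hD1, hmom⟩ := moment hP K H (ε / 4) (by positivity)
  refine ⟨D, by linarith, ?_⟩
  intro X f hX hf hfX N hN hNX c hc Q hQ
  haveI : NeZero f := ⟨by omega⟩
  have hX1 : (1 : ℝ) ≤ X := by exact_mod_cast hX
  have hXp : (0 : ℝ) < X := by linarith
  have hfp : (0 : ℝ) < f := by exact_mod_cast hf
  have hφ : (0 : ℝ) < f.totient := by exact_mod_cast Nat.totient_pos.2 (by omega)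
  set Y : ℝ := ∏ i, (N i : ℝ) with hY
  have hYc : ((∏ i, N i : ℕ) : ℝ) = Y := by rw [hY]; push_cast; rfl
  have hY1 : (1 : ℝ) ≤ Y := by
    have : 1 ≤ ∏ i, N i := Finset.one_le_prod' fun i _ => hN i
    rw [← hYc]
    exact_mod_cast this
  set Ω : Finset (Fin K → ℕ) := Fintype.piFinset fun i => A f (N i) with hΩ
  set g : (Fin K → ℕ) → ZMod f := fun x => ∏ i, ((x i : ℕ) : ZMod f) ^ ((i : ℕ) + 1) with hg
  have hunit : ∀ ω ∈ Ω, IsUnit (g ω) := by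
    intro ω hω
    rw [hΩ, Fintype.mem_piFinset] at hω
    rw [hg]
    simp only
    rw [IsUnit.prod_iff]
    intro i _
    exact (unit_of (mem_A.1 (hω i)).2.2).pow _
  have hQ1 : Q ⊆ (Ω ×ˢ Ω).filter fun p => g p.1 = c * g p.2 := by
    intro t ht
    obtain ⟨a1, a2, a3⟩ := hQ t ht
    rw [mem_filter, mem_product, hΩ, Fintype.mem_piFinset, Fintype.mem_piFinset]
    exact ⟨⟨fun i => mem_A.2 (a1 i), fun i => mem_A.2 (a2 i)⟩, a3⟩
  have h1 : (f.totient : ℝ) * Q.card ≤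
      ∑ χ : DirichletCharacter ℂ f, ∏ i, ‖S (N i) ((i : ℕ) + 1) χ‖ ^ 2 := by
    have e1 := orth_le Ω g hunit c hc
    have e2 : ∀ χ : DirichletCharacter ℂ f, ‖F Ω g χ‖ ^ 2 =
        ∏ i, ‖S (N i) ((i : ℕ) + 1) χ‖ ^ 2 := by
      intro χ
      rw [hΩ, hg, prod_eq, norm_prod, Finset.prod_pow]
    rw [Finset.sum_congr rfl fun χ _ => e2 χ] at e1
    refine le_trans ?_ e1
    exact mul_le_mul_of_nonneg_left (by exact_mod_cast card_le_card hQ1) hφ.le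
  suffices hS : ∑ χ : DirichletCharacter ℂ f, ∏ i, ‖S (N i) ((i : ℕ) + 1) χ‖ ^ 2 ≤
      (f.totient : ℝ) * (D * (X : ℝ) ^ ε * (Y * (1 + Y ^ ((3 : ℝ) / 2) / f))) by
    exact le_of_mul_le_mul_left (h1.trans hS) hφ
  set I : Finset (Fin K) := univ.filter fun i => (X : ℝ) ^ η < N i with hI
  -- small classes
  have hsmall : ∀ χ : DirichletCharacter ℂ f, ∏ i ∈ Iᶜ, ‖S (N i) ((i : ℕ) + 1) χ‖ ^ 2 ≤
      (X : ℝ) ^ (ε / 4) * ∏ i ∈ Iᶜ, (N i : ℝ) := by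
    intro χ
    calc ∏ i ∈ Iᶜ, ‖S (N i) ((i : ℕ) + 1) χ‖ ^ 2 ≤ ∏ i ∈ Iᶜ, ((X : ℝ) ^ η * N i) := by
          refine Finset.prod_le_prod (fun i _ => by positivity) fun i hi => ?_
          have e1 : (N i : ℝ) ≤ (X : ℝ) ^ η := by
            have : i ∉ I := by simpa using hi
            rw [hI, mem_filter] at this
            push Not at this
            exact this (mem_univ i)
          have e2 := S_norm_le (f := f) (N i) ((i : ℕ) + 1) χ
          have e3 : 0 ≤ ‖S (N i) ((i : ℕ) + 1) χ‖ := norm_nonneg _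
          calc ‖S (N i) ((i : ℕ) + 1) χ‖ ^ 2 ≤ (N i : ℝ) ^ 2 := pow_le_pow_left₀ e3 e2 2
            _ = N i * N i := sq _
            _ ≤ (X : ℝ) ^ η * N i := mul_le_mul_of_nonneg_right e1 (Nat.cast_nonneg _)
      _ = ((X : ℝ) ^ η) ^ (Iᶜ).card * ∏ i ∈ Iᶜ, (N i : ℝ) := by
          rw [Finset.prod_mul_distrib, Finset.prod_const]
      _ ≤ (X : ℝ) ^ (ε / 4) * ∏ i ∈ Iᶜ, (N i : ℝ) := by
          refine mul_le_mul_of_nonneg_right ?_ (Finset.prod_nonneg fun i _ => Nat.cast_nonneg _)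
          rw [← Real.rpow_natCast, ← Real.rpow_mul hXp.le]
          refine Real.rpow_le_rpow_of_exponent_le hX1 ?_
          have e4 : ((Iᶜ).card : ℝ) ≤ K := by
            have := (Iᶜ).card_le_univ
            rw [Fintype.card_fin] at this
            exact_mod_cast this
          have e5 : η * ((K : ℝ) + 1) = ε / 4 := by rw [hη]; field_simp
          nlinarith
  have hNp : 0 ≤ ∏ i ∈ Iᶜ, (N i : ℝ) := Finset.prod_nonneg fun i _ => Nat.cast_nonneg _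
  have hbracket : (1 : ℝ) ≤ 1 + Y ^ ((3 : ℝ) / 2) / f := by
    have : 0 ≤ Y ^ ((3 : ℝ) / 2) / f := by positivity
    linarith
  have hXX : (X : ℝ) ^ (ε / 4) * (X : ℝ) ^ (ε / 4) ≤ (X : ℝ) ^ ε := by
    rw [← Real.rpow_add hXp]
    exact Real.rpow_le_rpow_of_exponent_le hX1 (by linarith)
  have hXε : (1 : ℝ) ≤ (X : ℝ) ^ (ε / 4) := Real.one_le_rpow hX1 (by positivity)
  have hbigsum : ∑ χ : DirichletCharacter ℂ f, ∏ i ∈ I, ‖S (N i) ((i : ℕ) + 1) χ‖ ^ 2 ≤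
      (f.totient : ℝ) * (D * (X : ℝ) ^ (ε / 4) *
        ((∏ i ∈ I, (N i : ℝ)) * (1 + Y ^ ((3 : ℝ) / 2) / f))) := by
    rcases I.eq_empty_or_nonempty with he | hne
    · rw [he]
      simp only [Finset.prod_empty, Finset.sum_const, nsmul_eq_mul, mul_one, one_mul,
        Finset.card_univ]
      have e1 : (Fintype.card (DirichletCharacter ℂ f) : ℝ) = f.totient := by
        rw [← Nat.card_eq_fintype_card, DirichletCharacter.card_eq_totient_of_hasEnoughRootsOfUnity]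
      rw [e1]
      have e2 : 1 ≤ D * (X : ℝ) ^ (ε / 4) * (1 + Y ^ ((3 : ℝ) / 2) / f) := by
        have e3 : 1 ≤ D * (X : ℝ) ^ (ε / 4) := by nlinarith
        nlinarith
      nlinarith
    · refine big K H (ε / 4) D hD1 (by positivity) hmom X f hX hf hfX N hN hNX I hne ?_ ?_
      · intro i hi
        rw [hI, mem_filter] at hi
        have e1 : (1 : ℝ) ≤ (X : ℝ) ^ η := Real.one_le_rpow hX1 hηp.le
        have e2 : (1 : ℝ) < N i := lt_of_le_of_lt e1 hi.2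
        have : 1 < N i := by exact_mod_cast e2
        omega
      · intro i hi h hh
        rw [hI, mem_filter] at hi
        by_contra hcon
        have e0 : (H : ℝ) ≤ h := by exact_mod_cast (by omega : H ≤ h)
        have e1 : (1 : ℝ) < η * h := by
          have : 1 / η < h := by linarith
          rw [div_lt_iff₀ hηp] at this
          linarith
        have e2 : (X : ℝ) ≤ ((X : ℝ) ^ η) ^ h := by
          rw [← Real.rpow_natCast, ← Real.rpow_mul hXp.le]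
          nth_rewrite 1 [← Real.rpow_one (X : ℝ)]
          exact Real.rpow_le_rpow_of_exponent_le hX1 e1.le
        have e3 : ((X : ℝ) ^ η) ^ h < (N i : ℝ) ^ h := by
          have hh0 : h ≠ 0 := by
            rintro rfl
            simp at e1
            linarith
          exact pow_lt_pow_left₀ hi.2 (by positivity) hh0
        have e4 : ((N i : ℝ)) ^ h ≤ X := by exact_mod_cast hh
        linarith
  calc ∑ χ : DirichletCharacter ℂ f, ∏ i, ‖S (N i) ((i : ℕ) + 1) χ‖ ^ 2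
      = ∑ χ : DirichletCharacter ℂ f, (∏ i ∈ I, ‖S (N i) ((i : ℕ) + 1) χ‖ ^ 2) *
          ∏ i ∈ Iᶜ, ‖S (N i) ((i : ℕ) + 1) χ‖ ^ 2 :=
        Finset.sum_congr rfl fun χ _ => (Finset.prod_mul_prod_compl I _).symm
    _ ≤ ∑ χ : DirichletCharacter ℂ f, (∏ i ∈ I, ‖S (N i) ((i : ℕ) + 1) χ‖ ^ 2) *
          ((X : ℝ) ^ (ε / 4) * ∏ i ∈ Iᶜ, (N i : ℝ)) :=
        Finset.sum_le_sum fun χ _ => mul_le_mul_of_nonneg_left (hsmall χ)
          (Finset.prod_nonneg fun i _ => by positivity)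
    _ = (∑ χ : DirichletCharacter ℂ f, (∏ i ∈ I, ‖S (N i) ((i : ℕ) + 1) χ‖ ^ 2)) *
          ((X : ℝ) ^ (ε / 4) * ∏ i ∈ Iᶜ, (N i : ℝ)) := by rw [Finset.sum_mul]
    _ ≤ ((f.totient : ℝ) * (D * (X : ℝ) ^ (ε / 4) *
        ((∏ i ∈ I, (N i : ℝ)) * (1 + Y ^ ((3 : ℝ) / 2) / f)))) *
          ((X : ℝ) ^ (ε / 4) * ∏ i ∈ Iᶜ, (N i : ℝ)) :=
        mul_le_mul_of_nonneg_right hbigsum (by positivity)
    _ = (f.totient : ℝ) * (D * ((X : ℝ) ^ (ε / 4) * (X : ℝ) ^ (ε / 4)) *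
        (((∏ i ∈ I, (N i : ℝ)) * ∏ i ∈ Iᶜ, (N i : ℝ)) * (1 + Y ^ ((3 : ℝ) / 2) / f))) := by ring
    _ = (f.totient : ℝ) * (D * ((X : ℝ) ^ (ε / 4) * (X : ℝ) ^ (ε / 4)) *
        (Y * (1 + Y ^ ((3 : ℝ) / 2) / f))) := by rw [Finset.prod_mul_prod_compl]
    _ ≤ (f.totient : ℝ) * (D * (X : ℝ) ^ ε * (Y * (1 + Y ^ ((3 : ℝ) / 2) / f))) := by
        have e1 : 0 ≤ Y * (1 + Y ^ ((3 : ℝ) / 2) / f) := by
          have : 0 ≤ Y := by linarith
          positivity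
        have e2 : 0 ≤ D := by linarith
        exact mul_le_mul_of_nonneg_left (mul_le_mul_of_nonneg_right
          (mul_le_mul_of_nonneg_left hXX e2) e1) hφ.le

end Pool.Agent.H705R2.ABC
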