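import Mathlib
import Pool.Agent.H705R2.ABC.Defs

/-!
# Module NUM: one of the three bounds is always good
-/

namespace Pool.Agent.H705R2.ABC

open Finset Pool.Agent.H785R2.ABC

namespace NumM

variable {K : ℕ}

theorem cost_nonneg (v : Fin 3 → Fin (K + 1) → ℝ) (hv : ∀ j i, 0 ≤ v j i) (j : Fin 3)
    (F : Finset (Fin (K + 1))) : 0 ≤ cost v j F :=
  Finset.sum_nonneg fun i _ => hv j i

theorem cost_compl (v : Fin 3 → Fin (K + 1) → ℝ) (j : Fin 3) (F : Finset (Fin (K + 1))) :
    cost v j Fᶜ = cost v j univ - cost v j F := by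
  have := Finset.sum_add_sum_compl F (fun i => v j i)
  unfold cost
  linarith

theorem cost_single (v : Fin 3 → Fin (K + 1) → ℝ) (j : Fin 3) (i : Fin (K + 1)) :
    cost v j {i} = v j i := by
  unfold cost
  simp

theorem exists_part (v : Fin 3 → Fin (K + 1) → ℝ) (hv : ∀ j i, 0 ≤ v j i) (r : Fin 3)
    (hpos : 0 < cost v r univ) (h : ∀ i, v r i ≤ 2 / 3 * cost v r univ) :
    ∃ F : Finset (Fin (K + 1)), 1 / 3 * cost v r univ ≤ cost v r F ∧
      cost v r F ≤ 2 / 3 * cost v r univ := by
  classical
  by_cases h1 : ∃ i, 1 / 3 * cost v r univ ≤ v r i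
  · obtain ⟨i, hi⟩ := h1
    exact ⟨{i}, by rwa [cost_single], by rw [cost_single]; exact h i⟩
  push Not at h1
  obtain ⟨F, hF, hmax⟩ := Finset.exists_max_image
    ((univ : Finset (Finset (Fin (K + 1)))).filter fun F => cost v r F ≤ 2 / 3 * cost v r univ)
    (fun F => cost v r F) ⟨∅, by
      simp only [mem_filter, mem_univ, true_and]
      unfold cost
      simp only [sum_empty]
      have : 0 ≤ ∑ i : Fin (K + 1), v r i := Finset.sum_nonneg fun i _ => hv r i
      linarith⟩
  rw [mem_filter] at hF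
  refine ⟨F, ?_, hF.2⟩
  by_contra hcon
  push Not at hcon
  have h2 : ∃ i, i ∉ F ∧ 0 < v r i := by
    by_contra h3
    push Not at h3
    have h4 : cost v r Fᶜ ≤ 0 := by
      unfold cost
      exact Finset.sum_nonpos fun i hi => h3 i (by simpa using hi)
    rw [cost_compl] at h4
    linarith
  obtain ⟨i, hiF, hi⟩ := h2
  have h5 : cost v r (insert i F) = v r i + cost v r F := by
    unfold cost
    exact Finset.sum_insert hiF
  have h6 := hmax (insert i F) (by
    rw [mem_filter]
    refine ⟨mem_univ _, ?_⟩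
    rw [h5]
    have := h1 i
    linarith)
  simp only [h5] at h6
  linarith

theorem w_ge (lam δ : ℝ) (v w : Fin 3 → Fin (K + 1) → ℝ) (hP : Poly K lam δ v w) (j : Fin 3)
    (i : Fin (K + 1)) : v j i ≤ w j i := by
  have h0 := hP.v_nonneg j i
  by_cases hi : (i : ℕ) < K
  · rw [hP.w_eq j i hi]
    have : (0 : ℝ) ≤ ((i : ℕ) : ℝ) := Nat.cast_nonneg _
    nlinarith
  · have : i = Fin.last K := by
      apply Fin.ext
      have := i.2
      simp only [Fin.val_last]
      omega
    rw [this] at h0 ⊢
    have h1 := hP.w_last j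
    have : (0 : ℝ) ≤ (K : ℝ) := Nat.cast_nonneg _
    nlinarith

theorem last_le (lam δ : ℝ) (v w : Fin 3 → Fin (K + 1) → ℝ) (hP : Poly K lam δ v w) (j : Fin 3) :
    v j (Fin.last K) ≤ 1 / ((K : ℝ) + 1) := by
  have hw : ∀ j i, 0 ≤ w j i := fun j i => (hP.v_nonneg j i).trans (w_ge lam δ v w hP j i)
  have h1 : w j (Fin.last K) ≤ 1 := by
    have h2 : w j (Fin.last K) ≤ cost w j univ := by
      unfold cost
      exact Finset.single_le_sum (fun i _ => hw j i) (mem_univ _)
    have h3 : cost w j univ ≤ 1 := by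
      fin_cases j
      · exact hP.w0
      · exact hP.w1
      · exact hP.w2
    linarith
  have h4 := hP.w_last j
  have hK : (0 : ℝ) < (K : ℝ) + 1 := by positivity
  rw [le_div_iff₀ hK]
  linarith

theorem core (lam : ℝ) (hl0 : 0 < lam) (hl1 : lam ≤ 9 / 10) (hK : 11 / lam ≤ (K : ℝ))
    (δ : ℝ) (hδ : 0 ≤ δ) (v w : Fin 3 → Fin (K + 1) → ℝ) (hP : Poly K lam δ v w)
    (p q r : Fin 3) (hpq : p ≠ q) (hqr : q ≠ r) (hpr : p ≠ r)
    (hsum : cost v p univ + cost v q univ + cost v r univ ≤ lam)
    (h1 : cost v p univ ≤ cost v q univ) (h2 : cost v p univ ≤ cost v r univ)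
    (hW : 1 - δ ≤ cost w r univ)
    (hT1 : 4 * lam / 7 + 20 * δ < cost v p univ + cost v q univ)
    (hT2 : 4 * lam / 7 + 20 * δ < cost v p univ + cost v r univ)
    (hT3 : 4 * lam / 7 + 20 * δ < cost v q univ + cost v r univ)
    (hE : ∀ F : Finset (Fin (K + 1)), 4 * lam / 7 + 1 / (K + 1) + 20 * δ <
      cost v r F + (1 / 2) * ((cost v p univ + v p (Fin.last K) +
          max 0 (3 / 2 * cost v p univ - cost w r F)) +
        (cost v q univ + v q (Fin.last K) +
          max 0 (3 / 2 * cost v q univ - cost w r F))))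
    (hD : ∀ i : Fin (K + 1), 1 ≤ (i : ℕ) → (i : ℕ) < K →
      cost v r {i}ᶜ + cost v q univ ≤ 4 * lam / 7 + 20 * δ →
      4 * lam / 7 + 20 * δ < (1 / 2) * (cost v r {i}ᶜ + cost v q univ) + cost v p univ) :
    False := by
  have hv := hP.v_nonneg
  have hw : ∀ j i, 0 ≤ w j i := fun j i => (hP.v_nonneg j i).trans (w_ge lam δ v w hP j i)
  have hlp := last_le lam δ v w hP p
  have hlq := last_le lam δ v w hP q
  have hVp : 0 ≤ cost v p univ := cost_nonneg v hv p univ
  have hVq : 0 ≤ cost v q univ := cost_nonneg v hv q univ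
  have hVr : 0 ≤ cost v r univ := cost_nonneg v hv r univ
  obtain ⟨P, hPd⟩ : ∃ P, P = cost v p univ := ⟨_, rfl⟩
  obtain ⟨Q, hQd⟩ : ∃ Q, Q = cost v q univ := ⟨_, rfl⟩
  obtain ⟨R, hRd⟩ : ∃ R, R = cost v r univ := ⟨_, rfl⟩
  obtain ⟨W, hWd⟩ : ∃ W, W = cost w r univ := ⟨_, rfl⟩
  rw [← hPd, ← hQd, ← hRd] at hsum
  rw [← hPd, ← hQd] at h1 hT1
  rw [← hPd, ← hRd] at h2 hT2
  rw [← hQd, ← hRd] at hT3
  rw [← hWd] at hW
  rw [← hPd] at hVp
  rw [← hQd] at hVq
  rw [← hRd] at hVr
  simp only [← hPd, ← hQd] at hE hD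
  have hE1 : ∀ F : Finset (Fin (K + 1)), 4 * lam / 7 + 20 * δ <
      cost v r F + 1 / 2 * (P + Q) + 1 / 2 * max 0 (3 / 2 * P - cost w r F) +
        1 / 2 * max 0 (3 / 2 * Q - cost w r F) := by
    intro F
    have := hE F
    linarith
  have hδ' : δ ≤ 1 / 50 := by linarith
  -- averaging
  have hi : ∀ F : Finset (Fin (K + 1)), cost w r F < 3 / 2 * Q → W - cost w r F < 3 / 2 * Q →
      False := by
    intro F a1 a2
    have e1 := hE1 F
    have e2 := hE1 Fᶜ
    rw [cost_compl v, cost_compl w, ← hRd, ← hWd] at e2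
    have b1 : P + Q ≤ 643 / 1000 := by
      by_contra hcon
      push Not at hcon
      linarith
    rw [max_eq_left (show 3 / 2 * P - cost w r F ≤ 0 by linarith),
      max_eq_right (show 0 ≤ 3 / 2 * Q - cost w r F by linarith)] at e1
    rw [max_eq_left (show 3 / 2 * P - (W - cost w r F) ≤ 0 by linarith),
      max_eq_right (show 0 ≤ 3 / 2 * Q - (W - cost w r F) by linarith)] at e2
    linarith
  -- no loss
  have hii : ∀ F : Finset (Fin (K + 1)), 3 / 2 * Q ≤ cost w r F →
      4 * lam / 7 + 20 * δ < cost v r F + 1 / 2 * (P + Q) := by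
    intro F a1
    have e1 := hE1 F
    rw [max_eq_left (show 3 / 2 * P - cost w r F ≤ 0 by linarith),
      max_eq_left (show 3 / 2 * Q - cost w r F ≤ 0 by linarith)] at e1
    linarith
  have hiii : ∀ F : Finset (Fin (K + 1)), 3 / 2 * Q ≤ W - cost w r F →
      4 * lam / 7 + 20 * δ < R - cost v r F + 1 / 2 * (P + Q) := by
    intro F a1
    have e1 := hii Fᶜ (by rw [cost_compl w, ← hWd]; exact a1)
    rw [cost_compl v, ← hRd] at e1
    exact e1
  by_cases hbig : ∃ i, 2 / 3 * R < v r i
  · obtain ⟨i, hi'⟩ := hbig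
    have hMR : v r i ≤ R := by
      rw [hRd]
      unfold cost
      exact Finset.single_le_sum (fun i _ => hv r i) (mem_univ _)
    rcases lt_or_ge (W - cost w r {i}) (3 / 2 * Q) with c1 | c1
    · rcases lt_or_ge (cost w r {i}) (3 / 2 * Q) with c2 | c2
      · exact hi {i} c2 c1
      · have e1 := hii {i} c2
        rw [cost_single] at e1
        rw [cost_single] at c1 c2
        by_cases hi0 : (i : ℕ) = 0
        · by_cases hK0 : 0 < K
          · have e2 := hP.w_eq r i (by omega)
            rw [hi0] at e2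
            simp only [Nat.cast_zero, zero_add, one_mul] at e2
            linarith
          · have : (K : ℝ) = 0 := by
              have : K = 0 := by omega
              exact_mod_cast this
            rw [this] at hK
            have : 0 < 11 / lam := by positivity
            linarith
        · by_cases hiK : (i : ℕ) < K
          · have e2 := hD i (by omega) hiK
            rw [cost_compl v, cost_single, ← hRd] at e2
            have e3 := e2 (by linarith)
            linarith
          · have e4 : i = Fin.last K := by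
              apply Fin.ext
              have := i.2
              simp only [Fin.val_last]
              omega
            have e5 := last_le lam δ v w hP r
            rw [← e4] at e5
            have hKp : (0 : ℝ) < (K : ℝ) + 1 := by positivity
            have e6 : 1 / ((K : ℝ) + 1) ≤ lam / 11 := by
              rw [div_le_div_iff₀ hKp (by norm_num)]
              rw [div_le_iff₀ hl0] at hK
              nlinarith
            linarith
    · have e1 := hiii {i} c1
      rw [cost_single] at e1
      linarith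
  · push Not at hbig
    rw [hRd] at hbig
    obtain ⟨F, hF1, hF2⟩ := exists_part v hv r (by rw [← hRd]; linarith) hbig
    rw [← hRd] at hF1 hF2
    rcases lt_or_ge (W - cost w r F) (3 / 2 * Q) with c1 | c1
    · rcases lt_or_ge (cost w r F) (3 / 2 * Q) with c2 | c2
      · exact hi F c2 c1
      · have e1 := hii F c2
        linarith
    · have e1 := hiii F c1
      linarith

end NumM

open NumM in
theorem stmtNum : StmtNum := by
  intro lam hl0 hl1
  obtain ⟨K₀, hK₀⟩ := exists_nat_ge (11 / lam)
  refine ⟨K₀, 20, by norm_num, ?_⟩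
  intro K hK δ v w hδ hP
  have hK' : 11 / lam ≤ (K : ℝ) := hK₀.trans (by exact_mod_cast hK)
  by_contra hcon
  push Not at hcon
  obtain ⟨hT, hE, hD⟩ := hcon
  have htot := hP.tot
  have key : ∀ p q r : Fin 3, p ≠ q → q ≠ r → p ≠ r →
      cost v p univ + cost v q univ + cost v r univ ≤ lam → 1 - δ ≤ cost w r univ →
      cost v p univ ≤ cost v q univ → cost v p univ ≤ cost v r univ → False := by
    intro p q r hpq hqr hpr hs hW a1 a2
    exact core lam hl0 hl1 hK' δ hδ v w hP p q r hpq hqr hpr hs a1 a2 hW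
      (hT p q hpq) (hT p r hpr) (hT q r hqr) (fun F => hE p q r hpq hqr hpr F)
      (fun i b1 b2 b3 => hD r q p hqr.symm hpq.symm hpr.symm i b1 b2 b3)
  rcases le_total (cost v 1 univ) (cost v 2 univ) with c | c
  · rcases le_total (cost v 0 univ) (cost v 1 univ) with c' | c'
    · exact key 0 1 2 (by decide) (by decide) (by decide) (by linarith) hP.w2' c' (by linarith)
    · exact key 1 0 2 (by decide) (by decide) (by decide) (by linarith) hP.w2' c' c
  · rcases le_total (cost v 0 univ) (cost v 2 univ) with c' | c'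
    · exact key 0 2 1 (by decide) (by decide) (by decide) (by linarith) hP.w1' c' (by linarith)
    · exact key 2 0 1 (by decide) (by decide) (by decide) (by linarith) hP.w1' c' c

end Pool.Agent.H705R2.ABC
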