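import Mathlib
import Pool.Agent.H785R2.ABC.Defs

/-!
# The exponents of an abc-triple lie in the polytope (task PO, helper508)

Copy of `Pool.Agent.H785R2.ABC.PolyPf` in another namespace (avoids a name clash).
-/

namespace Pool.Agent.H705R2.ABC.PO

open Finset Pool.Agent.H785R2.ABC

theorem rad_mul_coprime {a b : ℕ} (h : Nat.Coprime a b) : rad (a * b) = rad a * rad b := by
  unfold rad
  rw [h.primeFactors_mul, Finset.prod_union h.disjoint_primeFactors]

theorem rad_pos' (n : ℕ) : 0 < rad n :=
  Finset.prod_pos fun _ hp => (Nat.prime_of_mem_primeFactors hp).pos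

theorem cost_expV (hF : Basics) (K : ℕ) (s : ℕ × ℕ × ℕ) (j : Fin 3) :
    cost (expV K s) j univ = Real.log (rad (num s j)) / Real.log s.2.2 := by
  unfold cost expV
  rw [← Finset.sum_div]
  congr 1
  rw [← hF.rd_univ K (num s j), hF.rd_prod K (num s j) univ]
  push_cast
  rw [Real.log_prod]
  intro i _
  have := hF.rd_pos K (num s j) {i}
  positivity

theorem cost_expW (hF : Basics) (K : ℕ) (s : ℕ × ℕ × ℕ) (j : Fin 3) (hj : 1 ≤ num s j) :
    cost (expW K s) j univ = Real.log (num s j) / Real.log s.2.2 := by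
  unfold cost expW
  rw [← Finset.sum_div]
  congr 1
  conv_rhs => rw [← hF.part_univ K (num s j) hj, hF.part_prod K (num s j) univ]
  push_cast
  rw [Real.log_prod]
  intro i _
  have := hF.part_pos K (num s j) {i}
  positivity

theorem stmtPoly_of (hF : Basics) : StmtPoly := by
  rintro K lam ⟨a, b, c⟩ ⟨ha, hb, hc, habc, hab, hac, hbc⟩ hle hrad
  simp only at ha hb hc habc hab hac hbc hle hrad
  have hc2 : (2 : ℝ) ≤ c := by
    have : 2 ≤ c := by omega
    exact_mod_cast this
  have hL : 0 < Real.log c := Real.log_pos (by linarith)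
  have haR : (0 : ℝ) < a := by exact_mod_cast ha
  have hbR : (0 : ℝ) < b := by exact_mod_cast hb
  have hcR : (0 : ℝ) < c := by exact_mod_cast hc
  have n0 : num (a, b, c) 0 = a := by simp [num]
  have n1 : num (a, b, c) 1 = b := by simp [num]
  have n2 : num (a, b, c) 2 = c := by simp [num]
  have c0 := cost_expW hF K (a, b, c) 0 (by rw [n0]; exact ha)
  have c1 := cost_expW hF K (a, b, c) 1 (by rw [n1]; exact hb)
  have c2 := cost_expW hF K (a, b, c) 2 (by rw [n2]; exact hc)
  rw [n0] at c0
  rw [n1] at c1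
  rw [n2] at c2
  simp only at c0 c1 c2
  have c2' : cost (expW K (a, b, c)) 2 univ = 1 := by rw [c2]; exact div_self hL.ne'
  refine ⟨?_, ?_, ?_, ?_, ?_, ?_, ?_, ?_, ?_⟩
  · intro j i
    unfold expV
    apply div_nonneg _ hL.le
    apply Real.log_nonneg
    exact_mod_cast hF.rd_pos K _ _
  · intro j i hi
    unfold expV expW
    rw [hF.part_single K _ i hi]
    push_cast
    rw [Real.log_pow]
    push_cast
    ring
  · intro j
    unfold expV expW
    rw [← mul_div_assoc]
    apply div_le_div_of_nonneg_right _ hL.le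
    have h1 := hF.part_last K (num (a, b, c) j)
    have h2 := hF.rd_pos K (num (a, b, c) j) {Fin.last K}
    have h3 : ((rd K (num (a, b, c) j) {Fin.last K} : ℕ) : ℝ) ^ (K + 1) ≤
        (part K (num (a, b, c) j) {Fin.last K} : ℕ) := by exact_mod_cast h1
    have h4 := Real.log_le_log (by positivity) h3
    rw [Real.log_pow] at h4
    push_cast at h4
    exact h4
  · rw [c0, div_le_one hL]
    exact Real.log_le_log haR (by exact_mod_cast (by omega : a ≤ c))
  · rw [c1, div_le_one hL]
    exact Real.log_le_log hbR (by exact_mod_cast (by omega : b ≤ c))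
  · rw [c1]
    have h1 : Real.log c ≤ Real.log 2 + Real.log b := by
      rw [← Real.log_mul (by norm_num) hbR.ne']
      apply Real.log_le_log hcR
      exact_mod_cast (by omega : c ≤ 2 * b)
    rw [sub_le_iff_le_add, ← add_div, le_div_iff₀ hL]
    linarith
  · rw [c2']
  · rw [c2']
    have : 0 ≤ Real.log 2 / Real.log c := div_nonneg (Real.log_nonneg (by norm_num)) hL.le
    simp only
    linarith
  · rw [cost_expV hF, cost_expV hF, cost_expV hF, n0, n1, n2]
    simp only
    rw [← add_div, ← add_div, div_le_iff₀ hL]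
    have ra := rad_pos' a
    have rb := rad_pos' b
    have rc := rad_pos' c
    have raR : (rad a : ℝ) ≠ 0 := by exact_mod_cast ra.ne'
    have rbR : (rad b : ℝ) ≠ 0 := by exact_mod_cast rb.ne'
    have rcR : (rad c : ℝ) ≠ 0 := by exact_mod_cast rc.ne'
    rw [← Real.log_mul raR rbR, ← Real.log_mul (mul_ne_zero raR rbR) rcR,
      ← Real.log_rpow hcR]
    apply Real.log_le_log (by positivity)
    refine le_trans (le_of_eq ?_) hrad
    rw [rad_mul_coprime (Nat.Coprime.mul_left hac hbc), rad_mul_coprime hab]
    push_cast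
    ring

end Pool.Agent.H705R2.ABC.PO
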