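import Mathlib
import Pool.Agent.H705R2.ABC.Defs

/-!
# abc-triples with a small radical: module PWR (helper503)
-/

namespace Pool.Agent.H705R2.ABC

open Finset Pool.Agent.H785R2.ABC

namespace Pwr

/-- replace the tuples by their products -/
def phi {h : ℕ} (t : (ℕ × ℕ) × ((Fin h → ℕ) × (Fin h → ℕ))) : (ℕ × ℕ) × (ℕ × ℕ) :=
  (t.1, (∏ j, t.2.1 j, ∏ j, t.2.2 j))

lemma prod_le_pow {h B : ℕ} (x : Fin h → ℕ) (hx : ∀ j, x j ≤ B) : ∏ j, x j ≤ B ^ h := by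
  calc ∏ j, x j ≤ ∏ _j : Fin h, B := Finset.prod_le_prod' fun j _ => hx j
    _ = B ^ h := by rw [Finset.prod_const, Finset.card_univ, Fintype.card_fin]

lemma one_le_prod {h : ℕ} (x : Fin h → ℕ) (hx : ∀ j, 1 ≤ x j) : 1 ≤ ∏ j, x j :=
  Nat.one_le_iff_ne_zero.2 (Finset.prod_ne_zero_iff.2 fun j _ => Nat.one_le_iff_ne_zero.1 (hx j))

/-- bound for a fibre -/
lemma fibre_le {h : ℕ} {ε D : ℝ} (hε : 0 < ε) (hD : 0 < D)
    (hF : ∀ t : ℕ, 1 ≤ t → ∀ P : Finset (Fin h → ℕ),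
      (∀ x ∈ P, ∏ j, x j = t) → (P.card : ℝ) ≤ D * (t : ℝ) ^ ε)
    {X : ℕ} (u : (ℕ × ℕ) × (ℕ × ℕ)) (h1 : 1 ≤ u.2.1) (h2 : 1 ≤ u.2.2) (h1X : u.2.1 ≤ X)
    (h2X : u.2.2 ≤ X) (S : Finset ((ℕ × ℕ) × ((Fin h → ℕ) × (Fin h → ℕ))))
    (hS : ∀ t ∈ S, phi t = u) : (S.card : ℝ) ≤ (D * (X : ℝ) ^ ε) * (D * (X : ℝ) ^ ε) := by
  classical
  have hinj : Set.InjOn (fun t : (ℕ × ℕ) × ((Fin h → ℕ) × (Fin h → ℕ)) => t.2) (S : Set _) := by
    intro t ht t' ht' he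
    have e1 : t.1 = t'.1 := by
      have a1 := congrArg Prod.fst (hS t ht)
      have a2 := congrArg Prod.fst (hS t' ht')
      simp only [phi] at a1 a2
      rw [a1, a2]
    exact Prod.ext e1 he
  have hsub : S.image (fun t => t.2) ⊆
      (S.image (fun t => t.2.1)) ×ˢ (S.image (fun t => t.2.2)) := by
    intro x hx
    obtain ⟨t, ht, rfl⟩ := Finset.mem_image.1 hx
    exact Finset.mem_product.2 ⟨Finset.mem_image.2 ⟨t, ht, rfl⟩, Finset.mem_image.2 ⟨t, ht, rfl⟩⟩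
  have hcard : S.card ≤ (S.image (fun t => t.2.1)).card * (S.image (fun t => t.2.2)).card := by
    rw [← Finset.card_image_of_injOn hinj, ← Finset.card_product]
    exact Finset.card_le_card hsub
  have hb : ∀ v : ℕ, 1 ≤ v → v ≤ X → D * (v : ℝ) ^ ε ≤ D * (X : ℝ) ^ ε := by
    intro v _ hvX
    refine mul_le_mul_of_nonneg_left ?_ hD.le
    exact Real.rpow_le_rpow (by positivity) (by exact_mod_cast hvX) hε.le
  have c1 : ((S.image (fun t => t.2.1)).card : ℝ) ≤ D * (X : ℝ) ^ ε := by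
    refine (hF u.2.1 h1 _ ?_).trans (hb _ h1 h1X)
    intro x hx
    obtain ⟨t, ht, rfl⟩ := Finset.mem_image.1 hx
    exact congrArg (fun z => z.2.1) (hS t ht)
  have c2 : ((S.image (fun t => t.2.2)).card : ℝ) ≤ D * (X : ℝ) ^ ε := by
    refine (hF u.2.2 h2 _ ?_).trans (hb _ h2 h2X)
    intro x hx
    obtain ⟨t, ht, rfl⟩ := Finset.mem_image.1 hx
    exact congrArg (fun z => z.2.2) (hS t ht)
  calc (S.card : ℝ) ≤ ((S.image (fun t => t.2.1)).card : ℝ) * (S.image (fun t => t.2.2)).card := by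
        exact_mod_cast hcard
    _ ≤ _ := mul_le_mul c1 c2 (by positivity) (by positivity)

end Pwr

/-- module PWR from TWO and FAC -/
theorem stmtPwr_of (hTwo : StmtTwo) (hFac : StmtFac) : StmtPwr := by
  classical
  intro M h ε hε
  obtain ⟨D1, hD1, H1⟩ := hTwo M (ε / 2) (by positivity)
  obtain ⟨D2, hD2, H2⟩ := hFac h (ε / 4) (by positivity)
  refine ⟨D1 * (D2 * D2), by positivity, ?_⟩
  intro k l hk hkM hl hlM X f N B hX hf hfX hN hNX hB hBX Q hQ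
  have hX0 : (0 : ℝ) < X := by exact_mod_cast hX
  have hQ1 := H1 k l hk hkM hl hlM X f N (B ^ h) hX hf hfX hN hNX (Nat.one_le_pow _ _ hB) hBX
    (Q.image Pwr.phi) (by
      intro u hu
      obtain ⟨t, ht, rfl⟩ := Finset.mem_image.1 hu
      obtain ⟨a1, a2, a3, a4, a5, a6, a7, a8, a9⟩ := hQ t ht
      refine ⟨a1, a2, a3, a4, Pwr.one_le_prod _ fun j => (a7 j).1,
        Pwr.prod_le_pow _ fun j => (a7 j).2.1, Pwr.one_le_prod _ fun j => (a8 j).1,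
        Pwr.prod_le_pow _ fun j => (a8 j).2.1, a5, a6,
        Nat.Coprime.prod_left (t := Finset.univ) (s := t.2.1) fun j _ => (a7 j).2.2,
        Nat.Coprime.prod_left (t := Finset.univ) (s := t.2.2) fun j _ => (a8 j).2.2, ?_⟩
      simp only [Pwr.phi, Nat.cast_prod]
      exact a9)
  have hfib : ∀ u ∈ Q.image Pwr.phi, ((Q.filter fun t => Pwr.phi t = u).card : ℝ) ≤
      (D2 * (X : ℝ) ^ (ε / 4)) * (D2 * (X : ℝ) ^ (ε / 4)) := by
    intro u hu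
    obtain ⟨t, ht, rfl⟩ := Finset.mem_image.1 hu
    obtain ⟨-, -, -, -, -, -, a7, a8, -⟩ := hQ t ht
    refine Pwr.fibre_le (by positivity) hD2 H2 (Pwr.phi t)
      (Pwr.one_le_prod _ fun j => (a7 j).1) (Pwr.one_le_prod _ fun j => (a8 j).1)
      ((Pwr.prod_le_pow _ fun j => (a7 j).2.1).trans hBX)
      ((Pwr.prod_le_pow _ fun j => (a8 j).2.1).trans hBX) _ ?_
    intro t' ht'
    exact (Finset.mem_filter.1 ht').2
  have hcard : (Q.card : ℝ) ≤ ((Q.image Pwr.phi).card : ℝ) *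
      ((D2 * (X : ℝ) ^ (ε / 4)) * (D2 * (X : ℝ) ^ (ε / 4))) := by
    rw [Finset.card_eq_sum_card_image Pwr.phi Q, Nat.cast_sum]
    refine (Finset.sum_le_sum hfib).trans (le_of_eq ?_)
    rw [Finset.sum_const, nsmul_eq_mul]
  refine hcard.trans ?_
  have hpow : (X : ℝ) ^ (ε / 2) * ((X : ℝ) ^ (ε / 4) * (X : ℝ) ^ (ε / 4)) = (X : ℝ) ^ ε := by
    rw [← Real.rpow_add hX0, ← Real.rpow_add hX0]
    congr 1
    ring
  calc ((Q.image Pwr.phi).card : ℝ) * ((D2 * (X : ℝ) ^ (ε / 4)) * (D2 * (X : ℝ) ^ (ε / 4)))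
      ≤ (D1 * (X : ℝ) ^ (ε / 2) * ((N : ℝ) * ((B ^ h : ℕ) : ℝ) * (1 + (N : ℝ) * ((B ^ h : ℕ) : ℝ) / f))) *
        ((D2 * (X : ℝ) ^ (ε / 4)) * (D2 * (X : ℝ) ^ (ε / 4))) :=
        mul_le_mul_of_nonneg_right hQ1 (by positivity)
    _ = D1 * (D2 * D2) * ((X : ℝ) ^ (ε / 2) * ((X : ℝ) ^ (ε / 4) * (X : ℝ) ^ (ε / 4))) *
        ((N : ℝ) * (B : ℝ) ^ h * (1 + (N : ℝ) * (B : ℝ) ^ h / f)) := by
        push_cast
        ring
    _ = _ := by rw [hpow]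

end Pool.Agent.H705R2.ABC
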