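import Mathlib
import Pool.Agent.H705R2.ABC.Defs

/-! # TR: the trivial bound for a cell -/

namespace Pool.Agent.H705R2.ABC

open Finset Pool.Agent.H785R2.ABC

namespace Tr

theorem rd_empty (K n : ℕ) : rd K n ∅ = 1 := by simp [rd, pf]

theorem part_empty (K n : ℕ) : part K n ∅ = 1 := by simp [part, pf]

theorem third : ∀ p q : Fin 3, p ≠ q → ∃ r : Fin 3, q ≠ r ∧ p ≠ r := by decide

theorem th_le (s : ℕ × ℕ × ℕ) (r : Fin 3) (h : IsABCTriple s.1 s.2.1 s.2.2) : th s r ≤ 1 := by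
  unfold th
  split_ifs
  · have h1 : (s.1 : ℝ) ≤ s.2.2 := by
      have := h.2.2.2.1
      exact_mod_cast (by omega : s.1 ≤ s.2.2)
    have h2 : (0 : ℝ) < s.2.2 := by exact_mod_cast h.2.2.1
    rw [div_le_one h2]
    exact h1
  · exact le_rfl

end Tr

theorem stmtTr_of (hM : StmtMcell) : StmtTr := by
  intro K ε hε
  obtain ⟨D, hD, h⟩ := hM K ε hε
  refine ⟨D * 2, by positivity, fun T hT s hs p q hpq => ?_⟩
  obtain ⟨r, hqr, hpr⟩ := Tr.third p q hpq
  have key := h T hT s hs p q r hpq hqr hpr 1 le_rfl (by omega) ∅ ∅ ∅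
    (fun i hi => absurd hi (Finset.notMem_empty i)) (fun i hi => absurd hi (Finset.notMem_empty i))
  simp only [Finset.compl_empty, Tr.rd_empty, Tr.part_empty, Nat.cast_one, mul_one, div_one,
    Real.one_rpow] at key
  have h1 := Tr.th_le s r (hT.abc s hs)
  refine key.trans ?_
  have h2 : (0 : ℝ) ≤ D * (s.2.2 : ℝ) ^ ε *
      ((rd K (num s p) univ : ℝ) * rd K (num s q) univ) := by positivity
  calc D * (s.2.2 : ℝ) ^ ε * ((rd K (num s p) univ : ℝ) * rd K (num s q) univ) * (1 + th s r)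
      ≤ D * (s.2.2 : ℝ) ^ ε * ((rd K (num s p) univ : ℝ) * rd K (num s q) univ) * 2 :=
        mul_le_mul_of_nonneg_left (by linarith) h2
    _ = D * 2 * (s.2.2 : ℝ) ^ ε * ((rd K (num s p) univ : ℝ) * rd K (num s q) univ) := by ring

end Pool.Agent.H705R2.ABC
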