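import Pool.Agent.H705R2.ABC.Defs

/-!
# Module TWO: the two-variable multiplicative energy modulo `f` (helper268)
-/

namespace Pool.Agent.H705R2.ABC

open Finset Pool.Agent.H785R2.ABC

namespace Two

lemma card_le_of_fib {α β : Type*} [DecidableEq β] (s : Finset α) (t : Finset β) (f : α → β)
    (hf : ∀ a ∈ s, f a ∈ t) (F : ℝ)
    (h : ∀ b ∈ t, (((s.filter fun a => f a = b).card : ℕ) : ℝ) ≤ F) :
    (s.card : ℝ) ≤ t.card * F := by
  rw [Finset.card_eq_sum_card_fiberwise (f := f) (t := t) hf]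
  push_cast
  refine (Finset.sum_le_sum h).trans ?_
  rw [Finset.sum_const, nsmul_eq_mul]

lemma log_le (η : ℝ) (hη : 0 < η) (X : ℕ) (hX : 1 ≤ X) :
    1 + Real.log X ≤ (1 + 1 / η) * (X : ℝ) ^ η := by
  have h1 := Real.log_le_rpow_div (x := (X : ℝ)) (by positivity) hη
  have h2 : (1 : ℝ) ≤ (X : ℝ) ^ η := Real.one_le_rpow (by exact_mod_cast hX) hη.le
  have h3 : (1 + 1 / η) * (X : ℝ) ^ η = (X : ℝ) ^ η + (X : ℝ) ^ η / η := by ring
  linarith

lemma natlog_le (η : ℝ) (hη : 0 < η) (X : ℕ) (hX : 1 ≤ X) :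
    (Nat.log 2 X : ℝ) + 1 ≤ (1 + 2 / η) * (X : ℝ) ^ η := by
  have h0 : (2 : ℝ) ^ (Nat.log 2 X) ≤ X := by
    exact_mod_cast Nat.pow_log_le_self 2 (by omega)
  have h3 : (Nat.log 2 X : ℝ) * Real.log 2 ≤ Real.log X := by
    rw [← Real.log_pow]
    exact Real.log_le_log (by positivity) h0
  have h4 : (1 : ℝ) / 2 ≤ Real.log 2 := by
    have := Real.log_two_gt_d9
    linarith
  have h5 : (Nat.log 2 X : ℝ) * (1 / 2) ≤ (Nat.log 2 X : ℝ) * Real.log 2 :=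
    mul_le_mul_of_nonneg_left h4 (by positivity)
  have h1 := Real.log_le_rpow_div (x := (X : ℝ)) (by positivity) hη
  have h2 : (1 : ℝ) ≤ (X : ℝ) ^ η := Real.one_le_rpow (by exact_mod_cast hX) hη.le
  have h6 : (1 + 2 / η) * (X : ℝ) ^ η = (X : ℝ) ^ η + 2 * ((X : ℝ) ^ η / η) := by ring
  linarith

lemma half (hD : StmtD) (M : ℕ) (ε : ℝ) (hε : 0 < ε) : ∃ D : ℝ, 0 < D ∧
    ∀ k : ℕ, 1 ≤ k → k ≤ M → ∀ X f : ℕ, 1 ≤ f → f ≤ X → ∀ A : ℝ, 0 ≤ A → A ≤ X →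
    ∀ c : ZMod f, IsUnit c → ∀ P : Finset (ℕ × ℕ),
    (∀ t ∈ P, 0 < t.1 ∧ 0 < t.2 ∧ (t.1 : ℝ) ≤ A ∧ t.2 ≤ t.1 ∧
      Nat.Coprime t.1 t.2 ∧ Nat.Coprime t.1 f ∧ Nat.Coprime t.2 f ∧
      (t.1 : ZMod f) ^ k = c * (t.2 : ZMod f) ^ k) →
    (P.card : ℝ) ≤ D * (X : ℝ) ^ ε * (1 + A ^ 2 / f) := by
  obtain ⟨D0, hD0, hb⟩ := hD M (ε / 2) (by positivity)
  refine ⟨(1 + 2 / (ε / 2)) * D0, by positivity, ?_⟩
  intro k hk hkM X f hf hfX A hA hAX c hc P hP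
  have hX : 1 ≤ X := hf.trans hfX
  have hX0 : (0 : ℝ) < X := by exact_mod_cast hX
  have hf0 : (0 : ℝ) < f := by exact_mod_cast hf
  have hmap : ∀ t ∈ P, Nat.log 2 (t.1 / t.2) ∈ Finset.range (Nat.log 2 X + 1) := by
    intro t ht
    obtain ⟨h1, h2, h3, _⟩ := hP t ht
    rw [Finset.mem_range, Nat.lt_succ_iff]
    apply Nat.log_mono_right
    calc t.1 / t.2 ≤ t.1 := Nat.div_le_self _ _
      _ ≤ X := by exact_mod_cast h3.trans hAX
  have hfib : ∀ j ∈ Finset.range (Nat.log 2 X + 1),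
      (((P.filter fun t => Nat.log 2 (t.1 / t.2) = j).card : ℕ) : ℝ) ≤
        D0 * (f : ℝ) ^ (ε / 2) * (1 + A ^ 2 / f) := by
    intro j _
    have hj1 : (1 : ℝ) ≤ 2 ^ j := one_le_pow₀ (by norm_num)
    have := hb k hk hkM f hf c hc (A / 2 ^ j) (2 ^ j) 1 (by positivity) (by positivity)
      (by norm_num) (P.filter fun t => Nat.log 2 (t.1 / t.2) = j) ?_
    · refine this.trans ?_
      apply mul_le_mul_of_nonneg_left _ (by positivity)
      have h1 : (2 : ℝ) ^ j * 1 * (A / 2 ^ j) ^ 2 ≤ A ^ 2 := by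
        have h2 : (2 : ℝ) ^ j * 1 * (A / 2 ^ j) ^ 2 = A ^ 2 / 2 ^ j := by
          field_simp
        rw [h2]
        exact div_le_self (by positivity) hj1
      have h3 : (2 : ℝ) ^ j * 1 * (A / 2 ^ j) ^ 2 / f ≤ A ^ 2 / f :=
        div_le_div_of_nonneg_right h1 hf0.le
      linarith
    · intro t ht
      rw [Finset.mem_filter] at ht
      obtain ⟨h1, h2, h3, h4, h5, h6, h7, h8⟩ := hP t ht.1
      have hq : t.1 / t.2 ≠ 0 := by
        have := Nat.div_pos h4 h2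
        omega
      have e1 : 2 ^ j ≤ t.1 / t.2 := by
        rw [← ht.2]
        exact Nat.pow_log_le_self 2 hq
      have e2 : t.1 / t.2 < 2 ^ (j + 1) := by
        rw [← ht.2]
        exact Nat.lt_pow_succ_log_self (by norm_num) _
      have e3 : 2 ^ j * t.2 ≤ t.1 := (Nat.le_div_iff_mul_le h2).1 e1
      have e4 : t.1 < 2 ^ (j + 1) * t.2 := (Nat.div_lt_iff_lt_mul h2).1 e2
      have e3' : (2 : ℝ) ^ j * t.2 ≤ t.1 := by exact_mod_cast e3
      have e4' : (t.1 : ℝ) < 2 ^ (j + 1) * t.2 := by exact_mod_cast e4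
      refine ⟨h1, h2, h5, h6, h7, h8, ?_, e3', ?_⟩
      · rw [le_div_iff₀ (by positivity)]
        linarith
      · rw [pow_succ] at e4'
        linarith
  have hcard := card_le_of_fib P _ (fun t => Nat.log 2 (t.1 / t.2)) hmap _ hfib
  rw [Finset.card_range] at hcard
  push_cast at hcard
  have hl := natlog_le (ε / 2) (by positivity) X hX
  have hfX' : (f : ℝ) ^ (ε / 2) ≤ (X : ℝ) ^ (ε / 2) :=
    Real.rpow_le_rpow hf0.le (by exact_mod_cast hfX) (by positivity)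
  have hB : (0 : ℝ) ≤ 1 + A ^ 2 / f := by positivity
  calc (P.card : ℝ) ≤ ((Nat.log 2 X : ℝ) + 1) * (D0 * (f : ℝ) ^ (ε / 2) * (1 + A ^ 2 / f)) :=
        hcard
    _ ≤ ((1 + 2 / (ε / 2)) * (X : ℝ) ^ (ε / 2)) * (D0 * (X : ℝ) ^ (ε / 2) * (1 + A ^ 2 / f)) := by
        apply mul_le_mul hl _ (by positivity) (by positivity)
        apply mul_le_mul_of_nonneg_right _ hB
        exact mul_le_mul_of_nonneg_left hfX' hD0.le
    _ = (1 + 2 / (ε / 2)) * D0 * (X : ℝ) ^ ε * (1 + A ^ 2 / f) := by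
        have : (X : ℝ) ^ ε = (X : ℝ) ^ (ε / 2) * (X : ℝ) ^ (ε / 2) := by
          rw [← Real.rpow_add hX0]
          congr 1
          ring
        rw [this]
        ring

/-- coprime solutions of `x ^ k = c y ^ k` in a box -/
def Full (M : ℕ) (ε D : ℝ) : Prop :=
    ∀ k : ℕ, 1 ≤ k → k ≤ M → ∀ X f : ℕ, 1 ≤ f → f ≤ X → ∀ A : ℝ, 0 ≤ A → A ≤ X →
    ∀ c : ZMod f, IsUnit c → ∀ P : Finset (ℕ × ℕ),
    (∀ t ∈ P, 0 < t.1 ∧ 0 < t.2 ∧ (t.1 : ℝ) ≤ A ∧ (t.2 : ℝ) ≤ A ∧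
      Nat.Coprime t.1 t.2 ∧ Nat.Coprime t.1 f ∧ Nat.Coprime t.2 f ∧
      (t.1 : ZMod f) ^ k = c * (t.2 : ZMod f) ^ k) →
    (P.card : ℝ) ≤ D * (X : ℝ) ^ ε * (1 + A ^ 2 / f)

lemma full (hD : StmtD) (M : ℕ) (ε : ℝ) (hε : 0 < ε) : ∃ D : ℝ, 0 < D ∧ Full M ε D := by
  classical
  obtain ⟨D0, hD0, hb⟩ := half hD M ε hε
  refine ⟨2 * D0, by positivity, ?_⟩
  intro k hk hkM X f hf hfX A hA hAX c hc P hP
  have h1 : ((P.filter fun t => t.2 ≤ t.1).card : ℝ) ≤ D0 * (X : ℝ) ^ ε * (1 + A ^ 2 / f) := by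
    apply hb k hk hkM X f hf hfX A hA hAX c hc
    intro t ht
    rw [Finset.mem_filter] at ht
    obtain ⟨h1, h2, h3, h4, h5, h6, h7, h8⟩ := hP t ht.1
    exact ⟨h1, h2, h3, ht.2, h5, h6, h7, h8⟩
  obtain ⟨u, rfl⟩ := hc
  have h2 : ((P.filter fun t => ¬ t.2 ≤ t.1).card : ℝ) ≤ D0 * (X : ℝ) ^ ε * (1 + A ^ 2 / f) := by
    rw [← Finset.card_image_of_injective _ Prod.swap_injective]
    apply hb k hk hkM X f hf hfX A hA hAX ((u⁻¹ : (ZMod f)ˣ) : ZMod f) (Units.isUnit _)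
    intro t ht
    rw [Finset.mem_image] at ht
    obtain ⟨s, hs, rfl⟩ := ht
    rw [Finset.mem_filter] at hs
    obtain ⟨h1, h2, h3, h4, h5, h6, h7, h8⟩ := hP s hs.1
    refine ⟨h2, h1, h4, ?_, h5.symm, h7, h6, ?_⟩
    · show s.1 ≤ s.2
      omega
    · show (s.2 : ZMod f) ^ k = _ * (s.1 : ZMod f) ^ k
      rw [h8, Units.inv_mul_cancel_left]
  have h3 : (P.card : ℝ) = ((P.filter fun t => t.2 ≤ t.1).card : ℝ) +
      ((P.filter fun t => ¬ t.2 ≤ t.1).card : ℝ) := by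
    rw [← Nat.cast_add, Finset.card_filter_add_card_filter_not]
  rw [h3]
  linarith

/-- conditions on a quadruple -/
def Cond (f N T k l : ℕ) (t : (ℕ × ℕ) × (ℕ × ℕ)) : Prop :=
  1 ≤ t.1.1 ∧ t.1.1 ≤ N ∧ 1 ≤ t.1.2 ∧ t.1.2 ≤ N ∧
      1 ≤ t.2.1 ∧ t.2.1 ≤ T ∧ 1 ≤ t.2.2 ∧ t.2.2 ≤ T ∧
      Nat.Coprime t.1.1 f ∧ Nat.Coprime t.1.2 f ∧ Nat.Coprime t.2.1 f ∧ Nat.Coprime t.2.2 f ∧
      (t.1.1 : ZMod f) ^ k * (t.2.1 : ZMod f) ^ l = (t.1.2 : ZMod f) ^ k * (t.2.2 : ZMod f) ^ l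

lemma fixge {M : ℕ} {ε D : ℝ} (hD : 0 < D) (hF : Full M ε D) (k l : ℕ) (hk : 1 ≤ k) (hkM : k ≤ M)
    (X f N T g e : ℕ) (hf : 1 ≤ f) (hfX : f ≤ X) (hN : N ≤ X) (hg : 1 ≤ g) (he : 1 ≤ e)
    (Q : Finset ((ℕ × ℕ) × (ℕ × ℕ)))
    (hQ : ∀ t ∈ Q, Cond f N T k l t ∧ Nat.gcd t.1.1 t.1.2 = g ∧ Nat.gcd t.2.1 t.2.2 = e) :
    (Q.card : ℝ) ≤ ((T : ℝ) / e) ^ 2 * (D * (X : ℝ) ^ ε * (1 + ((N : ℝ) / g) ^ 2 / f)) := by
  classical
  have hg0 : (0 : ℝ) < g := by exact_mod_cast hg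
  have he0 : (0 : ℝ) < e := by exact_mod_cast he
  have hf0 : (0 : ℝ) < f := by exact_mod_cast hf
  have hX0 : (0 : ℝ) < X := by
    have : 1 ≤ X := hf.trans hfX
    exact_mod_cast this
  -- the reduced quadruples
  have hred : ∀ t ∈ Q, ∃ x x' y y' : ℕ, t = ((g * x, g * x'), (e * y, e * y')) ∧
      Nat.Coprime x x' := by
    rintro ⟨⟨a, a'⟩, ⟨b, b'⟩⟩ ht
    obtain ⟨-, h1, h2⟩ := hQ _ ht
    simp only at h1 h2
    obtain ⟨x, hx⟩ : g ∣ a := h1 ▸ Nat.gcd_dvd_left a a'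
    obtain ⟨x', hx'⟩ : g ∣ a' := h1 ▸ Nat.gcd_dvd_right a a'
    obtain ⟨y, hy⟩ : e ∣ b := h2 ▸ Nat.gcd_dvd_left b b'
    obtain ⟨y', hy'⟩ : e ∣ b' := h2 ▸ Nat.gcd_dvd_right b b'
    refine ⟨x, x', y, y', by rw [hx, hx', hy, hy'], ?_⟩
    rw [hx, hx', Nat.gcd_mul_left] at h1
    have : g * Nat.gcd x x' = g * 1 := by rw [h1, mul_one]
    exact Nat.eq_of_mul_eq_mul_left (by omega) this
  -- fibres over the second component
  have hmap : ∀ t ∈ Q, (t.2.1 / e, t.2.2 / e) ∈ (Finset.Icc 1 (T / e)) ×ˢ (Finset.Icc 1 (T / e)) := by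
    intro t ht
    obtain ⟨x, x', y, y', rfl, hc⟩ := hred t ht
    obtain ⟨⟨h1, h2, h3, h4, h5, h6, h7, h8, -⟩, -⟩ := hQ _ ht
    simp only at h1 h2 h3 h4 h5 h6 h7 h8 ⊢
    have p1 : 0 < y := Nat.pos_of_ne_zero (by rintro rfl; simp at h5)
    have p2 : 0 < y' := Nat.pos_of_ne_zero (by rintro rfl; simp at h7)
    rw [Nat.mul_div_cancel_left _ (by omega), Nat.mul_div_cancel_left _ (by omega),
      Finset.mem_product, Finset.mem_Icc, Finset.mem_Icc]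
    refine ⟨⟨p1, ?_⟩, ⟨p2, ?_⟩⟩
    · rw [Nat.le_div_iff_mul_le (by omega)]
      simp only
      linarith
    · rw [Nat.le_div_iff_mul_le (by omega)]
      simp only
      linarith
  have hfib : ∀ b ∈ (Finset.Icc 1 (T / e)) ×ˢ (Finset.Icc 1 (T / e)),
      (((Q.filter fun t => (t.2.1 / e, t.2.2 / e) = b).card : ℕ) : ℝ) ≤
        D * (X : ℝ) ^ ε * (1 + ((N : ℝ) / g) ^ 2 / f) := by
    rintro ⟨y, y'⟩ _
    rcases (Q.filter fun t => (t.2.1 / e, t.2.2 / e) = (y, y')).eq_empty_or_nonempty with h0 | h0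
    · rw [h0]
      simp only [Finset.card_empty, Nat.cast_zero]
      positivity
    obtain ⟨t0, ht0⟩ := h0
    have hform : ∀ t ∈ Q.filter (fun t => (t.2.1 / e, t.2.2 / e) = (y, y')), t ∈ Q ∧
        ∃ x x' : ℕ, t = ((g * x, g * x'), (e * y, e * y')) ∧ Nat.Coprime x x' := by
      intro t ht
      rw [Finset.mem_filter] at ht
      obtain ⟨ht, h2⟩ := ht
      obtain ⟨x, x', z, z', rfl, hc⟩ := hred t ht
      refine ⟨ht, x, x', ?_, hc⟩
      simp only [Prod.mk.injEq] at h2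
      rw [Nat.mul_div_cancel_left _ (by omega), Nat.mul_div_cancel_left _ (by omega)] at h2
      rw [h2.1, h2.2]
    obtain ⟨ht0Q, x0, x0', rfl, -⟩ := hform t0 ht0
    obtain ⟨⟨-, -, -, -, -, -, -, -, c1, c2, c3, c4, -⟩, -⟩ := hQ _ ht0Q
    simp only at c1 c2 c3 c4
    have ug : IsUnit (g : ZMod f) :=
      (ZMod.isUnit_iff_coprime g f).2 (Nat.Coprime.coprime_mul_right c1)
    have ue : IsUnit (e : ZMod f) :=
      (ZMod.isUnit_iff_coprime e f).2 (Nat.Coprime.coprime_mul_right c3)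
    obtain ⟨u, hu⟩ : IsUnit (y : ZMod f) :=
      (ZMod.isUnit_iff_coprime y f).2 (Nat.Coprime.coprime_mul_left c3)
    obtain ⟨v, hv⟩ : IsUnit (y' : ZMod f) :=
      (ZMod.isUnit_iff_coprime y' f).2 (Nat.Coprime.coprime_mul_left c4)
    have hinj : Set.InjOn (fun t : (ℕ × ℕ) × (ℕ × ℕ) => (t.1.1 / g, t.1.2 / g))
        (Q.filter fun t => (t.2.1 / e, t.2.2 / e) = (y, y')) := by
      intro s hs t ht h
      obtain ⟨-, x, x', rfl, -⟩ := hform s hs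
      obtain ⟨-, z, z', rfl, -⟩ := hform t ht
      simp only [Prod.mk.injEq] at h
      rw [Nat.mul_div_cancel_left _ (by omega), Nat.mul_div_cancel_left _ (by omega),
        Nat.mul_div_cancel_left _ (by omega), Nat.mul_div_cancel_left _ (by omega)] at h
      rw [h.1, h.2]
    rw [← Finset.card_image_of_injOn hinj]
    have hA : ((N : ℝ) / g) ≤ X := by
      have h1 : (N : ℝ) / g ≤ N := div_le_self (by positivity) (by exact_mod_cast hg)
      exact h1.trans (by exact_mod_cast hN)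
    apply hF k hk hkM X f hf hfX ((N : ℝ) / g) (by positivity) hA
      (((v ^ l * (u ^ l)⁻¹ : (ZMod f)ˣ)) : ZMod f) (Units.isUnit _)
    intro p hp
    rw [Finset.mem_image] at hp
    obtain ⟨t, ht, rfl⟩ := hp
    obtain ⟨htQ, x, x', rfl, hc⟩ := hform t ht
    obtain ⟨⟨h1, h2, h3, h4, h5, h6, h7, h8, h9, h10, h11, h12, h13⟩, -⟩ := hQ _ htQ
    simp only at h1 h2 h3 h4 h5 h6 h7 h8 h9 h10 h11 h12 h13 ⊢
    rw [Nat.mul_div_cancel_left _ (by omega), Nat.mul_div_cancel_left _ (by omega)]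
    have p1 : 0 < x := Nat.pos_of_ne_zero (by rintro rfl; simp at h1)
    have p2 : 0 < x' := Nat.pos_of_ne_zero (by rintro rfl; simp at h3)
    refine ⟨p1, p2, ?_, ?_, hc, Nat.Coprime.coprime_mul_left h9, Nat.Coprime.coprime_mul_left h10, ?_⟩
    · rw [le_div_iff₀ hg0]
      have : (x : ℝ) * g = ((g * x : ℕ) : ℝ) := by push_cast; ring
      rw [this]
      exact_mod_cast h2
    · rw [le_div_iff₀ hg0]
      have : (x' : ℝ) * g = ((g * x' : ℕ) : ℝ) := by push_cast; ring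
      rw [this]
      exact_mod_cast h4
    · push_cast at h13
      rw [← hu, ← hv] at h13
      have huu : IsUnit ((g : ZMod f) ^ k * (e : ZMod f) ^ l) := (ug.pow k).mul (ue.pow l)
      have h14 : (g : ZMod f) ^ k * (e : ZMod f) ^ l * ((x : ZMod f) ^ k * (u : ZMod f) ^ l) =
          (g : ZMod f) ^ k * (e : ZMod f) ^ l * ((x' : ZMod f) ^ k * (v : ZMod f) ^ l) := by
        linear_combination h13
      have h15 := huu.mul_left_cancel h14
      have h16 : (x : ZMod f) ^ k = (x : ZMod f) ^ k * (u : ZMod f) ^ l *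
          (((u ^ l)⁻¹ : (ZMod f)ˣ) : ZMod f) := by
        rw [mul_assoc, ← Units.val_pow_eq_pow_val, ← Units.val_mul, mul_inv_cancel,
          Units.val_one, mul_one]
      rw [h16, h15, Units.val_mul, Units.val_pow_eq_pow_val]
      ring
  have hcard := card_le_of_fib Q _ (fun t => (t.2.1 / e, t.2.2 / e)) hmap _ hfib
  refine hcard.trans ?_
  apply mul_le_mul_of_nonneg_right _ (by positivity)
  rw [Finset.card_product, Nat.card_Icc, Nat.add_sub_cancel]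
  push_cast
  have h1 : ((T / e : ℕ) : ℝ) ≤ (T : ℝ) / e := Nat.cast_div_le
  have h2 : (0 : ℝ) ≤ ((T / e : ℕ) : ℝ) := by positivity
  nlinarith

lemma sum_inv_le (N X : ℕ) (hN : 1 ≤ N) (hNX : N ≤ X) (η : ℝ) (hη : 0 < η) :
    ∑ g ∈ Finset.Icc 1 N, (1 : ℝ) / g ≤ (1 + 1 / η) * (X : ℝ) ^ η := by
  have h1 := harmonic_le_one_add_log N
  rw [harmonic_eq_sum_Icc] at h1
  push_cast at h1
  have h2 : ∑ g ∈ Finset.Icc 1 N, (1 : ℝ) / g = ∑ g ∈ Finset.Icc 1 N, ((g : ℝ))⁻¹ :=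
    Finset.sum_congr rfl fun g _ => one_div _
  rw [h2]
  have h3 : Real.log N ≤ Real.log X :=
    Real.log_le_log (by exact_mod_cast hN) (by exact_mod_cast hNX)
  have h4 := log_le η hη X (hN.trans hNX)
  linarith

end Two

open Two

/-- TASK TWO. -/
theorem stmtTwo_of (hD : StmtD) : StmtTwo := by
  classical
  intro M ε hε
  obtain ⟨D, hD0, hF⟩ := full hD M (ε / 3) (by positivity)
  refine ⟨D * (1 + 1 / (ε / 3)) ^ 2, by positivity, ?_⟩
  intro k l hk hkM hl hlM X f N T hX hf hfX hN hNX hT hTX Q hQ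
  have hX0 : (0 : ℝ) < X := by exact_mod_cast hX
  have hf0 : (0 : ℝ) < f := by exact_mod_cast hf
  have hN0 : (0 : ℝ) < N := by exact_mod_cast hN
  have hT0 : (0 : ℝ) < T := by exact_mod_cast hT
  set V : ℝ := D * (X : ℝ) ^ (ε / 3) with hV
  have hV0 : 0 < V := by positivity
  -- bound for a fixed pair of gcds
  have hfix : ∀ ge ∈ (Finset.Icc 1 N) ×ˢ (Finset.Icc 1 T),
      (((Q.filter fun t => (Nat.gcd t.1.1 t.1.2, Nat.gcd t.2.1 t.2.2) = ge).card : ℕ) : ℝ) ≤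
        V * (((1 : ℝ) / ge.1 * (1 / ge.2)) * (N * T + (N * T) ^ 2 / f)) := by
    rintro ⟨g, e⟩ hge
    rw [Finset.mem_product, Finset.mem_Icc, Finset.mem_Icc] at hge
    obtain ⟨⟨hg, -⟩, ⟨he, -⟩⟩ := hge
    simp only at hg he ⊢
    have hg1 : (1 : ℝ) ≤ g := by exact_mod_cast hg
    have he1 : (1 : ℝ) ≤ e := by exact_mod_cast he
    have hg0 : (0 : ℝ) < g := by linarith
    have he0 : (0 : ℝ) < e := by linarith
    set R := Q.filter fun t => (Nat.gcd t.1.1 t.1.2, Nat.gcd t.2.1 t.2.2) = (g, e) with hR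
    have b1 : (R.card : ℝ) ≤ ((T : ℝ) / e) ^ 2 * (V * (1 + ((N : ℝ) / g) ^ 2 / f)) := by
      apply fixge hD0 hF k l hk hkM X f N T g e hf hfX hNX hg he
      intro t ht
      rw [hR, Finset.mem_filter] at ht
      simp only [Prod.mk.injEq] at ht
      exact ⟨hQ t ht.1, ht.2.1, ht.2.2⟩
    have b2 : (R.card : ℝ) ≤ ((N : ℝ) / g) ^ 2 * (V * (1 + ((T : ℝ) / e) ^ 2 / f)) := by
      rw [← Finset.card_image_of_injective R Prod.swap_injective]
      apply fixge hD0 hF l k hl hlM X f T N e g hf hfX hTX he hg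
      intro t ht
      rw [Finset.mem_image] at ht
      obtain ⟨s, hs, rfl⟩ := ht
      rw [hR, Finset.mem_filter] at hs
      simp only [Prod.mk.injEq] at hs
      obtain ⟨h1, h2, h3, h4, h5, h6, h7, h8, h9, h10, h11, h12, h13⟩ := hQ s hs.1
      refine ⟨⟨h5, h6, h7, h8, h1, h2, h3, h4, h11, h12, h9, h10, ?_⟩, hs.2.2, hs.2.1⟩
      show (s.2.1 : ZMod f) ^ l * (s.1.1 : ZMod f) ^ k = (s.2.2 : ZMod f) ^ l * (s.1.2 : ZMod f) ^ k
      rw [mul_comm, h13, mul_comm]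
    set A : ℝ := (N : ℝ) / g with hA
    set B : ℝ := (T : ℝ) / e with hB
    have hA0 : 0 < A := by positivity
    have hB0 : 0 < B := by positivity
    have b3 : (R.card : ℝ) ≤ V * (A * B + (A * B) ^ 2 / f) := by
      rcases le_total A B with h | h
      · refine b2.trans ?_
        have h1 : A ^ 2 * (V * (1 + B ^ 2 / f)) = V * (A * A + (A * B) ^ 2 / f) := by ring
        rw [h1]
        apply mul_le_mul_of_nonneg_left _ hV0.le
        have := mul_le_mul_of_nonneg_left h hA0.le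
        linarith
      · refine b1.trans ?_
        have h1 : B ^ 2 * (V * (1 + A ^ 2 / f)) = V * (B * B + (A * B) ^ 2 / f) := by ring
        rw [h1]
        apply mul_le_mul_of_nonneg_left _ hV0.le
        have := mul_le_mul_of_nonneg_right h hB0.le
        linarith
    refine b3.trans ?_
    apply mul_le_mul_of_nonneg_left _ hV0.le
    set w : ℝ := (1 : ℝ) / g * (1 / e) with hw
    have hw0 : 0 < w := by positivity
    have hw1 : w ≤ 1 := by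
      have h1 : (1 : ℝ) / g ≤ 1 := by rw [div_le_one hg0]; exact hg1
      have h2 : (1 : ℝ) / e ≤ 1 := by rw [div_le_one he0]; exact he1
      have h3 : (0 : ℝ) < 1 / g := by positivity
      have h4 : (0 : ℝ) < 1 / e := by positivity
      nlinarith
    have hAB : A * B = w * (N * T) := by
      rw [hA, hB, hw]
      field_simp
    rw [hAB]
    have h5 : (w * (N * T)) ^ 2 / f = w * (w * ((N * T) ^ 2 / f)) := by ring
    rw [h5]
    have h6 : w * ((N * T : ℝ) ^ 2 / f) ≤ (N * T) ^ 2 / f := by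
      have : (0 : ℝ) ≤ (N * T) ^ 2 / f := by positivity
      nlinarith
    have h7 := mul_le_mul_of_nonneg_left h6 hw0.le
    linarith
  have hmap : ∀ t ∈ Q, (Nat.gcd t.1.1 t.1.2, Nat.gcd t.2.1 t.2.2) ∈
      (Finset.Icc 1 N) ×ˢ (Finset.Icc 1 T) := by
    intro t ht
    obtain ⟨h1, h2, h3, h4, h5, h6, h7, h8, -⟩ := hQ t ht
    rw [Finset.mem_product, Finset.mem_Icc, Finset.mem_Icc]
    refine ⟨⟨Nat.gcd_pos_of_pos_left _ (by omega), ?_⟩, ⟨Nat.gcd_pos_of_pos_left _ (by omega), ?_⟩⟩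
    · exact (Nat.gcd_le_left _ (by omega)).trans h2
    · exact (Nat.gcd_le_left _ (by omega)).trans h6
  have hsum : (Q.card : ℝ) ≤ ∑ ge ∈ (Finset.Icc 1 N) ×ˢ (Finset.Icc 1 T),
      V * (((1 : ℝ) / ge.1 * (1 / ge.2)) * (N * T + (N * T) ^ 2 / f)) := by
    rw [Finset.card_eq_sum_card_fiberwise
      (f := fun t : (ℕ × ℕ) × (ℕ × ℕ) => (Nat.gcd t.1.1 t.1.2, Nat.gcd t.2.1 t.2.2)) hmap]
    push_cast
    exact Finset.sum_le_sum hfix
  have hN1 := sum_inv_le N X hN hNX (ε / 3) (by positivity)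
  have hT1 := sum_inv_le T X hT hTX (ε / 3) (by positivity)
  have hval : ∑ ge ∈ (Finset.Icc 1 N) ×ˢ (Finset.Icc 1 T),
      V * (((1 : ℝ) / ge.1 * (1 / ge.2)) * (N * T + (N * T) ^ 2 / f)) =
      V * (((∑ g ∈ Finset.Icc 1 N, (1 : ℝ) / g) * (∑ e ∈ Finset.Icc 1 T, (1 : ℝ) / e)) *
        (N * T + (N * T) ^ 2 / f)) := by
    rw [← Finset.mul_sum, ← Finset.sum_mul, Finset.sum_product, Finset.sum_mul_sum]
  rw [hval] at hsum
  refine hsum.trans ?_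
  have hS0 : (0 : ℝ) ≤ ∑ e ∈ Finset.Icc 1 T, (1 : ℝ) / e :=
    Finset.sum_nonneg fun e _ => by positivity
  have hP0 : (0 : ℝ) ≤ N * T + (N * T) ^ 2 / f := by positivity
  have h1 := mul_le_mul hN1 hT1 hS0 (by positivity)
  have h2 := mul_le_mul_of_nonneg_left (mul_le_mul_of_nonneg_right h1 hP0) hV0.le
  refine h2.trans (le_of_eq ?_)
  have h3 : (X : ℝ) ^ ε = (X : ℝ) ^ (ε / 3) * (X : ℝ) ^ (ε / 3) * (X : ℝ) ^ (ε / 3) := by
    rw [← Real.rpow_add hX0, ← Real.rpow_add hX0]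
    congr 1
    ring
  rw [h3, hV]
  ring

end Pool.Agent.H705R2.ABC
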