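import Mathlib
import Pool.Agent.H705R2.ABC.Est
import Pool.Agent.H705R2.ABC.Cel
import Pool.Agent.H705R2.ABC.Fin
import Pool.Agent.H705R2.ABC.Dc
import Pool.Agent.H705R2.ABC.Tr
import Pool.Agent.H705R2.ABC.Pwr
import Pool.Agent.H705R2.ABC.Two
import Pool.Agent.H705R2.ABC.Fac
import Pool.Agent.H705R2.ABC.JJ
import Pool.Agent.H705R2.ABC.Num
import Pool.Agent.H785R2.ABC.Mcell
import Pool.Agent.H785R2.ABC.M1
import Pool.Agent.H785R2.ABC.D
import Pool.Agent.H785R2.ABC.B
import Pool.Agent.H785R2.ABC.C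
import Pool.Agent.H785R2.ABC.A345
import Pool.Agent.H785R2.ABC.A12
import Pool.Agent.H785R2.ABC.Basics
import Pool.Agent.H705R2.ABC.PolyPf

/-!
# abc-triples with a small radical: the main theorem (helper705)
-/

namespace Pool.Agent.H705R2.ABC

open Pool.Agent.H785R2.ABC

theorem stmtA4' : StmtA4 := stmtA4_of (stmtA3_of stmtA2)

theorem stmtD' : StmtD := stmtD_of (stmtB_of stmtA1) stmtC

theorem stmtTr' : StmtTr :=
  stmtTr_of (stmtMcell_of basics stmtA4' (stmtM1_of basics stmtA4' stmtD'))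

theorem stmtEst' : StmtEst :=
  stmtEst_of basics stmtA4' (stmtJ_of (stmtPwr_of (stmtTwo_of stmtD') stmtFac))

theorem stmtDc' : StmtDc := stmtDc_of basics stmtA4' stmtTau

/-- For `0 < lam ≤ 9/10` the number of abc-triples with `c ≤ X` and `rad (abc) ≤ c ^ lam` is
`O (X ^ (4 lam / 7 + ε))`. -/
theorem main (lam : ℝ) (h0 : 0 < lam) (h1 : lam ≤ 9 / 10) : StmtCount lam (4 * lam / 7) :=
  count_of basics lam (4 * lam / 7) (by linarith)
    (cells_of basics (PO.stmtPoly_of basics) stmtTr' stmtEst' stmtDc' stmtNum lam h0 h1)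

end Pool.Agent.H705R2.ABC
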